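import Pool.Agent.CCO.Insul

set_option autoImplicit false

namespace Pool.Agent.CCO

open Finset

/-- Disjoint copies of a graph. -/
@[reducible] def copies (J : Type) [Fintype J] [DecidableEq J] [Nonempty J] (H : FinGraph) :
    FinGraph where
  V := J × H.V
  E := J × H.E
  fintypeV := inferInstance
  fintypeE := inferInstance
  decV := inferInstance
  decE := inferInstance
  fst := fun e => (e.1, H.fst e.2)
  snd := fun e => (e.1, H.snd e.2)
  nonempty := ⟨(Classical.arbitrary J, Classical.choice H.nonempty)⟩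

theorem bd_copies {A : Type} [AddCommMonoid A] (J : Type) [Fintype J] [DecidableEq J]
    [Nonempty J] (H : FinGraph) (φ : J × H.E → A) (j : J) (y : H.V) :
    bd (copies J H) φ (j, y) = bd H (fun e => φ (j, e)) y := by
  unfold bd
  rw [Fintype.sum_prod_type, Finset.sum_eq_single j]
  · apply sum_congr rfl
    intro e _
    simp [Prod.ext_iff]
  · intro j' _ hj
    apply sum_eq_zero
    intro e _
    simp [Prod.ext_iff, hj]
  · simp

/-- The place of the vertex `y` of the piece `j`. -/
def pos (B H : FinGraph) (s t : H.V) {J : Type} (π : J → B.E) (j : J) (y : H.V) :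
    B.V ⊕ (J × H.V) :=
  if y = s then Sum.inl (B.fst (π j)) else if y = t then Sum.inl (B.snd (π j))
    else Sum.inr (j, y)

/-- The graph `B` with a copy of `H` attached in parallel to the edge `π j`, for every `j`. -/
@[reducible] def attach (B H : FinGraph) (s t : H.V) (J : Type) [Fintype J] [DecidableEq J]
    [Nonempty J] (π : J → B.E) : FinGraph :=
  mapV (union B (copies J H)) (W := B.V ⊕ (J × H.V))
    (Sum.elim Sum.inl (fun y => pos B H s t π y.1 y.2))

section

variable (B H : FinGraph) (s t : H.V) (J : Type) [Fintype J] [DecidableEq J]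
    [Nonempty J] (π : J → B.E)

theorem bd_attach {A : Type} [AddCommMonoid A] (φ : B.E ⊕ (J × H.E) → A)
    (v : B.V ⊕ (J × H.V)) :
    bd (attach B H s t J π) φ v =
      (∑ x, if (Sum.inl x : B.V ⊕ (J × H.V)) = v then bd B (fun e => φ (Sum.inl e)) x else 0) +
      ∑ j, ∑ y, if pos B H s t π j y = v then bd H (fun e => φ (Sum.inr (j, e))) y else 0 := by
  rw [bd_mapV, Fintype.sum_sum_type]
  congr 1
  · apply sum_congr rfl
    intro x _
    rw [bd_union_inl]
    rfl
  · rw [Fintype.sum_prod_type]
    apply sum_congr rfl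
    intro j _
    apply sum_congr rfl
    intro y _
    rw [bd_union_inr, bd_copies]
    rfl

/-- The natural maps on `attach`. -/
theorem attach_cc {b : FinGraph} {g : B.E → b.E} {h : H.E → b.E} (hg : CC B b g)
    (hh : CC H b h) : CC (attach B H s t J π) b (Sum.elim g (fun x => h x.2)) := by
  rw [cc_iff] at *
  intro v
  rw [bd_attach]
  simp only [Sum.elim_inl, Sum.elim_inr, hg, hh, ite_self, sum_const_zero, add_zero]

theorem attach_le {b : FinGraph} (hg : Le B b) (hh : Le H b) :
    Le (attach B H s t J π) b := by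
  obtain ⟨g, hg⟩ := hg
  obtain ⟨h, hh⟩ := hh
  exact ⟨_, attach_cc B H s t J π hg hh⟩

theorem bd_attach_inr {A : Type} [AddCommMonoid A] (φ : B.E ⊕ (J × H.E) → A) (j : J) (y : H.V)
    (hs : y ≠ s) (ht : y ≠ t) :
    bd (attach B H s t J π) φ (Sum.inr (j, y)) = bd H (fun e => φ (Sum.inr (j, e))) y := by
  rw [bd_attach]
  have h0 : (∑ x, if (Sum.inl x : B.V ⊕ (J × H.V)) = Sum.inr (j, y) then
      bd B (fun e => φ (Sum.inl e)) x else 0) = 0 := by
    apply sum_eq_zero
    intro x _
    simp
  rw [h0, zero_add, sum_eq_single j, sum_eq_single y]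
  · rw [if_pos]
    simp [pos, hs, ht]
  · intro y' _ hy
    rw [if_neg]
    unfold pos
    split_ifs <;> simp [hy]
  · simp
  · intro j' _ hj
    apply sum_eq_zero
    intro y' _
    rw [if_neg]
    unfold pos
    split_ifs <;> simp [hj]
  · simp

/-- Insulated pieces: a map to `a` restricts to a map on `B`. -/
theorem le_of_attach_le {a : FinGraph} (hst : s ≠ t)
    (hins : ∀ X : D a, Leak a H s t X → X = 0) (h : Le (attach B H s t J π) a) : Le B a := by
  obtain ⟨f, hf⟩ := h
  rw [cc_iff] at hf
  have hj : ∀ j y, bd H (fun e => ev a (f (Sum.inr (j, e)))) y = 0 := by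
    intro j
    have h1 : ∀ y, y ≠ s → y ≠ t → bd H (fun e => ev a (f (Sum.inr (j, e)))) y = 0 := by
      intro y hs ht
      have h2 := hf (Sum.inr (j, y))
      rw [bd_attach_inr B H s t J π _ j y hs ht] at h2
      exact h2
    have h3 := bd_off H (fun e => ev a (f (Sum.inr (j, e)))) s t hst
      (bd H (fun e => ev a (f (Sum.inr (j, e)))) s) (by
        intro y hy
        by_cases hs : y = s
        · rw [if_pos hs, hs]
        · rw [if_neg hs, h1 y hs hy])
    have h4 := hins _ ⟨fun e => f (Sum.inr (j, e)), h3⟩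
    intro y
    rw [h3 y, h4]
    simp
  refine ⟨fun e => f (Sum.inl e), cc_iff.mpr (fun x => ?_)⟩
  have h1 := hf (Sum.inl x)
  rw [bd_attach] at h1
  simp only [hj, ite_self, sum_const_zero, add_zero] at h1
  simpa using h1

end

/-- The formal sum of the images of the edges at a vertex is a cut. -/
theorem formal (a G T : FinGraph) (f : G.E → T.E) (hf : CC G T f) (p : G.V) :
    ∃ z : T.V → ZMod 2,
      (∀ x, z (T.fst x) + z (T.snd x) = 1 → ∃ e ∈ star G p, f e = x) ∧
      ∀ ξ : T.E → D a, bd G (fun e => ξ (f e)) p = ∑ v, z v • bd T ξ v := by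
  have hgen : ∀ (A : Type) [AddCommGroup A] [Module (ZMod 2) A] (ξ : T.E → A),
      ∑ x, (bd G (fun e => if f e = x then (1 : ZMod 2) else 0) p) • ξ x =
        bd G (fun e => ξ (f e)) p := by
    intro A _ _ ξ
    unfold bd
    simp only [sum_smul]
    rw [sum_comm]
    apply sum_congr rfl
    intro e _
    by_cases h1 : G.fst e = p <;> by_cases h2 : G.snd e = p <;>
      simp [h1, h2, add_smul, sum_add_distrib, ite_smul]
  obtain ⟨z, hz⟩ := exists_potential T
    (fun x => bd G (fun e => if f e = x then (1 : ZMod 2) else 0) p) (by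
      intro φ hφ
      have h1 := hgen (ZMod 2) φ
      simp only [smul_eq_mul] at h1
      rw [h1]
      exact hf φ hφ p)
  refine ⟨z, ?_, ?_⟩
  · intro x hx
    rw [← hz] at hx
    by_contra hcon
    push Not at hcon
    have h0 : bd G (fun e => if f e = x then (1 : ZMod 2) else 0) p = 0 := by
      unfold bd
      apply sum_eq_zero
      intro e _
      by_cases he : e ∈ star G p
      · have := hcon e he
        simp [this]
      · rw [mem_star] at he
        push Not at he
        rw [if_neg he.1, if_neg he.2, add_zero]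
    rw [h0] at hx
    exact absurd hx (by decide)
  · intro ξ
    rw [← hgen (D a) ξ, bd_pair]
    apply sum_congr rfl
    intro x _
    rw [hz x]

section

variable (a B H : FinGraph) (s t : H.V) (J : Type) [Fintype J] [DecidableEq J]
    [Nonempty J] (π : J → B.E)

/-- The potential is constant on an edge with many pieces. -/
theorem const_on (hst : s ≠ t) (hconn : Conn H s t) (G : FinGraph)
    (f : G.E → (union a (attach B H s t J π)).E) (p : G.V)
    (z : (union a (attach B H s t J π)).V → ZMod 2)
    (hz : ∀ x, z ((union a (attach B H s t J π)).fst x) +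
      z ((union a (attach B H s t J π)).snd x) = 1 → ∃ e ∈ star G p, f e = x)
    (ε : B.E) (hcard : (star G p).card ≤ (univ.filter (fun j => π j = ε)).card) :
    z (Sum.inr (Sum.inl (B.fst ε))) + z (Sum.inr (Sum.inl (B.snd ε))) = 0 := by
  classical
  by_contra hne
  have h1 : z (Sum.inr (Sum.inl (B.fst ε))) + z (Sum.inr (Sum.inl (B.snd ε))) = 1 := by
    rcases zmod2_cases (z (Sum.inr (Sum.inl (B.fst ε))) + z (Sum.inr (Sum.inl (B.snd ε))))
      with h | h
    · exact absurd h hne
    · exact h
  set g : (union a (attach B H s t J π)).E → Option J :=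
    Sum.elim (fun _ => none) (Sum.elim (fun _ => none) (fun x => some x.1)) with hg
  have hsub : insertNone (univ.filter (fun j => π j = ε)) ⊆
      (star G p).image (fun e => g (f e)) := by
    intro o ho
    rw [mem_image]
    rcases o with _ | j
    · obtain ⟨e, he1, he2⟩ := hz (Sum.inr (Sum.inl ε)) h1
      exact ⟨e, he1, by rw [he2]; rfl⟩
    · have hj : π j = ε := by simpa using ho
      obtain ⟨q, hq⟩ := hconn
      have h2 := bd_pair H q (fun y => z (Sum.inr (pos B H s t π j y)))
      have h3 : ∑ y, z (Sum.inr (pos B H s t π j y)) • bd H q y = 1 := by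
        have h31 : ∀ w : H.V → ZMod 2, ∑ y, w y • bd H q y = w s + w t := by
          intro w
          have h32 : ∀ y, w y • bd H q y = (if y = s then w y else 0) +
              (if y = t then w y else 0) := by
            intro y
            rw [hq y, smul_add]
            congr 1
            · by_cases hy : y = s <;> simp [hy]
            · by_cases hy : y = t <;> simp [hy]
          simp only [h32, sum_add_distrib, sum_ite_eq', mem_univ, if_true]
        rw [h31 (fun y => z (Sum.inr (pos B H s t π j y))), ← h1]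
        have h33 : pos B H s t π j s = Sum.inl (B.fst ε) := by simp [pos, hj]
        have h34 : pos B H s t π j t = Sum.inl (B.snd ε) := by simp [pos, hj, hst.symm]
        rw [h33, h34]
      rw [h3] at h2
      have h4 : ∃ e, z (Sum.inr (pos B H s t π j (H.fst e))) +
          z (Sum.inr (pos B H s t π j (H.snd e))) = 1 := by
        by_contra hcon
        push Not at hcon
        have h5 : ∑ e, (z (Sum.inr (pos B H s t π j (H.fst e))) +
            z (Sum.inr (pos B H s t π j (H.snd e)))) • q e = 0 := by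
          apply sum_eq_zero
          intro e _
          rcases zmod2_cases (z (Sum.inr (pos B H s t π j (H.fst e))) +
            z (Sum.inr (pos B H s t π j (H.snd e)))) with h | h
          · rw [h, zero_smul]
          · exact absurd h (hcon e)
        rw [h5] at h2
        exact absurd h2 (by decide)
      obtain ⟨e, he⟩ := h4
      obtain ⟨e', he1, he2⟩ := hz (Sum.inr (Sum.inr (j, e))) he
      exact ⟨e', he1, by rw [he2]; rfl⟩
  have h2 := card_le_card hsub
  rw [card_insertNone] at h2
  have h3 := card_image_le (s := star G p) (f := fun e => g (f e))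
  omega

/-- The boundary of a composition. -/
theorem bd_comp (h0 : H.E → a.E) (hh0 : CC H a h0) (θ0 : B.E → a.E)
    (z : (union a (attach B H s t J π)).V → ZMod 2) :
    ∑ v, z v • bd (union a (attach B H s t J π))
      (fun x => ev a (Sum.elim id (Sum.elim θ0 (fun x => h0 x.2)) x)) v =
    ∑ e, (z (Sum.inr (Sum.inl (B.fst e))) + z (Sum.inr (Sum.inl (B.snd e)))) • ev a (θ0 e) := by
  have h1 := cc_iff.mp (cc_id a)
  have h2 := cc_iff.mp hh0
  have h3 : ∀ v, bd (attach B H s t J π)
      (fun x => ev a (Sum.elim θ0 (fun x => h0 x.2) x)) v =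
      ∑ x, if (Sum.inl x : B.V ⊕ (J × H.V)) = v then bd B (fun e => ev a (θ0 e)) x else 0 := by
    intro v
    rw [bd_attach]
    simp only [Sum.elim_inl, Sum.elim_inr, h2, ite_self, sum_const_zero, add_zero]
  rw [Fintype.sum_sum_type]
  have h4 : ∀ v : a.V, bd (union a (attach B H s t J π))
      (fun x => ev a (Sum.elim id (Sum.elim θ0 (fun x => h0 x.2)) x)) (Sum.inl v) = 0 := by
    intro v
    rw [bd_union_inl]
    exact h1 v
  have h5 : ∀ v : B.V ⊕ (J × H.V), bd (union a (attach B H s t J π))
      (fun x => ev a (Sum.elim id (Sum.elim θ0 (fun x => h0 x.2)) x)) (Sum.inr v) =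
      ∑ x, if (Sum.inl x : B.V ⊕ (J × H.V)) = v then bd B (fun e => ev a (θ0 e)) x else 0 := by
    intro v
    rw [bd_union_inr]
    exact h3 v
  simp only [h4, smul_zero, sum_const_zero, zero_add]
  rw [sum_congr rfl (fun v _ => by rw [h5 v])]
  rw [Fintype.sum_sum_type]
  have h6 : ∀ y : J × H.V, (∑ x, if (Sum.inl x : B.V ⊕ (J × H.V)) = Sum.inr y then
      bd B (fun e => ev a (θ0 e)) x else 0) = 0 := by
    intro y
    apply sum_eq_zero
    intro x _
    simp
  simp only [h6, smul_zero, sum_const_zero, add_zero]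
  rw [← bd_pair B (fun e => ev a (θ0 e)) (fun x => z (Sum.inr (Sum.inl x)))]
  apply sum_congr rfl
  intro x _
  congr 1
  simp

/-- First transfer lemma. -/
theorem transfer_one (hst : s ≠ t) (hconn : Conn H s t) (hHa : Le H a) (G : FinGraph)
    (ε : B.E) (hne : Nonempty {e : B.E // e ≠ ε}) (hB : Le (contract B ε hne) a)
    (hcard : ∀ p, (star G p).card ≤ (univ.filter (fun j => π j = ε)).card)
    (hG : Le G (union a (attach B H s t J π))) : Le G a := by
  obtain ⟨f, hf⟩ := hG
  obtain ⟨h0, hh0⟩ := hHa
  obtain ⟨g0, hg0⟩ := hB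
  rw [cc_iff] at hg0
  set θ0 : B.E → a.E := fun e => if h : e ≠ ε then g0 ⟨e, h⟩ else Classical.choice a.nonempty
    with hθ0
  refine ⟨fun e => Sum.elim id (Sum.elim θ0 (fun x => h0 x.2)) (f e), cc_iff.mpr ?_⟩
  intro p
  obtain ⟨z, hz1, hz2⟩ := formal a G _ f hf p
  rw [hz2 (fun x => ev a (Sum.elim id (Sum.elim θ0 (fun x => h0 x.2)) x)),
    bd_comp a B H s t J π h0 hh0 θ0 z]
  have hc := const_on a B H s t J π hst hconn G f p z hz1 ε (hcard p)
  set y : B.V → ZMod 2 := fun x => z (Sum.inr (Sum.inl x)) with hy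
  have hc' : y (B.fst ε) = y (B.snd ε) := z2_eq hc
  change ∑ e, (y (B.fst e) + y (B.snd e)) • ev a (θ0 e) = 0
  have h1 := bd_pair (contract B ε hne) (fun e => ev a (g0 e)) y
  rw [sum_eq_zero (fun v _ => by rw [hg0 v, smul_zero])] at h1
  have hq : ∀ x, y (if x = B.fst ε then B.snd ε else x) = y x := by
    intro x
    by_cases hx : x = B.fst ε
    · rw [if_pos hx, hx, hc']
    · rw [if_neg hx]
  have e0 : ∑ e, (y (B.fst e) + y (B.snd e)) • ev a (θ0 e) =
      ∑ e ∈ univ.filter (fun e => e ≠ ε), (y (B.fst e) + y (B.snd e)) • ev a (θ0 e) := by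
    symm
    apply sum_subset (subset_univ _)
    intro e _ he
    have : e = ε := by simpa using he
    rw [this, hc', z2_self, zero_smul]
  rw [e0, ← Finset.sum_subtype_eq_sum_filter, Finset.subtype_univ, h1]
  apply sum_congr rfl
  rintro ⟨e, he⟩ _
  simp only [hq]
  rw [hθ0]
  simp only
  rw [dif_pos he]

/-- Second transfer lemma. -/
theorem transfer_two (hst : s ≠ t) (hconn : Conn H s t) (hHa : Le H a) (G : FinGraph)
    (hodd : ∀ W : B.V → ZMod 2, ∃ θ : B.E → a.E,
      ∑ e, (W (B.fst e) + W (B.snd e)) • ev a (θ e) = 0)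
    (u v : G.V)
    (hcard : ∀ p, p ≠ u → p ≠ v → ∀ ε, (star G p).card ≤ (univ.filter (fun j => π j = ε)).card)
    (hG : Le G (union a (attach B H s t J π))) : Le G a := by
  obtain ⟨f, hf⟩ := hG
  obtain ⟨h0, hh0⟩ := hHa
  obtain ⟨z, hz1, hz2⟩ := formal a G _ f hf u
  obtain ⟨θ0, hθ0⟩ := hodd (fun x => z (Sum.inr (Sum.inl x)))
  refine ⟨fun e => Sum.elim id (Sum.elim θ0 (fun x => h0 x.2)) (f e), cc_iff.mpr ?_⟩
  have hu : bd G (fun e => ev a (Sum.elim id (Sum.elim θ0 (fun x => h0 x.2)) (f e))) u = 0 := by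
    rw [hz2 (fun x => ev a (Sum.elim id (Sum.elim θ0 (fun x => h0 x.2)) x)),
      bd_comp a B H s t J π h0 hh0 θ0 z]
    exact hθ0
  have hp : ∀ p, p ≠ u → p ≠ v →
      bd G (fun e => ev a (Sum.elim id (Sum.elim θ0 (fun x => h0 x.2)) (f e))) p = 0 := by
    intro p hpu hpv
    obtain ⟨z', hz1', hz2'⟩ := formal a G _ f hf p
    rw [hz2' (fun x => ev a (Sum.elim id (Sum.elim θ0 (fun x => h0 x.2)) x)),
      bd_comp a B H s t J π h0 hh0 θ0 z']
    apply sum_eq_zero
    intro e _
    rw [const_on a B H s t J π hst hconn G f p z' hz1' e (hcard p hpu hpv e), zero_smul]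
  intro p
  by_cases hpv : p = v
  · have h1 := sum_bd G (fun e => ev a (Sum.elim id (Sum.elim θ0 (fun x => h0 x.2)) (f e)))
    rw [sum_eq_single p] at h1
    · exact h1
    · intro q _ hq
      by_cases hqu : q = u
      · rw [hqu]; exact hu
      · exact hp q hqu (fun h => hq (h.trans hpv.symm))
    · simp
  · by_cases hpu : p = u
    · rw [hpu]; exact hu
    · exact hp p hpu hpv

end

end Pool.Agent.CCO
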