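import Pool.Agent.CCO.Gap

set_option autoImplicit false

namespace Pool.Agent.CCO

open Finset

/-- If the boundary is `X` at `s` and zero at all other vertices but possibly `t`, then it is `X`
at `t` as well. -/
theorem bd_off {A : Type} [AddCommGroup A] [Module (ZMod 2) A] (H : FinGraph) (ξ : H.E → A)
    (s t : H.V) (hst : s ≠ t) (X : A) (h : ∀ v, v ≠ t → bd H ξ v = if v = s then X else 0) :
    ∀ v, bd H ξ v = (if v = s then X else 0) + (if v = t then X else 0) := by
  intro v
  by_cases hv : v = t
  · subst hv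
    rw [if_neg hst.symm, if_pos rfl, zero_add]
    have h1 := sum_bd H ξ
    rw [← sum_erase_add _ _ (mem_univ v)] at h1
    have h2 : ∑ x ∈ univ.erase v, bd H ξ x = X := by
      rw [sum_congr rfl (fun x hx => h x (mem_erase.mp hx).1)]
      rw [sum_ite_eq', if_pos (mem_erase.mpr ⟨hst, mem_univ _⟩)]
    rw [h2] at h1
    exact (z2_eq h1).symm
  · rw [h v hv, if_neg hv, add_zero]

theorem bd_off' {A : Type} [AddCommGroup A] [Module (ZMod 2) A] (H : FinGraph) (ξ : H.E → A)
    (s t : H.V) (hst : s ≠ t) (X : A) (h : ∀ v, v ≠ s → bd H ξ v = if v = t then X else 0) :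
    ∀ v, bd H ξ v = (if v = s then X else 0) + (if v = t then X else 0) := by
  intro v
  rw [bd_off H ξ t s hst.symm X h v, add_comm]

/-- The series composition: the vertex `t` of `H` is identified with the vertex `s` of `K`. -/
@[reducible] def series (H K : FinGraph) (t : H.V) (s : K.V) : FinGraph :=
  mapV (union H K) (W := H.V ⊕ K.V)
    (Sum.elim Sum.inl (fun y => if y = s then Sum.inl t else Sum.inr y))

theorem bd_series_inl {A : Type} [AddCommMonoid A] (H K : FinGraph) (t : H.V) (s : K.V)
    (φ : H.E ⊕ K.E → A) (x : H.V) :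
    bd (series H K t s) φ (Sum.inl x) = bd H (fun e => φ (Sum.inl e)) x +
      (if x = t then bd K (fun e => φ (Sum.inr e)) s else 0) := by
  rw [bd_mapV, Fintype.sum_sum_type]
  congr 1
  · have h1 : ∀ y : H.V, (if (Sum.elim (Sum.inl : H.V → H.V ⊕ K.V)
        (fun y => if y = s then Sum.inl t else Sum.inr y) (Sum.inl y)) = Sum.inl x then
        bd (union H K) φ (Sum.inl y) else 0) =
        if y = x then bd H (fun e => φ (Sum.inl e)) y else 0 := by
      intro y
      rw [bd_union_inl]
      simp
    rw [sum_congr rfl (fun y _ => h1 y)]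
    simp
  · have h1 : ∀ y : K.V, (if (Sum.elim (Sum.inl : H.V → H.V ⊕ K.V)
        (fun y => if y = s then Sum.inl t else Sum.inr y) (Sum.inr y)) = Sum.inl x then
        bd (union H K) φ (Sum.inr y) else 0) =
        (if y = s then (if x = t then bd K (fun e => φ (Sum.inr e)) y else 0) else 0) := by
      intro y
      rw [bd_union_inr]
      by_cases hs : y = s
      · simp [hs, eq_comm]
      · simp [hs]
    rw [sum_congr rfl (fun y _ => h1 y)]
    simp

theorem bd_series_inr {A : Type} [AddCommMonoid A] (H K : FinGraph) (t : H.V) (s : K.V)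
    (φ : H.E ⊕ K.E → A) (y : K.V) :
    bd (series H K t s) φ (Sum.inr y) =
      if y = s then 0 else bd K (fun e => φ (Sum.inr e)) y := by
  rw [bd_mapV, Fintype.sum_sum_type]
  have h0 : ∀ x : H.V, (if (Sum.elim (Sum.inl : H.V → H.V ⊕ K.V)
        (fun y => if y = s then Sum.inl t else Sum.inr y) (Sum.inl x)) = Sum.inr y then
        bd (union H K) φ (Sum.inl x) else 0) = 0 := by
    intro x; simp
  rw [sum_congr rfl (fun x _ => h0 x), sum_const_zero, zero_add]
  have h1 : ∀ z : K.V, (if (Sum.elim (Sum.inl : H.V → H.V ⊕ K.V)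
        (fun y => if y = s then Sum.inl t else Sum.inr y) (Sum.inr z)) = Sum.inr y then
        bd (union H K) φ (Sum.inr z) else 0) =
        if z = y then (if y = s then 0 else bd K (fun e => φ (Sum.inr e)) z) else 0 := by
    intro z
    rw [bd_union_inr]
    by_cases hzs : z = s
    · by_cases hzy : z = y
      · simp [hzs, ← hzy]
      · simp [hzs]
        intro h h'; exact absurd (hzs.trans h) hzy
    · by_cases hzy : z = y
      · have : ¬ y = s := fun h => hzs (hzy.trans h)
        simp [hzy, this]
      · simp [hzs, hzy]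
  rw [sum_congr rfl (fun z _ => h1 z)]
  simp

theorem series_leak {a H K : FinGraph} {s : H.V} {t : H.V} {s' t' : K.V} (hst : s ≠ t)
    (hst' : s' ≠ t') {X : D a}
    (h : Leak a (series H K t s') (Sum.inl s) (Sum.inr t') X) :
    Leak a H s t X ∧ Leak a K s' t' X := by
  obtain ⟨f, hf⟩ := h
  constructor
  · refine ⟨fun e => f (Sum.inl e), ?_⟩
    apply bd_off H _ s t hst
    intro v hv
    have h1 := hf (Sum.inl v)
    rw [bd_series_inl, if_neg hv, add_zero] at h1
    rw [h1]
    simp
  · refine ⟨fun e => f (Sum.inr e), ?_⟩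
    apply bd_off' K _ s' t' hst'
    intro v hv
    have h1 := hf (Sum.inr v)
    rw [bd_series_inr, if_neg hv] at h1
    rw [h1]
    simp

theorem series_le {a H K : FinGraph} (t : H.V) (s' : K.V) (h1 : Le H a) (h2 : Le K a) :
    Le (series H K t s') a := by
  obtain ⟨f, hf⟩ := h1
  obtain ⟨g, hg⟩ := h2
  exact ⟨_, cc_mapV _ (cc_elim hf hg)⟩

theorem series_conn {H K : FinGraph} {s t : H.V} {s' t' : K.V} (hst' : s' ≠ t')
    (h1 : Conn H s t) (h2 : Conn K s' t') :
    Conn (series H K t s') (Sum.inl s) (Sum.inr t') := by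
  obtain ⟨p, hp⟩ := h1
  obtain ⟨q, hq⟩ := h2
  refine ⟨Sum.elim p q, ?_⟩
  rintro (x | y)
  · rw [bd_series_inl]
    simp only [Sum.elim_inl, Sum.elim_inr]
    rw [hp, hq, if_pos rfl, if_neg hst']
    have h11 : (1 : ZMod 2) + 1 = 0 := by decide
    by_cases h : x = t
    · simp [h, add_assoc, h11]
    · simp [h]
  · rw [bd_series_inr]
    simp only [Sum.elim_inr]
    by_cases h : y = s'
    · have : ¬ s' = t' := hst'
      simp [h, this]
    · rw [if_neg h, hq, if_neg h]
      simp

/-- A two-terminal graph mapping to every graph. -/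
@[reducible] def two : FinGraph where
  V := Bool
  E := Bool
  fintypeV := inferInstance
  fintypeE := inferInstance
  decV := inferInstance
  decE := inferInstance
  fst := fun _ => false
  snd := fun _ => true
  nonempty := ⟨false⟩

theorem two_le (a : FinGraph) : Le two a := by
  refine ⟨fun _ => Classical.choice a.nonempty, fun φ _ v => ?_⟩
  unfold bd
  rw [Fintype.sum_bool]
  exact z2_self _

theorem two_conn : Conn two false true := by
  refine ⟨fun e => if e then 1 else 0, ?_⟩
  intro v
  unfold bd
  rw [Fintype.sum_bool]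
  cases v <;> simp

/-- A common leak exists if every connected two-terminal graph mapping to `a` has a nonzero
leak. -/
theorem exists_common (a : FinGraph)
    (h : ∀ (H : FinGraph) (s t : H.V), s ≠ t → Le H a → Conn H s t →
      ∃ X : D a, X ≠ 0 ∧ Leak a H s t X) : ∃ X : D a, X ≠ 0 ∧ Common a X := by
  classical
  by_contra hcon
  push Not at hcon
  have hno : ∀ X : D a, X ≠ 0 → ∃ (H : FinGraph) (s t : H.V), Le H a ∧ s ≠ t ∧ Conn H s t ∧
      ¬ Leak a H s t X := by
    intro X hX
    have := hcon X hX
    unfold Common at this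
    push Not at this
    exact this
  have hfin : ∀ T : Finset (D a), (∀ X ∈ T, X ≠ 0) → ∃ (H : FinGraph) (s t : H.V), Le H a ∧
      s ≠ t ∧ Conn H s t ∧ ∀ X ∈ T, ¬ Leak a H s t X := by
    intro T
    induction T using Finset.induction_on with
    | empty =>
      intro _
      exact ⟨two, false, true, two_le a, by decide, two_conn, by simp⟩
    | insert X T hXT ih =>
      intro hT
      obtain ⟨H, s, t, h1, h2, h3, h4⟩ := ih (fun Y hY => hT Y (mem_insert_of_mem hY))
      obtain ⟨K, s', t', k1, k2, k3, k4⟩ := hno X (hT X (mem_insert_self _ _))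
      refine ⟨series H K t s', Sum.inl s, Sum.inr t', series_le t s' h1 k1, by simp,
        series_conn k2 h3 k3, ?_⟩
      intro Y hY hl
      obtain ⟨l1, l2⟩ := series_leak h2 k2 hl
      rw [mem_insert] at hY
      rcases hY with rfl | hY
      · exact k4 l2
      · exact h4 Y hY l1
  have : Finite (D a) := Module.finite_of_finite (ZMod 2)
  have : Fintype (D a) := Fintype.ofFinite _
  obtain ⟨H, s, t, h1, h2, h3, h4⟩ := hfin (univ.filter (fun X => X ≠ 0)) (by
    intro X hX
    simpa using hX)
  obtain ⟨X, hX, hl⟩ := h H s t h2 h1 h3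
  exact h4 X (by simpa using hX) hl

end Pool.Agent.CCO
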