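import Pool.Agent.CCO.Common

set_option autoImplicit false

namespace Pool.Agent.CCO

open Finset

/-- `a` with the isolated vertices removed. -/
@[reducible] def trim (a : FinGraph) : FinGraph where
  V := {v : a.V // ∃ e, a.fst e = v ∨ a.snd e = v}
  E := a.E
  fintypeV := inferInstance
  fintypeE := inferInstance
  decV := inferInstance
  decE := inferInstance
  fst := fun e => ⟨a.fst e, e, Or.inl rfl⟩
  snd := fun e => ⟨a.snd e, e, Or.inr rfl⟩
  nonempty := a.nonempty

theorem isFlow_trim (a : FinGraph) (φ : a.E → ZMod 2) : IsFlow (trim a) φ ↔ IsFlow a φ := by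
  have h1 : ∀ v hv, bd (trim a) φ ⟨v, hv⟩ = bd a φ v := by
    intro v hv
    unfold bd
    simp only [Subtype.mk.injEq]
  constructor
  · intro h v
    by_cases hv : ∃ e, a.fst e = v ∨ a.snd e = v
    · rw [← h1 v hv]; exact h _
    · push Not at hv
      unfold bd
      apply sum_eq_zero
      intro e _
      rw [if_neg (hv e).1, if_neg (hv e).2, add_zero]
  · rintro h ⟨v, hv⟩
    rw [h1]; exact h v

/-- Every graph is equivalent to a core without isolated vertices. -/
theorem exists_core (a : FinGraph) : ∃ a' : FinGraph, Le a a' ∧ Le a' a ∧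
    (∀ f : a'.E → a'.E, CC a' a' f → Function.Bijective f) ∧
    (∀ v : a'.V, ∃ e, a'.fst e = v ∨ a'.snd e = v) := by
  have hex : ∃ n : ℕ, ∃ B : FinGraph, (Le a B ∧ Le B a) ∧ Fintype.card B.E = n :=
    ⟨_, a, ⟨le_refl a, le_refl a⟩, rfl⟩
  classical
  obtain ⟨B, ⟨hB1, hB2⟩, hBn⟩ := Nat.find_spec hex
  have hmin : ∀ C : FinGraph, Le a C → Le C a → Fintype.card B.E ≤ Fintype.card C.E := by
    intro C h1 h2
    rw [hBn]
    exact Nat.find_min' hex ⟨C, ⟨h1, h2⟩, rfl⟩
  have hsurj : ∀ h : B.E → B.E, CC B B h → Function.Bijective h := by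
    intro h hh
    apply Function.Surjective.bijective_of_finite
    intro ε
    by_contra hε
    push Not at hε
    have hne : Nonempty {e : B.E // e ≠ ε} :=
      ⟨⟨h (Classical.choice B.nonempty), hε _⟩⟩
    have hle : Le B (contract B ε hne) := le_contract B h hh ε hε hne
    have hcard := hmin (contract B ε hne) (le_trans' hB1 hle)
      (le_trans' (contract_le B ε hne) hB2)
    have : Fintype.card {e : B.E // e ≠ ε} < Fintype.card B.E :=
      Fintype.card_subtype_lt (x := ε) (by simp)
    change Fintype.card B.E ≤ Fintype.card {e : B.E // e ≠ ε} at hcard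
    omega
  refine ⟨trim B, ?_, ?_, ?_, ?_⟩
  · have h1 : Le B (trim B) := ⟨id, fun φ hφ => (isFlow_trim B φ).mp hφ⟩
    exact le_trans' hB1 h1
  · have h1 : Le (trim B) B := ⟨id, fun φ hφ => (isFlow_trim B φ).mpr hφ⟩
    exact le_trans' h1 hB2
  · intro f hf
    apply hsurj f
    intro φ hφ
    exact (isFlow_trim B _).mp (hf φ ((isFlow_trim B φ).mpr hφ))
  · rintro ⟨v, e, he⟩
    refine ⟨e, ?_⟩
    rcases he with h | h
    · left; exact Subtype.ext h
    · right; exact Subtype.ext h

/-- The situation to be excluded: a core `a` with a common leak which is not the evaluation at an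
edge. -/
structure Ctx (a : FinGraph) (X : D a) : Prop where
  core : ∀ f : a.E → a.E, CC a a f → Function.Bijective f
  ne : X ≠ 0
  notin : ∀ e, X ≠ ev a e
  common : Common a X
  noniso : ∀ v : a.V, ∃ e, a.fst e = v ∨ a.snd e = v

/-- The edges at a vertex. -/
def star (a : FinGraph) (v : a.V) : Finset a.E :=
  univ.filter (fun e => a.fst e = v ∨ a.snd e = v)

theorem mem_star {a : FinGraph} {v : a.V} {e : a.E} :
    e ∈ star a v ↔ a.fst e = v ∨ a.snd e = v := by
  simp [star]

theorem fst_mem_star {a : FinGraph} (e : a.E) : e ∈ star a (a.fst e) := by simp [star]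

theorem snd_mem_star {a : FinGraph} (e : a.E) : e ∈ star a (a.snd e) := by simp [star]

theorem bd_eq_star {A : Type} [AddCommMonoid A] {a : FinGraph}
    (hl : ∀ e : a.E, a.fst e ≠ a.snd e) (ξ : a.E → A) (v : a.V) :
    bd a ξ v = ∑ e ∈ star a v, ξ e := by
  unfold bd star
  rw [sum_filter]
  apply sum_congr rfl
  intro e _
  by_cases h1 : a.fst e = v
  · have h2 : ¬ a.snd e = v := fun h => hl e (h1.trans h.symm)
    simp [h1, h2]
  · simp [h1]

variable {a : FinGraph} {X : D a}

theorem D_ext {Y Z : D a} (h : ∀ φ (hφ : IsFlow a φ), Y ⟨φ, hφ⟩ = Z ⟨φ, hφ⟩) : Y = Z :=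
  LinearMap.ext (fun φ => h φ.1 φ.2)

theorem ev_sum_apply {ι : Type} (s : Finset ι) (g : ι → a.E) (φ : Fl a) :
    (∑ i ∈ s, ev a (g i)) φ = ∑ i ∈ s, φ.1 (g i) := by
  rw [LinearMap.sum_apply]
  rfl

/-- The sum over the edges at a vertex is zero. -/
theorem bd_ev (v : a.V) : bd a (ev a) v = 0 := by
  have := cc_iff.mp (cc_id a) v
  exact this

namespace Ctx

theorem not_single (h : Ctx a X) (e : a.E) : ∃ e', e' ≠ e := by
  by_contra hcon
  push Not at hcon
  apply h.notin e
  obtain ⟨φ0, hφ0⟩ : ∃ φ, X φ ≠ 0 := by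
    by_contra hz
    push Not at hz
    exact h.ne (LinearMap.ext hz)
  apply LinearMap.ext
  intro φ
  rw [ev_apply]
  have key : ∀ ψ : Fl a, ψ.1 e = 0 → ψ = 0 := by
    intro ψ hψ
    apply Subtype.ext
    funext x
    rw [hcon x, hψ]
    rfl
  have h0 : φ0.1 e = 1 := by
    rcases zmod2_cases (φ0.1 e) with h1 | h1
    · rw [key φ0 h1, map_zero] at hφ0
      exact absurd rfl hφ0
    · exact h1
  rcases zmod2_cases (φ.1 e) with h1 | h1
  · rw [key φ h1, map_zero]
    rfl
  · have h2 : φ = φ0 := by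
      apply Subtype.ext
      funext x
      rw [hcon x, h1, h0]
    rw [h2, h0]
    rcases zmod2_cases (X φ0) with h3 | h3
    · exact absurd h3 hφ0
    · exact h3

theorem ev_ne (h : Ctx a X) (e : a.E) : ev a e ≠ 0 := by
  intro he
  have hcc : CC a a (fun _ => e) := cc_iff.mpr (fun v => by
    rw [he]; exact bd_zero a v)
  obtain ⟨e', he'⟩ := h.not_single e
  exact he' ((h.core _ hcc).1 rfl)

theorem ev_inj (h : Ctx a X) {e e' : a.E} (hee : ev a e = ev a e') : e = e' := by
  by_contra hne
  have hcc : CC a a (fun x => if x = e then e' else x) := by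
    rw [cc_iff]
    intro v
    have : (fun x => ev a (if x = e then e' else x)) = ev a := by
      funext x
      by_cases hx : x = e
      · rw [if_pos hx, hx, hee]
      · rw [if_neg hx]
    rw [this]
    exact bd_ev v
  have := (h.core _ hcc).1 (a₁ := e) (a₂ := e') (by simp [Ne.symm hne])
  exact hne this

theorem loopless (h : Ctx a X) (e : a.E) : a.fst e ≠ a.snd e := by
  intro he
  obtain ⟨e', he'⟩ := h.not_single e
  have hcc : CC a a (fun x => if x = e then e' else x) := by
    rw [cc_iff]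
    intro v
    have h2 : (fun x => ev a (if x = e then e' else x)) =
        fun x => ev a x + (if x = e then ev a e + ev a e' else 0) := by
      funext x
      by_cases hx : x = e
      · rw [if_pos hx, if_pos hx, hx, ← add_assoc, z2_self, zero_add]
      · rw [if_neg hx, if_neg hx, add_zero]
    rw [h2, bd_add, bd_ev, bd_ite, he, zero_add]
    exact z2_self _
  have := (h.core _ hcc).1 (a₁ := e) (a₂ := e') (by simp [he'])
  exact he' this.symm

theorem star_sum (h : Ctx a X) (v : a.V) : ∑ e ∈ star a v, ev a e = 0 := by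
  rw [← bd_eq_star h.loopless]
  exact bd_ev v

theorem cc_star (h : Ctx a X) {σ : a.E → a.E} (hσ : CC a a σ) (v : a.V) :
    ∑ e ∈ star a v, ev a (σ e) = 0 := by
  rw [← bd_eq_star h.loopless (fun e => ev a (σ e))]
  exact cc_iff.mp hσ v

theorem flow_star (h : Ctx a X) {φ : a.E → ZMod 2} (hφ : IsFlow a φ) (v : a.V) :
    ∑ e ∈ star a v, φ e = 0 := by
  rw [← bd_eq_star h.loopless φ]
  exact hφ v

theorem isFlow_of_star (h : Ctx a X) {φ : a.E → ZMod 2}
    (hφ : ∀ v, ∑ e ∈ star a v, φ e = 0) : IsFlow a φ := by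
  intro v
  rw [bd_eq_star h.loopless φ]
  exact hφ v

/-- A cc map is invertible. -/
theorem exists_inv (h : Ctx a X) {σ : a.E → a.E} (hσ : CC a a σ) :
    ∃ τ : a.E → a.E, CC a a τ ∧ (∀ e, τ (σ e) = e) ∧ ∀ e, σ (τ e) = e := by
  have hb := h.core σ hσ
  obtain ⟨τ, h1, h2⟩ := Function.bijective_iff_has_inverse.mp hb
  refine ⟨τ, ?_, h1, h2⟩
  have hfin : Finite (Fl a) := inferInstance
  set T : Fl a → Fl a := fun φ => ⟨fun e => φ.1 (σ e), hσ φ.1 φ.2⟩ with hT
  have hinj : Function.Injective T := by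
    intro φ ψ hφψ
    apply Subtype.ext
    funext e
    have h3 := congrArg (fun χ : Fl a => χ.1 (τ e)) hφψ
    simp only [hT] at h3
    rw [h2 e] at h3
    exact h3
  have hsurj := Finite.surjective_of_injective hinj
  intro φ hφ
  obtain ⟨ψ, hψ⟩ := hsurj ⟨φ, hφ⟩
  have h3 : (fun e => φ (τ e)) = ψ.1 := by
    funext e
    have h4 := congrArg (fun χ : Fl a => χ.1 (τ e)) hψ
    simp only [hT] at h4
    rw [h2 e] at h4
    exact h4.symm
  rw [h3]
  exact ψ.2

theorem cc_inj (h : Ctx a X) {σ : a.E → a.E} (hσ : CC a a σ) : Function.Injective σ :=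
  (h.core σ hσ).1

/-- The all-ones function is not a flow. -/
theorem exists_odd (h : Ctx a X) : ∃ w : a.V, Odd (star a w).card := by
  by_contra hcon
  push Not at hcon
  have hflow : IsFlow a (fun _ => 1) := by
    apply h.isFlow_of_star
    intro v
    have h1 := hcon v
    rw [Nat.not_odd_iff_even] at h1
    rw [sum_const, nsmul_eq_mul, mul_one]
    rwa [ZMod.natCast_eq_zero_iff_even]
  obtain ⟨e⟩ := a.nonempty
  have hcc : CC a a (fun _ => e) := by
    intro φ hφ v
    have h2 := bd_map a (AddMonoidHom.mulLeft (φ e)) (fun _ => (1 : ZMod 2)) v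
    rw [hflow v, map_zero] at h2
    simpa using h2.symm
  obtain ⟨e', he'⟩ := h.not_single e
  exact he' ((h.core _ hcc).1 rfl)

end Ctx

/-- Either there is a flow through `e` avoiding `T`, or a potential whose coboundary is `e` off
`T`. -/
theorem flow_or_potential (a : FinGraph) (T : Finset a.E) (e : a.E) (he : e ∉ T) :
    (∃ φ, IsFlow a φ ∧ (∀ t ∈ T, φ t = 0) ∧ φ e = 1) ∨
    (∃ z : a.V → ZMod 2, ∀ x, x ∉ T → z (a.fst x) + z (a.snd x) = if x = e then 1 else 0) := by
  by_cases hcase : ∃ φ, IsFlow a φ ∧ (∀ t ∈ T, φ t = 0) ∧ φ e = 1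
  · exact Or.inl hcase
  right
  push Not at hcase
  have hne : Nonempty {x : a.E // x ∉ T} := ⟨⟨e, he⟩⟩
  obtain ⟨z, hz⟩ := exists_potential (restrict a (fun x => x ∉ T) hne)
    (fun x => if x.1 = e then 1 else 0) (by
    intro φ hφ
    have hflow : IsFlow a (fun x => if h : x ∉ T then φ ⟨x, h⟩ else 0) := by
      intro v
      rw [← bd_restrict a (fun x => x ∉ T) hne φ _ (fun e he => by rw [dif_pos he])
        (fun e he => by rw [dif_neg he])]
      exact hφ v
    have h1 := hcase _ hflow (fun t ht => by rw [dif_neg (not_not.mpr ht)])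
    rw [dif_pos he] at h1
    have h2 : φ ⟨e, he⟩ = 0 := by
      rcases zmod2_cases (φ ⟨e, he⟩) with h3 | h3
      · exact h3
      · exact absurd h3 h1
    apply sum_eq_zero
    intro x _
    by_cases hx : x.1 = e
    · have : x = ⟨e, he⟩ := Subtype.ext hx
      rw [this, h2, mul_zero]
    · rw [if_neg hx, zero_mul])
  refine ⟨z, fun x hx => ?_⟩
  exact (hz ⟨x, hx⟩).symm

end Pool.Agent.CCO
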