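import Pool.Agent.CCO.Deg5

set_option autoImplicit false

namespace Pool.Agent.CCO

open Finset

variable {a : FinGraph} {X : D a}

/-- The star of `v` consists of the three distinct edges `p, q, r`. -/
def Tri (a : FinGraph) (v : a.V) (p q r : a.E) : Prop :=
  star a v = {p, q, r} ∧ p ≠ q ∧ p ≠ r ∧ q ≠ r

theorem Tri.mem1 {v : a.V} {p q r : a.E} (h : Tri a v p q r) : p ∈ star a v := by
  rw [h.1]; simp

theorem Tri.mem2 {v : a.V} {p q r : a.E} (h : Tri a v p q r) : q ∈ star a v := by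
  rw [h.1]; simp

theorem Tri.mem3 {v : a.V} {p q r : a.E} (h : Tri a v p q r) : r ∈ star a v := by
  rw [h.1]; simp

theorem Tri.cases {v : a.V} {p q r : a.E} (h : Tri a v p q r) {e : a.E} (he : e ∈ star a v) :
    e = p ∨ e = q ∨ e = r := by
  rw [h.1] at he
  simpa using he

theorem Tri.swap12 {v : a.V} {p q r : a.E} (h : Tri a v p q r) : Tri a v q p r := by
  obtain ⟨h1, h2, h3, h4⟩ := h
  refine ⟨?_, h2.symm, h4, h3⟩
  rw [h1]; ext x; simp only [mem_insert, mem_singleton]; tauto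

theorem Tri.swap23 {v : a.V} {p q r : a.E} (h : Tri a v p q r) : Tri a v p r q := by
  obtain ⟨h1, h2, h3, h4⟩ := h
  refine ⟨?_, h3, h2, h4.symm⟩
  rw [h1]; ext x; simp only [mem_insert, mem_singleton]; tauto

theorem Tri.swap13 {v : a.V} {p q r : a.E} (h : Tri a v p q r) : Tri a v r q p :=
  h.swap12.swap23.swap12

theorem Tri.rot {v : a.V} {p q r : a.E} (h : Tri a v p q r) : Tri a v q r p :=
  h.swap12.swap23

theorem Tri.sum {A : Type} [AddCommMonoid A] {v : a.V} {p q r : a.E} (h : Tri a v p q r)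
    (F : a.E → A) : ∑ e ∈ star a v, F e = F p + F q + F r := by
  rw [h.1, sum_insert (by simp [h.2.1, h.2.2.1]), sum_insert (by simp [h.2.2.2]), sum_singleton,
    add_assoc]

theorem tri_of_mem {v : a.V} (hc : (star a v).card = 3) {p q r : a.E} (hp : p ∈ star a v)
    (hq : q ∈ star a v) (hr : r ∈ star a v) (hpq : p ≠ q) (hpr : p ≠ r) (hqr : q ≠ r) :
    Tri a v p q r := by
  refine ⟨?_, hpq, hpr, hqr⟩
  symm
  apply eq_of_subset_of_card_le
  · intro x hx
    simp only [mem_insert, mem_singleton] at hx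
    rcases hx with rfl | rfl | rfl <;> assumption
  · rw [hc, card_insert_of_notMem (by simp [hpq, hpr]), card_insert_of_notMem (by simp [hqr]),
      card_singleton]

theorem Tri.card {v : a.V} {p q r : a.E} (h : Tri a v p q r) : (star a v).card = 3 := by
  rw [h.1, card_insert_of_notMem (by simp [h.2.1, h.2.2.1]),
    card_insert_of_notMem (by simp [h.2.2.2]), card_singleton]

/-- The third edge at a cubic vertex. -/
theorem exists_third {v : a.V} (hc : (star a v).card = 3) {p q : a.E} (hp : p ∈ star a v)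
    (hq : q ∈ star a v) (hpq : p ≠ q) : ∃ r, Tri a v p q r := by
  have h1 : (((star a v).erase p).erase q).card = 1 := by
    rw [card_erase_of_mem (mem_erase.mpr ⟨hpq.symm, hq⟩), card_erase_of_mem hp, hc]
  obtain ⟨r, hr⟩ := card_eq_one.mp h1
  have h2 : r ∈ ((star a v).erase p).erase q := by rw [hr]; simp
  simp only [mem_erase] at h2
  exact ⟨r, tri_of_mem hc hp hq h2.2.2 hpq h2.2.1.symm h2.1.symm⟩

namespace Ctx

theorem tri_ev (h : Ctx a X) {v : a.V} {p q r : a.E} (ht : Tri a v p q r) :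
    ev a p + ev a q + ev a r = 0 := by
  rw [← ht.sum]; exact h.star_sum v

/-- The two ends of an edge. -/
theorem ends (h : Ctx a X) {e : a.E} {u v x : a.V} (huv : u ≠ v) (hu : e ∈ star a u)
    (hv : e ∈ star a v) (hx : e ∈ star a x) : x = u ∨ x = v := by
  obtain ⟨t, _, _, h3, _⟩ := h.other hu
  rcases h3 v hv with h4 | h4
  · exact absurd h4.symm huv
  · rcases h3 x hx with h5 | h5
    · exact Or.inl h5
    · right; rw [h5, h4]

theorem tri_map {σ : a.E → a.E} (h : Ctx a X) (hσ : CC a a σ) {g : a.V → a.V}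
    (hg : ∀ v e, σ e ∈ star a (g v) ↔ e ∈ star a v) {v : a.V} {p q r : a.E}
    (ht : Tri a v p q r) : Tri a (g v) (σ p) (σ q) (σ r) := by
  have hinj := h.cc_inj hσ
  refine ⟨?_, hinj.ne ht.2.1, hinj.ne ht.2.2.1, hinj.ne ht.2.2.2⟩
  ext x
  obtain ⟨y, rfl⟩ := (h.core σ hσ).2 x
  rw [hg, ht.1]
  simp only [mem_insert, mem_singleton, hinj.eq_iff]

/-- Edges with a common end: if the sum of two edges at a cubic vertex is `X`, contradiction. -/
theorem no_sum (h : Ctx a X) {v : a.V} {p q r : a.E} (ht : Tri a v p q r) {e e' : a.E}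
    (he : e ∈ star a v) (he' : e' ∈ star a v) (hX : ev a e + ev a e' = X) : False := by
  have hs := h.tri_ev ht
  have h0 : e ≠ e' := by
    rintro rfl
    rw [z2_self] at hX
    exact h.ne hX.symm
  have key : ∀ {p q r : a.E}, ev a p + ev a q + ev a r = 0 → ev a p + ev a q = X → False := by
    intro p q r h1 h2
    rw [h2] at h1
    exact h.notin r (z2_eq h1)
  rcases ht.cases he with rfl | rfl | rfl <;> rcases ht.cases he' with rfl | rfl | rfl
  · exact h0 rfl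
  · exact key hs hX
  · exact key (p := e) (q := e') (r := q) (by rw [← hs]; abel) hX
  · exact key (p := e) (q := e') (r := r) (by rw [← hs]; abel) hX
  · exact h0 rfl
  · exact key (p := e) (q := e') (r := p) (by rw [← hs]; abel) hX
  · exact key (p := e) (q := e') (r := q) (by rw [← hs]; abel) hX
  · exact key (p := e) (q := e') (r := p) (by rw [← hs]; abel) hX
  · exact h0 rfl

/-- The dipole at a cubic vertex. -/
theorem dipole3 (h : Ctx a X) {w : a.V} {x y z : a.E} (ht : Tri a w x y z) :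
    ∃ σ τ : a.E → a.E, CC a a σ ∧ CC a a τ ∧ σ z = τ z ∧ ev a (σ x) + ev a (τ x) = X ∧
      ev a (σ y) + ev a (τ y) = X := by
  obtain ⟨ψ, hψ, hψx, hψy, hψ0⟩ := h.exists_pass w x y ht.mem1 ht.mem2 ht.2.1
  have hfil : (star a w).filter (· ∈ ({x} : Finset a.E)) = {x} := by
    ext e
    simp only [mem_filter, mem_singleton]
    constructor
    · exact fun he => he.2
    · rintro rfl; exact ⟨ht.mem1, rfl⟩
  have hfil2 : (star a w).filter (fun c => c ∉ ({z} : Finset a.E) ∧ c ∉ ({x} : Finset a.E)) =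
      {y} := by
    ext e
    simp only [mem_filter, mem_singleton]
    constructor
    · rintro ⟨h1, h2, h3⟩
      rcases ht.cases h1 with h4 | h4 | h4
      · exact absurd h4 h3
      · exact h4
      · exact absurd h4 h2
    · rintro rfl; exact ⟨ht.mem2, ht.2.2.2, ht.2.1.symm⟩
  obtain ⟨σ, τ, hσ, hτ, h1, h2, h3⟩ := h.dipole w {z} {x} (by
    rw [disjoint_singleton]; exact ht.2.2.1.symm) ψ hψ (by
    intro c hc hcz
    rw [mem_singleton] at hcz
    exact hψ0 c hc (by rw [hcz]; exact ht.2.2.1.symm) (by rw [hcz]; exact ht.2.2.2.symm)) (by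
    rw [hfil, sum_singleton, hψx])
  rw [hfil, sum_singleton] at h2
  rw [hfil2, sum_singleton] at h3
  exact ⟨σ, τ, hσ, hτ, h1 z ht.mem3 (mem_singleton_self z), h2, h3⟩

/-- If `star w = univ` then `w` is not cubic. -/
theorem not_cubic_univ (h : Ctx a X) {w : a.V} (hw : star a w = univ)
    (hc : (star a w).card = 3) : False := by
  obtain ⟨x, y, z, hxy, hxz, hyz, hs⟩ := card_eq_three.mp hc
  have ht : Tri a w x y z := ⟨hs, hxy, hxz, hyz⟩
  obtain ⟨σ, τ, _, _, _, h2, _⟩ := h.dipole3 ht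
  exact h.no_sum ht (by rw [hw]; exact mem_univ _) (by rw [hw]; exact mem_univ _) h2

/-- The neighbours of a cubic vertex are cubic. -/
theorem cubic_nbr (h : Ctx a X) (hs : ∀ e e', Par a e e' → e = e') {w u : a.V}
    (hc : (star a w).card = 3) (huw : u ≠ w) {z : a.E} (hzw : z ∈ star a w)
    (hzu : z ∈ star a u) : (star a u).card = 3 := by
  have h1 : ((star a w).erase z).card = 2 := by
    rw [card_erase_of_mem hzw, hc]
  obtain ⟨x, y, hxy, hxye⟩ := card_eq_two.mp h1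
  have hx : x ∈ (star a w).erase z := by rw [hxye]; simp
  have hy : y ∈ (star a w).erase z := by rw [hxye]; simp
  rw [mem_erase] at hx hy
  have ht : Tri a w x y z := tri_of_mem hc hx.2 hy.2 hzw hxy hx.1 hy.1
  obtain ⟨σ, τ, hσ, hτ, hz, h2, _⟩ := h.dipole3 ht
  obtain ⟨g, hg, hgs⟩ := h.star_map hs hσ
  obtain ⟨g', hg', hgs'⟩ := h.star_map hs hτ
  have t1 := h.tri_map hσ hgs ht
  have t2 := h.tri_map hτ hgs' ht
  have hne : g w ≠ g' w := by
    intro heq
    rw [← heq] at t2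
    exact h.no_sum t1 t1.mem1 t2.mem1 h2
  have hends := h.ends hne t1.mem3 (by rw [hz]; exact t2.mem3) ((hgs u z).mpr hzu)
  rcases hends with h3 | h3
  · exact absurd (hg.1 h3) huw
  · have h4 : (star a (g u)).card = (star a u).card := by
      have : star a (g u) = (star a u).image σ := by
        ext e
        obtain ⟨e', rfl⟩ := (h.core σ hσ).2 e
        rw [hgs, mem_image]
        constructor
        · intro he; exact ⟨e', he, rfl⟩
        · rintro ⟨e'', he, hee⟩; rw [← h.cc_inj hσ hee]; exact he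
      rw [this, card_image_of_injective _ (h.cc_inj hσ)]
    rw [← h4, h3]
    exact t2.card

/-- A non-injective map which is the identity on the stars of all vertices but some at which the
sum of the values vanishes. -/
theorem no_fold (h : Ctx a X) (f : a.E → a.E)
    (hf : ∀ v, (∀ e ∈ star a v, f e = e) ∨ ∑ e ∈ star a v, ev a (f e) = 0) {e e' : a.E}
    (hne : e ≠ e') (hee : f e = f e') : False := by
  apply hne
  apply (h.core f _).1 hee
  rw [cc_iff]
  intro v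
  rw [bd_eq_star h.loopless (fun e => ev a (f e))]
  rcases hf v with h1 | h1
  · rw [sum_congr rfl (fun e he => by rw [h1 e he])]
    exact h.star_sum v
  · exact h1

theorem ne_of_notMem {v : a.V} {e e' : a.E} (h1 : e ∈ star a v) (h2 : e' ∉ star a v) :
    e ≠ e' := by
  rintro rfl; exact h2 h1

/-- There are no triangles through a cubic vertex. -/
theorem no_triangle (h : Ctx a X) (hs : ∀ e e', Par a e e' → e = e') {v1 v2 v3 : a.V}
    (hc : (star a v1).card = 3) (h12 : v1 ≠ v2) (h13 : v1 ≠ v3) (h23 : v2 ≠ v3)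
    {e12 e13 e23 : a.E} (m1 : e12 ∈ star a v1) (m2 : e12 ∈ star a v2) (m3 : e13 ∈ star a v1)
    (m4 : e13 ∈ star a v3) (m5 : e23 ∈ star a v2) (m6 : e23 ∈ star a v3) : False := by
  have c2 := h.cubic_nbr hs hc h12.symm m1 m2
  have c3 := h.cubic_nbr hs hc h13.symm m3 m4
  -- non-memberships
  have n1 : e12 ∉ star a v3 := fun hh => by
    rcases h.ends h12 m1 m2 hh with h1 | h1
    · exact h13 h1.symm
    · exact h23 h1.symm
  have n2 : e13 ∉ star a v2 := fun hh => by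
    rcases h.ends h13 m3 m4 hh with h1 | h1
    · exact h12 h1.symm
    · exact h23 h1
  have n3 : e23 ∉ star a v1 := fun hh => by
    rcases h.ends h23 m5 m6 hh with h1 | h1
    · exact h12 h1
    · exact h13 h1
  have d1 : e12 ≠ e13 := ne_of_notMem m2 n2
  have d2 : e12 ≠ e23 := ne_of_notMem m1 n3
  have d3 : e13 ≠ e23 := ne_of_notMem m3 n3
  obtain ⟨g1, t1⟩ := exists_third hc m1 m3 d1
  obtain ⟨g2, t2⟩ := exists_third c2 m2 m5 d2
  obtain ⟨g3, t3⟩ := exists_third c3 m4 m6 d3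
  have s1 := h.tri_ev t1
  have s2 := h.tri_ev t2
  have s3 := h.tri_ev t3
  have sg : ev a g1 + ev a g2 + ev a g3 = 0 := by
    have e1 : (ev a e12 + ev a e13 + ev a g1) + (ev a e12 + ev a e23 + ev a g2) +
        (ev a e13 + ev a e23 + ev a g3) = (ev a e12 + ev a e12) + (ev a e13 + ev a e13) +
        (ev a e23 + ev a e23) + (ev a g1 + ev a g2 + ev a g3) := by abel
    rw [s1, s2, s3, z2_self (ev a e12), z2_self (ev a e13), z2_self (ev a e23)] at e1
    simpa using e1.symm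
  have k1 : g1 ≠ e23 := ne_of_notMem t1.mem3 n3
  have k2 : g2 ≠ e13 := ne_of_notMem t2.mem3 n2
  have k3 : g3 ≠ e12 := ne_of_notMem t3.mem3 n1
  set f : a.E → a.E := fun e => if e = e12 then g3 else if e = e13 then g2 else
    if e = e23 then g1 else e with hf
  have f1 : f e12 = g3 := by simp [hf]
  have f2 : f e13 = g2 := by simp [hf, d1.symm]
  have f3 : f e23 = g1 := by simp [hf, d2.symm, d3.symm]
  have fg1 : f g1 = g1 := by simp [hf, t1.2.2.1.symm, t1.2.2.2.symm, k1]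
  have fg2 : f g2 = g2 := by simp [hf, t2.2.2.1.symm, t2.2.2.2.symm, k2]
  have fg3 : f g3 = g3 := by simp [hf, t3.2.2.1.symm, t3.2.2.2.symm, k3]
  apply h.no_fold f _ (e := e12) (e' := g3) k3.symm (by rw [f1, fg3])
  intro v
  by_cases hv1 : v = v1
  · right; rw [hv1, t1.sum, f1, f2, fg1, ← sg]; abel
  by_cases hv2 : v = v2
  · right; rw [hv2, t2.sum, f1, f3, fg2, ← sg]; abel
  by_cases hv3 : v = v3
  · right; rw [hv3, t3.sum, f2, f3, fg3, ← sg]; abel
  left
  intro e he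
  have a1 : e ≠ e12 := by
    rintro rfl
    rcases h.ends h12 m1 m2 he with h1 | h1
    · exact hv1 h1
    · exact hv2 h1
  have a2 : e ≠ e13 := by
    rintro rfl
    rcases h.ends h13 m3 m4 he with h1 | h1
    · exact hv1 h1
    · exact hv3 h1
  have a3 : e ≠ e23 := by
    rintro rfl
    rcases h.ends h23 m5 m6 he with h1 | h1
    · exact hv2 h1
    · exact hv3 h1
  simp [hf, a1, a2, a3]

/-- The graph `K_{2,3}` is reducible. -/
theorem no_K23 (h : Ctx a X) {w u v1 v2 v3 : a.V} {x1 x2 x3 f1 f2 f3 g1 g2 g3 : a.E}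
    (tw : Tri a w x1 x2 x3) (tu : Tri a u f1 f2 f3) (t1 : Tri a v1 x1 f1 g1)
    (t2 : Tri a v2 x2 f2 g2) (t3 : Tri a v3 x3 f3 g3) (hwu : w ≠ u) (w1 : w ≠ v1) (w2 : w ≠ v2)
    (w3 : w ≠ v3) (u1 : u ≠ v1) (u2 : u ≠ v2) (u3 : u ≠ v3) (h12 : v1 ≠ v2) (h13 : v1 ≠ v3)
    (h23 : v2 ≠ v3) : False := by
  have nx1 : ∀ t, x1 ∈ star a t → t = w ∨ t = v1 := fun t ht => h.ends w1 tw.mem1 t1.mem1 ht
  have nx2 : ∀ t, x2 ∈ star a t → t = w ∨ t = v2 := fun t ht => h.ends w2 tw.mem2 t2.mem1 ht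
  have nx3 : ∀ t, x3 ∈ star a t → t = w ∨ t = v3 := fun t ht => h.ends w3 tw.mem3 t3.mem1 ht
  have nf1 : ∀ t, f1 ∈ star a t → t = u ∨ t = v1 := fun t ht => h.ends u1 tu.mem1 t1.mem2 ht
  have nf2 : ∀ t, f2 ∈ star a t → t = u ∨ t = v2 := fun t ht => h.ends u2 tu.mem2 t2.mem2 ht
  have nf3 : ∀ t, f3 ∈ star a t → t = u ∨ t = v3 := fun t ht => h.ends u3 tu.mem3 t3.mem2 ht
  -- `x` against `f`
  have xu : ∀ {x : a.E} {v : a.V}, (∀ t, x ∈ star a t → t = w ∨ t = v) → u ≠ v →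
      x ∉ star a u := by
    intro x v hx huv hh
    rcases hx u hh with h1 | h1
    · exact hwu h1.symm
    · exact huv h1
  have xf : ∀ {x f : a.E}, x ∉ star a u → f ∈ star a u → x ≠ f := by
    intro x f h1 h2 h3; rw [h3] at h1; exact h1 h2
  have nx1u := xu nx1 u1
  have nx2u := xu nx2 u2
  have nx3u := xu nx3 u3
  have x1f2 : x1 ≠ f2 := xf nx1u tu.mem2
  have x1f3 : x1 ≠ f3 := xf nx1u tu.mem3
  have x2f1 : x2 ≠ f1 := xf nx2u tu.mem1
  have x2f3 : x2 ≠ f3 := xf nx2u tu.mem3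
  have x3f1 : x3 ≠ f1 := xf nx3u tu.mem1
  have x3f2 : x3 ≠ f2 := xf nx3u tu.mem2
  have x1f1 := t1.2.1
  have x2f2 := t2.2.1
  have x3f3 := t3.2.1
  -- `g` against the others
  have gx : ∀ {g x : a.E} {v v' s : a.V}, g ∈ star a v → (∀ t, x ∈ star a t → t = s ∨ t = v') →
      v ≠ s → v ≠ v' → g ≠ x := by
    intro g x v v' s h1 h2 h3 h4 h5
    rw [h5] at h1
    rcases h2 v h1 with h6 | h6
    · exact h3 h6
    · exact h4 h6
  have g1x2 : g1 ≠ x2 := gx t1.mem3 nx2 w1.symm h12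
  have g1x3 : g1 ≠ x3 := gx t1.mem3 nx3 w1.symm h13
  have g1f2 : g1 ≠ f2 := gx t1.mem3 nf2 u1.symm h12
  have g1f3 : g1 ≠ f3 := gx t1.mem3 nf3 u1.symm h13
  have g2x1 : g2 ≠ x1 := gx t2.mem3 nx1 w2.symm h12.symm
  have g2x3 : g2 ≠ x3 := gx t2.mem3 nx3 w2.symm h23
  have g2f1 : g2 ≠ f1 := gx t2.mem3 nf1 u2.symm h12.symm
  have g2f3 : g2 ≠ f3 := gx t2.mem3 nf3 u2.symm h23
  have g3x1 : g3 ≠ x1 := gx t3.mem3 nx1 w3.symm h13.symm
  have g3x2 : g3 ≠ x2 := gx t3.mem3 nx2 w3.symm h23.symm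
  have g3f1 : g3 ≠ f1 := gx t3.mem3 nf1 u3.symm h13.symm
  have g3f2 : g3 ≠ f2 := gx t3.mem3 nf2 u3.symm h23.symm
  have s1 := h.tri_ev t1
  have s2 := h.tri_ev t2
  have s3 := h.tri_ev t3
  have sw := h.tri_ev tw
  have su := h.tri_ev tu
  have sg : ev a g1 + ev a g2 + ev a g3 = 0 := by
    have e1 : (ev a x1 + ev a f1 + ev a g1) + (ev a x2 + ev a f2 + ev a g2) +
        (ev a x3 + ev a f3 + ev a g3) = (ev a x1 + ev a x2 + ev a x3) +
        (ev a f1 + ev a f2 + ev a f3) + (ev a g1 + ev a g2 + ev a g3) := by abel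
    rw [s1, s2, s3, sw, su] at e1
    simpa using e1.symm
  set f : a.E → a.E := fun e => if e = x1 then g2 else if e = f1 then g3 else
    if e = x2 then g3 else if e = f2 then g1 else if e = x3 then g1 else
    if e = f3 then g2 else e with hf
  have fx1 : f x1 = g2 := by simp [hf]
  have ff1 : f f1 = g3 := by simp [hf, x1f1.symm]
  have fx2 : f x2 = g3 := by simp [hf, tw.2.1.symm]
  have ff2 : f f2 = g1 := by simp [hf, x1f2.symm, tu.2.1.symm, x2f2.symm]
  have fx3 : f x3 = g1 := by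
    simp [hf, tw.2.2.1.symm, tw.2.2.2.symm, x3f1]
  have ff3 : f f3 = g2 := by
    simp [hf, x1f3.symm, x2f3.symm, x3f3.symm, tu.2.2.1.symm, tu.2.2.2.symm]
  have fg1 : f g1 = g1 := by
    simp [hf, g1x2, g1x3, g1f2, g1f3, t1.2.2.1.symm, t1.2.2.2.symm]
  have fg2 : f g2 = g2 := by
    simp [hf, g2x1, g2x3, g2f1, g2f3, t2.2.2.1.symm, t2.2.2.2.symm]
  have fg3 : f g3 = g3 := by
    simp [hf, g3x1, g3x2, g3f1, g3f2, t3.2.2.1.symm, t3.2.2.2.symm]
  apply h.no_fold f _ (e := x1) (e' := g2) g2x1.symm (by rw [fx1, fg2])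
  intro v
  by_cases hv : v = w
  · right; rw [hv, tw.sum, fx1, fx2, fx3, ← sg]; abel
  by_cases hvu : v = u
  · right; rw [hvu, tu.sum, ff1, ff2, ff3, ← sg]; abel
  by_cases hv1 : v = v1
  · right; rw [hv1, t1.sum, fx1, ff1, fg1, ← sg]; abel
  by_cases hv2 : v = v2
  · right; rw [hv2, t2.sum, fx2, ff2, fg2, ← sg]; abel
  by_cases hv3 : v = v3
  · right; rw [hv3, t3.sum, fx3, ff3, fg3, ← sg]
  left
  intro e he
  have hne : ∀ {x : a.E} {s t : a.V}, (∀ t', x ∈ star a t' → t' = s ∨ t' = t) → v ≠ s → v ≠ t →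
      e ≠ x := by
    intro x s t h1 h2 h3 h4
    rw [h4] at he
    rcases h1 v he with h5 | h5
    · exact h2 h5
    · exact h3 h5
  simp [hf, hne nx1 hv hv1, hne nx2 hv hv2, hne nx3 hv hv3, hne nf1 hvu hv1, hne nf2 hvu hv2,
    hne nf3 hvu hv3]

/-- The cube minus a vertex is reducible. -/
theorem no_cube (h : Ctx a X) {w v1 v2 v3 t12 t13 t23 : a.V}
    {x1 x2 x3 p12 p13 p21 p23 p31 p32 g12 g13 g23 : a.E}
    (tw : Tri a w x1 x2 x3) (t1 : Tri a v1 x1 p12 p13) (t2 : Tri a v2 x2 p21 p23)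
    (t3 : Tri a v3 x3 p31 p32) (r12 : Tri a t12 p12 p21 g12) (r13 : Tri a t13 p13 p31 g13)
    (r23 : Tri a t23 p23 p32 g23)
    (hnd : [w, v1, v2, v3, t12, t13, t23].Nodup) : False := by
  simp only [List.nodup_cons, List.mem_cons, List.not_mem_nil, or_false, not_or, not_false_iff,
    List.nodup_nil, and_true] at hnd
  obtain ⟨⟨w_1, w_2, w_3, w_12, w_13, w_23⟩, ⟨h12, h13, v1_12, v1_13, v1_23⟩,
    ⟨h23, v2_12, v2_13, v2_23⟩, ⟨v3_12, v3_13, v3_23⟩, ⟨t_1, t_2⟩, t_3⟩ := hnd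
  have nx1 : ∀ t, x1 ∈ star a t → t = w ∨ t = v1 := fun t ht => h.ends w_1 tw.mem1 t1.mem1 ht
  have nx2 : ∀ t, x2 ∈ star a t → t = w ∨ t = v2 := fun t ht => h.ends w_2 tw.mem2 t2.mem1 ht
  have nx3 : ∀ t, x3 ∈ star a t → t = w ∨ t = v3 := fun t ht => h.ends w_3 tw.mem3 t3.mem1 ht
  have n12 : ∀ t, p12 ∈ star a t → t = v1 ∨ t = t12 :=
    fun t ht => h.ends v1_12 t1.mem2 r12.mem1 ht
  have n13 : ∀ t, p13 ∈ star a t → t = v1 ∨ t = t13 :=
    fun t ht => h.ends v1_13 t1.mem3 r13.mem1 ht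
  have n21 : ∀ t, p21 ∈ star a t → t = v2 ∨ t = t12 :=
    fun t ht => h.ends v2_12 t2.mem2 r12.mem2 ht
  have n23 : ∀ t, p23 ∈ star a t → t = v2 ∨ t = t23 :=
    fun t ht => h.ends v2_23 t2.mem3 r23.mem1 ht
  have n31 : ∀ t, p31 ∈ star a t → t = v3 ∨ t = t13 :=
    fun t ht => h.ends v3_13 t3.mem2 r13.mem2 ht
  have n32 : ∀ t, p32 ∈ star a t → t = v3 ∨ t = t23 :=
    fun t ht => h.ends v3_23 t3.mem3 r23.mem2 ht
  have gx : ∀ {g x : a.E} {v s s' : a.V}, g ∈ star a v → (∀ t, x ∈ star a t → t = s ∨ t = s') →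
      ¬ v = s → ¬ v = s' → g ≠ x := by
    intro g x v s s' h1 h2 h3 h4 h5
    rw [h5] at h1
    rcases h2 v h1 with h6 | h6
    · exact h3 h6
    · exact h4 h6
  have s1 := h.tri_ev t1
  have s2 := h.tri_ev t2
  have s3 := h.tri_ev t3
  have sw := h.tri_ev tw
  have q1 := h.tri_ev r12
  have q2 := h.tri_ev r13
  have q3 := h.tri_ev r23
  have sg : ev a g12 + ev a g13 + ev a g23 = 0 := by
    have e1 : (ev a p12 + ev a p21 + ev a g12) + (ev a p13 + ev a p31 + ev a g13) +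
        (ev a p23 + ev a p32 + ev a g23) + (ev a x1 + ev a x2 + ev a x3) =
        (ev a x1 + ev a p12 + ev a p13) +
        (ev a x2 + ev a p21 + ev a p23) + (ev a x3 + ev a p31 + ev a p32) +
        (ev a g12 + ev a g13 + ev a g23) := by abel
    rw [s1, s2, s3, sw, q1, q2, q3] at e1
    simpa using e1.symm
  -- the vertices not equal facts, symmetric versions
  have w_1' : ¬ v1 = w := fun hh => w_1 hh.symm
  have w_2' : ¬ v2 = w := fun hh => w_2 hh.symm
  have w_3' : ¬ v3 = w := fun hh => w_3 hh.symm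
  have w_12' : ¬ t12 = w := fun hh => w_12 hh.symm
  have w_13' : ¬ t13 = w := fun hh => w_13 hh.symm
  have w_23' : ¬ t23 = w := fun hh => w_23 hh.symm
  have h12' : ¬ v2 = v1 := fun hh => h12 hh.symm
  have h13' : ¬ v3 = v1 := fun hh => h13 hh.symm
  have h23' : ¬ v3 = v2 := fun hh => h23 hh.symm
  have v1_12' : ¬ t12 = v1 := fun hh => v1_12 hh.symm
  have v1_13' : ¬ t13 = v1 := fun hh => v1_13 hh.symm
  have v1_23' : ¬ t23 = v1 := fun hh => v1_23 hh.symm
  have v2_12' : ¬ t12 = v2 := fun hh => v2_12 hh.symm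
  have v2_13' : ¬ t13 = v2 := fun hh => v2_13 hh.symm
  have v2_23' : ¬ t23 = v2 := fun hh => v2_23 hh.symm
  have v3_12' : ¬ t12 = v3 := fun hh => v3_12 hh.symm
  have v3_13' : ¬ t13 = v3 := fun hh => v3_13 hh.symm
  have v3_23' : ¬ t23 = v3 := fun hh => v3_23 hh.symm
  have t_1' : ¬ t13 = t12 := fun hh => t_1 hh.symm
  have t_2' : ¬ t23 = t12 := fun hh => t_2 hh.symm
  have t_3' : ¬ t23 = t13 := fun hh => t_3 hh.symm
  set f : a.E → a.E := fun e => if e = x1 then g23 else if e = x2 then g13 else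
    if e = x3 then g12 else if e = p12 then g13 else if e = p13 then g12 else
    if e = p21 then g23 else if e = p23 then g12 else if e = p31 then g23 else
    if e = p32 then g13 else e with hf
  have fx1 : f x1 = g23 := by simp [hf]
  have fx2 : f x2 = g13 := by simp [hf, tw.2.1.symm]
  have fx3 : f x3 = g12 := by simp [hf, tw.2.2.1.symm, tw.2.2.2.symm]
  have f12 : f p12 = g13 := by
    simp [hf, gx r12.mem1 nx1 w_12' v1_12', gx r12.mem1 nx2 w_12' v2_12',
      gx r12.mem1 nx3 w_12' v3_12']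
  have f13 : f p13 = g12 := by
    simp [hf, gx r13.mem1 nx1 w_13' v1_13', gx r13.mem1 nx2 w_13' v2_13',
      gx r13.mem1 nx3 w_13' v3_13', gx r13.mem1 n12 v1_13' t_1']
  have f21 : f p21 = g23 := by
    simp [hf, gx r12.mem2 nx1 w_12' v1_12', gx r12.mem2 nx2 w_12' v2_12',
      gx r12.mem2 nx3 w_12' v3_12', gx t2.mem2 n12 h12' v2_12, gx t2.mem2 n13 h12' v2_13]
  have f23 : f p23 = g12 := by
    simp [hf, gx r23.mem1 nx1 w_23' v1_23', gx r23.mem1 nx2 w_23' v2_23',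
      gx r23.mem1 nx3 w_23' v3_23', gx t2.mem3 n12 h12' v2_12, gx t2.mem3 n13 h12' v2_13,
      gx r23.mem1 n21 v2_23' t_2']
  have f31 : f p31 = g23 := by
    simp [hf, gx r13.mem2 nx1 w_13' v1_13', gx r13.mem2 nx2 w_13' v2_13',
      gx r13.mem2 nx3 w_13' v3_13', gx t3.mem2 n12 h13' v3_12, gx t3.mem2 n13 h13' v3_13,
      gx t3.mem2 n21 h23' v3_12, gx t3.mem2 n23 h23' v3_23]
  have f32 : f p32 = g13 := by
    simp [hf, gx r23.mem2 nx1 w_23' v1_23', gx r23.mem2 nx2 w_23' v2_23',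
      gx r23.mem2 nx3 w_23' v3_23', gx t3.mem3 n12 h13' v3_12, gx t3.mem3 n13 h13' v3_13,
      gx t3.mem3 n21 h23' v3_12, gx t3.mem3 n23 h23' v3_23, gx r23.mem2 n31 v3_23' t_3']
  have fg12 : f g12 = g12 := by
    simp [hf, gx r12.mem3 nx1 w_12' v1_12', gx r12.mem3 nx2 w_12' v2_12',
      gx r12.mem3 nx3 w_12' v3_12', r12.2.2.1.symm, r12.2.2.2.symm,
      gx r12.mem3 n13 v1_12' t_1, gx r12.mem3 n23 v2_12' t_2, gx r12.mem3 n31 v3_12' t_1,
      gx r12.mem3 n32 v3_12' t_2]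
  have fg13 : f g13 = g13 := by
    simp [hf, gx r13.mem3 nx1 w_13' v1_13', gx r13.mem3 nx2 w_13' v2_13',
      gx r13.mem3 nx3 w_13' v3_13', r13.2.2.1.symm, r13.2.2.2.symm,
      gx r13.mem3 n12 v1_13' t_1', gx r13.mem3 n21 v2_13' t_1', gx r13.mem3 n23 v2_13' t_3,
      gx r13.mem3 n32 v3_13' t_3]
  have fg23 : f g23 = g23 := by
    simp [hf, gx r23.mem3 nx1 w_23' v1_23', gx r23.mem3 nx2 w_23' v2_23',
      gx r23.mem3 nx3 w_23' v3_23', r23.2.2.1.symm, r23.2.2.2.symm,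
      gx r23.mem3 n12 v1_23' t_2', gx r23.mem3 n13 v1_23' t_3', gx r23.mem3 n21 v2_23' t_2',
      gx r23.mem3 n31 v3_23' t_3']
  apply h.no_fold f _ (e := x1) (e' := g23) (gx r23.mem3 nx1 w_23' v1_23').symm
    (by rw [fx1, fg23])
  intro v
  by_cases hv : v = w
  · right; rw [hv, tw.sum, fx1, fx2, fx3, ← sg]; abel
  by_cases hv1 : v = v1
  · right; rw [hv1, t1.sum, fx1, f12, f13, ← sg]; abel
  by_cases hv2 : v = v2
  · right; rw [hv2, t2.sum, fx2, f21, f23, ← sg]; abel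
  by_cases hv3 : v = v3
  · right; rw [hv3, t3.sum, fx3, f31, f32, ← sg]; abel
  by_cases hv12 : v = t12
  · right; rw [hv12, r12.sum, f12, f21, fg12, ← sg]; abel
  by_cases hv13 : v = t13
  · right; rw [hv13, r13.sum, f13, f31, fg13, ← sg]; abel
  by_cases hv23 : v = t23
  · right; rw [hv23, r23.sum, f23, f32, fg23, ← sg]
  left
  intro e he
  simp [hf, gx he nx1 hv hv1, gx he nx2 hv hv2, gx he nx3 hv hv3, gx he n12 hv1 hv12,
    gx he n13 hv1 hv13, gx he n21 hv2 hv12, gx he n23 hv2 hv23, gx he n31 hv3 hv13,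
    gx he n32 hv3 hv23]

end Ctx

end Pool.Agent.CCO
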