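import Pool.Agent.CCO.Cubic1

set_option autoImplicit false

namespace Pool.Agent.CCO

open Finset

variable {a : FinGraph} {X : D a}

/-- The edges `p, q` at `w` lie in a 4-cycle. -/
def C4 (a : FinGraph) (w : a.V) (p q : a.E) : Prop :=
  ∃ (u v t : a.V) (e e' : a.E), u ≠ w ∧ v ≠ w ∧ t ≠ w ∧ u ≠ t ∧ v ≠ t ∧ p ∈ star a u ∧
    q ∈ star a v ∧ e ∈ star a u ∧ e ∈ star a t ∧ e' ∈ star a v ∧ e' ∈ star a t

theorem C4.symm {w : a.V} {p q : a.E} (h : C4 a w p q) : C4 a w q p := by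
  obtain ⟨u, v, t, e, e', h1, h2, h3, h4, h5, h6, h7, h8, h9, h10, h11⟩ := h
  exact ⟨v, u, t, e', e, h2, h1, h3, h5, h4, h7, h6, h10, h11, h8, h9⟩

theorem C4.map {w : a.V} {p q : a.E} (h : C4 a w p q) {σ : a.E → a.E} {g : a.V → a.V}
    (hb : Function.Bijective g) (hg : ∀ v e, σ e ∈ star a (g v) ↔ e ∈ star a v) :
    C4 a (g w) (σ p) (σ q) := by
  obtain ⟨u, v, t, e, e', h1, h2, h3, h4, h5, h6, h7, h8, h9, h10, h11⟩ := h
  exact ⟨g u, g v, g t, σ e, σ e', hb.1.ne h1, hb.1.ne h2, hb.1.ne h3, hb.1.ne h4, hb.1.ne h5,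
    (hg _ _).mpr h6, (hg _ _).mpr h7, (hg _ _).mpr h8, (hg _ _).mpr h9, (hg _ _).mpr h10,
    (hg _ _).mpr h11⟩

theorem C4.comap {w : a.V} {p q : a.E} {σ : a.E → a.E} {g : a.V → a.V}
    (h : C4 a (g w) (σ p) (σ q)) (hσ : Function.Bijective σ) (hb : Function.Bijective g)
    (hg : ∀ v e, σ e ∈ star a (g v) ↔ e ∈ star a v) : C4 a w p q := by
  obtain ⟨u, v, t, e, e', h1, h2, h3, h4, h5, h6, h7, h8, h9, h10, h11⟩ := h
  obtain ⟨u, rfl⟩ := hb.2 u
  obtain ⟨v, rfl⟩ := hb.2 v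
  obtain ⟨t, rfl⟩ := hb.2 t
  obtain ⟨e, rfl⟩ := hσ.2 e
  obtain ⟨e', rfl⟩ := hσ.2 e'
  rw [hg] at h6 h7 h8 h9 h10 h11
  exact ⟨u, v, t, e, e', fun h => h1 (h ▸ rfl), fun h => h2 (h ▸ rfl), fun h => h3 (h ▸ rfl),
    fun h => h4 (h ▸ rfl), fun h => h5 (h ▸ rfl), h6, h7, h8, h9, h10, h11⟩

/-- Junction assignments of the gadget `C2`. -/
def cX : Fin 4 → Fin 4 ⊕ Bool := ![Sum.inr false, Sum.inr false, Sum.inl 2, Sum.inl 2]

/-- Junction assignments of the gadget `C2`. -/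
def cY : Fin 4 → Fin 4 ⊕ Bool := ![Sum.inl 0, Sum.inl 0, Sum.inr true, Sum.inr true]

/-- Junction assignments of the gadget `C2`. -/
def cZ : Fin 4 → Fin 4 ⊕ Bool := ![Sum.inl 3, Sum.inl 1, Sum.inl 1, Sum.inl 3]

theorem cX_even : ∀ r, ∑ i, (if cX i = r then (1 : ZMod 2) else 0) = 0 := by decide

theorem cY_even : ∀ r, ∑ i, (if cY i = r then (1 : ZMod 2) else 0) = 0 := by decide

theorem cZ_even : ∀ r, ∑ i, (if cZ i = r then (1 : ZMod 2) else 0) = 0 := by decide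

namespace Ctx

/-- The gadget `C2`. -/
theorem gadget2 (h : Ctx a X) {w : a.V} {x y z : a.E} (tw : Tri a w x y z) :
    ∃ σ : Fin 4 → a.E → a.E, (∀ i, CC a a (σ i)) ∧ σ 0 y = σ 1 y ∧ σ 1 z = σ 2 z ∧
      σ 2 x = σ 3 x ∧ σ 3 z = σ 0 z ∧ ev a (σ 0 x) + ev a (σ 1 x) = X ∧
      ev a (σ 2 y) + ev a (σ 3 y) = X := by
  set q : Fin 4 → a.E → Fin 4 ⊕ Bool := fun i c => if c = x then cX i else
    if c = y then cY i else cZ i with hq
  have hqx : ∀ i, q i x = cX i := by intro i; simp [hq]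
  have hqy : ∀ i, q i y = cY i := by intro i; simp [hq, tw.2.1.symm]
  have hqz : ∀ i, q i z = cZ i := by intro i; simp [hq, tw.2.2.1.symm, tw.2.2.2.symm]
  have hconn : Conn (explode a w (Fin 4) ((Fin 4 × a.E) ⊕ Bool) (jq q))
      (Sum.inr (Sum.inr false)) (Sum.inr (Sum.inr true)) := by
    have e1 : jq q 0 x = Sum.inr false := by
      unfold jq; rw [hqx]; rfl
    have e2 : jq q 0 z = jq q 3 z := by
      unfold jq; rw [hqz, hqz]; rfl
    have e3 : jq q 3 y = Sum.inr true := by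
      unfold jq; rw [hqy]; rfl
    have p1 := h.conn_copy' w (jq q) 0 x z tw.mem1 tw.mem3 tw.2.2.1
    have p2 := h.conn_copy' w (jq q) 3 z y tw.mem3 tw.mem2 tw.2.2.2.symm
    rw [e1, e2] at p1
    rw [e3] at p2
    exact conn_trans p1 p2
  obtain ⟨σ, hσ, h1, h2⟩ := h.pattern w q (by
    intro c hc r
    rcases tw.cases hc with h1 | h1 | h1
    · rw [h1]; simp only [hqx]; exact cX_even r
    · rw [h1]; simp only [hqy]; exact cY_even r
    · rw [h1]; simp only [hqz]; exact cZ_even r) hconn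
  have r1 := h1 y tw.mem2 0
  have r2 := h1 z tw.mem3 1
  have r3 := h1 x tw.mem1 2
  have r4 := h1 z tw.mem3 3
  have r5 := h2 false
  have r6 := h2 true
  simp only [tw.sum] at r5 r6
  simp only [hqx, hqy, hqz, Fin.sum_univ_four] at r1 r2 r3 r4 r5 r6
  simp [cX, cY, cZ] at r1 r2 r3 r4 r5 r6
  exact ⟨σ, hσ, h.ev_inj (z2_eq r1), h.ev_inj (z2_eq r2), h.ev_inj (z2_eq r3),
    (h.ev_inj (z2_eq r4)).symm, r5, r6⟩

/-- The analysis of the gadget `C2`. -/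
theorem c2 (h : Ctx a X) (hs : ∀ e e', Par a e e' → e = e') {w : a.V} {x y z : a.E}
    (tw : Tri a w x y z) :
    (∃ ρ : a.E → a.E, CC a a ρ ∧ ρ x = y ∧ ρ y = x ∧ ρ z = z) ∨
    (C4 a w y z ∧ C4 a w x z) := by
  obtain ⟨σ, hσ, e0, e1, e2, e3, hX1, hX2⟩ := h.gadget2 tw
  choose g hgb hg using fun i => h.star_map hs (hσ i)
  have t : ∀ i, Tri a (g i w) (σ i x) (σ i y) (σ i z) := fun i => h.tri_map (hσ i) (hg i) tw
  have c : ∀ i, (star a (g i w)).card = 3 := fun i => (t i).card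
  have n01 : g 0 w ≠ g 1 w := by
    intro heq
    exact h.no_sum (t 0) (t 0).mem1 (by rw [heq]; exact (t 1).mem1) hX1
  have n23 : g 2 w ≠ g 3 w := by
    intro heq
    exact h.no_sum (t 2) (t 2).mem2 (by rw [heq]; exact (t 3).mem2) hX2
  have m01 : σ 0 y ∈ star a (g 1 w) := by rw [e0]; exact (t 1).mem2
  have m12 : σ 1 z ∈ star a (g 2 w) := by rw [e1]; exact (t 2).mem3
  have m23 : σ 2 x ∈ star a (g 3 w) := by rw [e2]; exact (t 3).mem1
  have m30 : σ 3 z ∈ star a (g 0 w) := by rw [e3]; exact (t 0).mem3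
  by_cases n12 : g 1 w = g 2 w
  · by_cases n03 : g 0 w = g 3 w
    · left
      have h1 : σ 1 y = σ 2 x := by
        rw [← e0]
        apply h.common_edge hs n01 (t 0).mem2 m01
        · rw [n03]; exact m23
        · rw [n12]; exact (t 2).mem1
      have h2 : σ 2 y = σ 1 x := by
        have h3 : σ 2 y ∈ star a (g 1 w) := by rw [n12]; exact (t 2).mem2
        rcases (t 1).cases h3 with h4 | h4 | h4
        · exact h4
        · rw [h1] at h4; exact absurd h4 (t 2).2.1.symm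
        · rw [e1] at h4; exact absurd h4 (t 2).2.2.2
      obtain ⟨τ, hτ, hτ1, hτ2⟩ := h.exists_inv (hσ 1)
      refine ⟨fun e => τ (σ 2 e), cc_comp hτ (hσ 2), ?_, ?_, ?_⟩
      · change τ (σ 2 x) = y
        rw [← h1, hτ1]
      · change τ (σ 2 y) = x
        rw [h2, hτ1]
      · change τ (σ 2 z) = z
        rw [← e1, hτ1]
    · exfalso
      have n13 : g 1 w ≠ g 3 w := by rw [n12]; exact n23
      exact h.no_triangle hs (c 0) n01 n03 n13 (t 0).mem2 m01 m30 (t 3).mem3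
        (by rw [n12]; exact (t 2).mem1) m23
  · by_cases n03 : g 0 w = g 3 w
    · exfalso
      have n02 : g 0 w ≠ g 2 w := by rw [n03]; exact n23.symm
      exact h.no_triangle hs (c 0) n01 n02 n12 (t 0).mem2 m01
        (by rw [n03]; exact m23) (t 2).mem1 (t 1).mem3 m12
    · right
      have n02 : g 0 w ≠ g 2 w := by
        intro heq
        have h1 : σ 0 y = σ 1 z := by
          apply h.common_edge hs n01 (t 0).mem2 m01
          · rw [heq]; exact m12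
          · exact (t 1).mem3
        rw [e0] at h1
        exact (t 1).2.2.2 h1
      have n13 : g 1 w ≠ g 3 w := by
        intro heq
        have h1 : σ 0 y = σ 3 z := by
          apply h.common_edge hs n01 (t 0).mem2 m01 m30
          rw [heq]; exact (t 3).mem3
        rw [e3] at h1
        exact (t 0).2.2.2 h1
      constructor
      · apply C4.comap (σ := σ 0) (g := g 0) _ (h.core _ (hσ 0)) (hgb 0) (hg 0)
        refine ⟨g 1 w, g 3 w, g 2 w, σ 1 z, σ 2 x, n01.symm, Ne.symm n03, n02.symm, n12,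
          n23.symm, m01, ?_, (t 1).mem3, m12, m23, (t 2).mem1⟩
        rw [← e3]; exact (t 3).mem3
      · apply C4.comap (σ := σ 2) (g := g 2) _ (h.core _ (hσ 2)) (hgb 2) (hg 2)
        refine ⟨g 3 w, g 1 w, g 0 w, σ 3 z, σ 0 y, n23.symm, n12, n02, Ne.symm n03,
          n01.symm, m23, ?_, (t 3).mem3, m30, m01, (t 0).mem2⟩
        rw [← e1]; exact (t 1).mem3

/-- `K_{2,3}` again. -/
theorem no_K23' (h : Ctx a X) (hs : ∀ e e', Par a e e' → e = e') {w u v1 v2 v3 : a.V}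
    {x1 x2 x3 f1 f2 f3 : a.E} (tw : Tri a w x1 x2 x3) (hwu : u ≠ w) (w1 : v1 ≠ w) (w2 : v2 ≠ w)
    (w3 : v3 ≠ w) (u1 : v1 ≠ u) (u2 : v2 ≠ u) (u3 : v3 ≠ u) (m1 : x1 ∈ star a v1)
    (m2 : x2 ∈ star a v2) (m3 : x3 ∈ star a v3) (k1 : f1 ∈ star a v1) (k2 : f2 ∈ star a v2)
    (k3 : f3 ∈ star a v3) (l1 : f1 ∈ star a u) (l2 : f2 ∈ star a u) (l3 : f3 ∈ star a u) :
    False := by
  have h12 : v1 ≠ v2 := by
    rintro rfl
    exact tw.2.1 (h.common_edge hs w1.symm tw.mem1 m1 tw.mem2 m2)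
  have h13 : v1 ≠ v3 := by
    rintro rfl
    exact tw.2.2.1 (h.common_edge hs w1.symm tw.mem1 m1 tw.mem3 m3)
  have h23 : v2 ≠ v3 := by
    rintro rfl
    exact tw.2.2.2 (h.common_edge hs w2.symm tw.mem2 m2 tw.mem3 m3)
  have c1 := h.cubic_nbr hs tw.card w1 tw.mem1 m1
  have c2 := h.cubic_nbr hs tw.card w2 tw.mem2 m2
  have c3 := h.cubic_nbr hs tw.card w3 tw.mem3 m3
  have cu := h.cubic_nbr hs c1 u1.symm k1 l1
  have nf : ∀ {v v' : a.V} {f : a.E}, f ∈ star a v → f ∈ star a u → v ≠ u → v ≠ v' → v' ≠ u →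
      f ∉ star a v' := by
    intro v v' f g1 g2 g3 g4 g5 g6
    rcases h.ends g3 g1 g2 g6 with g7 | g7
    · exact g4 g7.symm
    · exact g5 g7
  have d12 : f1 ≠ f2 := ne_of_notMem k1 (nf k2 l2 u2 h12.symm u1)
  have d13 : f1 ≠ f3 := ne_of_notMem k1 (nf k3 l3 u3 h13.symm u1)
  have d23 : f2 ≠ f3 := ne_of_notMem k2 (nf k3 l3 u3 h23.symm u2)
  have tu := tri_of_mem cu l1 l2 l3 d12 d13 d23
  have nx : ∀ {v : a.V} {x : a.E}, x ∈ star a w → x ∈ star a v → v ≠ w → v ≠ u →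
      x ∉ star a u := by
    intro v x g1 g2 g3 g4 g6
    rcases h.ends g3 g2 g1 g6 with g7 | g7
    · exact g4 g7.symm
    · exact hwu g7
  have x1f : x1 ≠ f1 := (ne_of_notMem l1 (nx tw.mem1 m1 w1 u1)).symm
  have x2f : x2 ≠ f2 := (ne_of_notMem l2 (nx tw.mem2 m2 w2 u2)).symm
  have x3f : x3 ≠ f3 := (ne_of_notMem l3 (nx tw.mem3 m3 w3 u3)).symm
  obtain ⟨g1, t1⟩ := exists_third c1 m1 k1 x1f
  obtain ⟨g2, t2⟩ := exists_third c2 m2 k2 x2f
  obtain ⟨g3, t3⟩ := exists_third c3 m3 k3 x3f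
  exact h.no_K23 tw tu t1 t2 t3 hwu.symm w1.symm w2.symm w3.symm u1.symm u2.symm u3.symm h12 h13
    h23

/-- Not all three pairs of edges at a cubic vertex lie in 4-cycles. -/
theorem no_three_C4 (h : Ctx a X) (hs : ∀ e e', Par a e e' → e = e') {w : a.V}
    {x1 x2 x3 : a.E} (tw : Tri a w x1 x2 x3) (c12 : C4 a w x1 x2) (c13 : C4 a w x1 x3)
    (c23 : C4 a w x2 x3) : False := by
  obtain ⟨v1, v2, t12, p12, p21, a1, a2, a3, a4, a5, a6, a7, a8, a9, a10, a11⟩ := c12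
  obtain ⟨v1', v3, t13, p13, p31, b1, b2, b3, b4, b5, b6, b7, b8, b9, b10, b11⟩ := c13
  obtain ⟨v2', v3', t23, p23, p32, d1, d2, d3, d4, d5, d6, d7, d8, d9, d10, d11⟩ := c23
  have e1 : v1' = v1 := by
    rcases h.ends a1 a6 tw.mem1 b6 with g | g
    · exact g
    · exact absurd g b1
  have e2 : v2' = v2 := by
    rcases h.ends a2 a7 tw.mem2 d6 with g | g
    · exact g
    · exact absurd g d1
  have e3 : v3' = v3 := by
    rcases h.ends b2 b7 tw.mem3 d7 with g | g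
    · exact g
    · exact absurd g d2
  subst e1 e2 e3
  have h12 : v1' ≠ v2' := by
    rintro rfl
    exact tw.2.1 (h.common_edge hs a1.symm tw.mem1 a6 tw.mem2 a7)
  have h13 : v1' ≠ v3' := by
    rintro rfl
    exact tw.2.2.1 (h.common_edge hs a1.symm tw.mem1 a6 tw.mem3 b7)
  have h23 : v2' ≠ v3' := by
    rintro rfl
    exact tw.2.2.2 (h.common_edge hs a2.symm tw.mem2 a7 tw.mem3 b7)
  have c1 := h.cubic_nbr hs tw.card a1 tw.mem1 a6
  have c2 := h.cubic_nbr hs tw.card a2 tw.mem2 a7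
  have c3 := h.cubic_nbr hs tw.card b2 tw.mem3 b7
  have k12 := h.cubic_nbr hs c1 a4.symm a8 a9
  have k13 := h.cubic_nbr hs c1 b4.symm b8 b9
  have k23 := h.cubic_nbr hs c2 d4.symm d8 d9
  -- the `t`s are not among the `v`s
  have z12 : t12 ≠ v3' := by
    rintro rfl
    exact h.no_triangle hs tw.card a1.symm b2.symm h13 tw.mem1 a6 tw.mem3 b7 a8 a9
  have z13 : t13 ≠ v2' := by
    rintro rfl
    exact h.no_triangle hs tw.card a1.symm a2.symm h12 tw.mem1 a6 tw.mem2 a7 b8 b9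
  have z23 : t23 ≠ v1' := by
    rintro rfl
    exact h.no_triangle hs tw.card a2.symm a1.symm h12.symm tw.mem2 a7 tw.mem1 a6 d8 d9
  by_cases q1 : t12 = t13
  · subst q1
    exact h.no_K23' hs tw a3 a1 a2 b2 a4 a5 b5 a6 a7 b7 a8 a10 b10 a9 a11 b11
  by_cases q2 : t12 = t23
  · subst q2
    exact h.no_K23' hs tw a3 a1 a2 b2 a4 a5 d5 a6 a7 b7 a8 a10 d10 a9 a11 d11
  by_cases q3 : t13 = t23
  · subst q3
    exact h.no_K23' hs tw b3 a1 a2 b2 b4 d4 b5 a6 a7 b7 b8 d8 b10 b9 d9 b11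
  -- the cube
  have nn : ∀ {s t r : a.V} {e : a.E}, s ≠ t → e ∈ star a s → e ∈ star a t → r ≠ s → r ≠ t →
      e ∉ star a r := by
    intro s t r e g1 g2 g3 g4 g5 g6
    rcases h.ends g1 g2 g3 g6 with g7 | g7
    · exact g4 g7
    · exact g5 g7
  have x1p12 : x1 ≠ p12 := (ne_of_notMem a9 (nn a1 a6 tw.mem1 a4.symm a3)).symm
  have x1p13 : x1 ≠ p13 := (ne_of_notMem b9 (nn a1 a6 tw.mem1 b4.symm b3)).symm
  have p12p13 : p12 ≠ p13 := ne_of_notMem a9 (nn b4 b8 b9 a4.symm q1)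
  have x2p21 : x2 ≠ p21 := (ne_of_notMem a11 (nn a2 a7 tw.mem2 a5.symm a3)).symm
  have x2p23 : x2 ≠ p23 := (ne_of_notMem d9 (nn a2 a7 tw.mem2 d4.symm d3)).symm
  have p21p23 : p21 ≠ p23 := ne_of_notMem a11 (nn d4 d8 d9 a5.symm q2)
  have x3p31 : x3 ≠ p31 := (ne_of_notMem b11 (nn b2 b7 tw.mem3 b5.symm b3)).symm
  have x3p32 : x3 ≠ p32 := (ne_of_notMem d11 (nn b2 b7 tw.mem3 d5.symm d3)).symm
  have p31p32 : p31 ≠ p32 := ne_of_notMem b11 (nn d5 d10 d11 b5.symm q3)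
  have p12p21 : p12 ≠ p21 := ne_of_notMem a8 (nn a5 a10 a11 h12 a4)
  have p13p31 : p13 ≠ p31 := ne_of_notMem b8 (nn b5 b10 b11 h13 b4)
  have p23p32 : p23 ≠ p32 := ne_of_notMem d8 (nn d5 d10 d11 h23 d4)
  have t1 := tri_of_mem c1 a6 a8 b8 x1p12 x1p13 p12p13
  have t2 := tri_of_mem c2 a7 a10 d8 x2p21 x2p23 p21p23
  have t3 := tri_of_mem c3 b7 b10 d10 x3p31 x3p32 p31p32
  obtain ⟨g12, r12⟩ := exists_third k12 a9 a11 p12p21
  obtain ⟨g13, r13⟩ := exists_third k13 b9 b11 p13p31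
  obtain ⟨g23, r23⟩ := exists_third k23 d9 d11 p23p32
  apply h.no_cube tw t1 t2 t3 r12 r13 r23
  simp only [List.nodup_cons, List.mem_cons, List.not_mem_nil, or_false, not_or, not_false_iff,
    List.nodup_nil, and_true]
  exact ⟨⟨a1.symm, a2.symm, b2.symm, a3.symm, b3.symm, d3.symm⟩, ⟨h12, h13, a4, b4, z23.symm⟩,
    ⟨h23, a5, z13.symm, d4⟩, ⟨z12.symm, b5, d5⟩, ⟨q1, q2⟩, q3⟩

/-- A cc map fixing the star of `w` setwise fixes `w`. -/
theorem fix_w (h : Ctx a X) (hs : ∀ e e', Par a e e' → e = e') {w : a.V} {g : a.V → a.V}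
    {e e' : a.E} (hne : e ≠ e') (h1 : e ∈ star a w) (h2 : e' ∈ star a w)
    (h3 : e ∈ star a (g w)) (h4 : e' ∈ star a (g w)) : g w = w := by
  by_contra hgw
  exact hne (h.common_edge hs hgw h3 h1 h4 h2)

/-- No pair of edges at a cubic vertex lies in a 4-cycle. -/
theorem no_C4 (h : Ctx a X) (hs : ∀ e e', Par a e e' → e = e') {w : a.V} {x y z : a.E}
    (tw : Tri a w x y z) : ¬ C4 a w x y := by
  intro hxy
  have hxz : C4 a w x z := by
    rcases h.c2 hs tw.rot with ⟨ρ, hρ, h1, h2, h3⟩ | ⟨h1, h2⟩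
    · obtain ⟨g, hgb, hg⟩ := h.star_map hs hρ
      have hgw : g w = w := by
        apply h.fix_w hs (e := x) (e' := z) tw.2.2.1 tw.mem1 tw.mem3
        · have := (hg w x).mpr tw.mem1
          rwa [h3] at this
        · have := (hg w y).mpr tw.mem2
          rwa [h1] at this
      have h4 := hxy.map hgb hg
      rw [hgw, h3, h1] at h4
      exact h4
    · exact h1.symm
  have hyz : C4 a w y z := by
    rcases h.c2 hs tw.swap23 with ⟨ρ, hρ, h1, h2, h3⟩ | ⟨h1, h2⟩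
    · obtain ⟨g, hgb, hg⟩ := h.star_map hs hρ
      have hgw : g w = w := by
        apply h.fix_w hs (e := y) (e' := z) tw.2.2.2 tw.mem2 tw.mem3
        · have := (hg w y).mpr tw.mem2
          rwa [h3] at this
        · have := (hg w x).mpr tw.mem1
          rwa [h1] at this
      have h4 := hxy.map hgb hg
      rw [hgw, h3, h1] at h4
      exact h4.symm
    · exact h1.symm
  exact h.no_three_C4 hs tw hxy hxz hyz

/-- The transposition at a cubic vertex. -/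
theorem trans (h : Ctx a X) (hs : ∀ e e', Par a e e' → e = e') {w : a.V} {x y z : a.E}
    (tw : Tri a w x y z) : ∃ ρ : a.E → a.E, CC a a ρ ∧ ρ x = y ∧ ρ y = x ∧ ρ z = z := by
  rcases h.c2 hs tw with h1 | ⟨h1, _⟩
  · exact h1
  · exact absurd h1 (h.no_C4 hs tw.rot)

/-- There are no 4-cycles through a cubic vertex. -/
theorem no_four (h : Ctx a X) (hs : ∀ e e', Par a e e' → e = e') {u1 u2 u3 u4 : a.V}
    (hc : (star a u1).card = 3) (h12 : u1 ≠ u2) (h23 : u2 ≠ u3) (h34 : u3 ≠ u4) (h41 : u4 ≠ u1)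
    (h13 : u1 ≠ u3) (h24 : u2 ≠ u4) {e12 e23 e34 e41 : a.E} (m1 : e12 ∈ star a u1)
    (m2 : e12 ∈ star a u2) (m3 : e23 ∈ star a u2) (m4 : e23 ∈ star a u3) (m5 : e34 ∈ star a u3)
    (m6 : e34 ∈ star a u4) (m7 : e41 ∈ star a u4) (m8 : e41 ∈ star a u1) : False := by
  have hne : e12 ≠ e41 := by
    rintro rfl
    rcases h.ends h12 m1 m2 m7 with g | g
    · exact h41 g
    · exact h24 g.symm
  obtain ⟨z, tz⟩ := exists_third hc m1 m8 hne
  exact h.no_C4 hs tz ⟨u2, u4, u3, e23, e34, h12.symm, h41, h13.symm, h23, h34.symm, m2, m7, m3,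
    m4, m6, m5⟩

end Ctx

end Pool.Agent.CCO
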