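import Pool.Agent.CCO.Cubic2

set_option autoImplicit false

namespace Pool.Agent.CCO

open Finset

variable {a : FinGraph} {X : D a}

/-- Closed walks of length five in a graph of girth at least five. -/
structure Cyc5 (a : FinGraph) (u0 u1 u2 u3 u4 : a.V) (e0 e1 e2 e3 e4 : a.E) : Prop where
  c0 : (star a u0).card = 3
  c1 : (star a u1).card = 3
  c2 : (star a u2).card = 3
  c3 : (star a u3).card = 3
  c4 : (star a u4).card = 3
  m00 : e0 ∈ star a u0
  m01 : e0 ∈ star a u1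
  m11 : e1 ∈ star a u1
  m12 : e1 ∈ star a u2
  m22 : e2 ∈ star a u2
  m23 : e2 ∈ star a u3
  m33 : e3 ∈ star a u3
  m34 : e3 ∈ star a u4
  m44 : e4 ∈ star a u4
  m40 : e4 ∈ star a u0
  n01 : e0 ≠ e1
  n12 : e1 ≠ e2
  n23 : e2 ≠ e3
  n34 : e3 ≠ e4
  n40 : e4 ≠ e0

namespace Cyc5

variable {u0 u1 u2 u3 u4 : a.V} {e0 e1 e2 e3 e4 : a.E}

theorem rot (c : Cyc5 a u0 u1 u2 u3 u4 e0 e1 e2 e3 e4) :
    Cyc5 a u1 u2 u3 u4 u0 e1 e2 e3 e4 e0 :=
  ⟨c.c1, c.c2, c.c3, c.c4, c.c0, c.m11, c.m12, c.m22, c.m23, c.m33, c.m34, c.m44, c.m40, c.m00,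
    c.m01, c.n12, c.n23, c.n34, c.n40, c.n01⟩

theorem k1 (_c : Cyc5 a u0 u1 u2 u3 u4 e0 e1 e2 e3 e4) (_h : Ctx a X)
    (_hs : ∀ e e', Par a e e' → e = e') (m0 : u0 ≠ u1) (m1 : u1 = u2) (m2 : u2 = u3)
    (m3 : u3 = u4) (m4 : u4 = u0) : False :=
  m0 (m1.trans (m2.trans (m3.trans m4))).symm

theorem k2 (c : Cyc5 a u0 u1 u2 u3 u4 e0 e1 e2 e3 e4) (h : Ctx a X)
    (hs : ∀ e e', Par a e e' → e = e') (m0 : u0 ≠ u1) (_m1 : u1 ≠ u2) (m2 : u2 = u3)
    (m3 : u3 = u4) (m4 : u4 = u0) : False := by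
  apply c.n01
  apply h.common_edge hs m0 c.m00 c.m01 _ c.m11
  rw [← m4, ← m3, ← m2]; exact c.m12

theorem k3a (c : Cyc5 a u0 u1 u2 u3 u4 e0 e1 e2 e3 e4) (h : Ctx a X)
    (hs : ∀ e e', Par a e e' → e = e') (m0 : u0 ≠ u1) (m1 : u1 ≠ u2) (m2 : u2 ≠ u3)
    (m3 : u3 = u4) (m4 : u4 = u0) : False := by
  have h30 : u3 = u0 := m3.trans m4
  exact h.no_triangle hs c.c0 m0 (by rw [← h30]; exact m2.symm) m1 c.m00 c.m01
    (by rw [← h30]; exact c.m23) c.m22 c.m11 c.m12

theorem k3b (c : Cyc5 a u0 u1 u2 u3 u4 e0 e1 e2 e3 e4) (h : Ctx a X)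
    (hs : ∀ e e', Par a e e' → e = e') (m0 : u0 ≠ u1) (m1 : u1 ≠ u2) (m2 : u2 = u3)
    (m3 : u3 ≠ u4) (m4 : u4 = u0) : False := by
  exact h.no_triangle hs c.c0 m0 (by rw [← m4, m2]; exact m3.symm) m1 c.m00 c.m01
    (by rw [← m4]; exact c.m34) (by rw [m2]; exact c.m33) c.m11 c.m12

theorem k4 (c : Cyc5 a u0 u1 u2 u3 u4 e0 e1 e2 e3 e4) (h : Ctx a X)
    (hs : ∀ e e', Par a e e' → e = e') (m0 : u0 ≠ u1) (m1 : u1 ≠ u2) (m2 : u2 ≠ u3)
    (m3 : u3 ≠ u4) (m4 : u4 = u0) : False := by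
  have h02 : u0 ≠ u2 := by
    intro heq
    exact c.n01 (h.common_edge hs m0 c.m00 c.m01 (by rw [heq]; exact c.m12) c.m11)
  have h13 : u1 ≠ u3 := by
    intro heq
    exact c.n12 (h.common_edge hs m1 c.m11 c.m12 (by rw [heq]; exact c.m23) c.m22)
  exact h.no_four hs c.c0 m0 m1 m2 (by rw [← m4]; exact m3) h02 h13 c.m00 c.m01 c.m11 c.m12
    c.m22 c.m23 c.m33 (by rw [← m4]; exact c.m34)

end Cyc5

/-- The possible patterns of moves along a 5-cycle. -/
def ok (b0 b1 b2 b3 b4 : Bool) : Bool :=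
  (!b0 && !b1 && !b2 && !b3 && !b4) || (b0 && b1 && b2 && b3 && b4) ||
  (b0 && !b1 && b2 && !b3 && !b4) || (b0 && !b1 && !b2 && b3 && !b4) ||
  (!b0 && b1 && !b2 && b3 && !b4) || (!b0 && b1 && !b2 && !b3 && b4) ||
  (!b0 && !b1 && b2 && !b3 && b4)

theorem Cyc5.five {u0 u1 u2 u3 u4 : a.V} {e0 e1 e2 e3 e4 : a.E}
    (c : Cyc5 a u0 u1 u2 u3 u4 e0 e1 e2 e3 e4) (h : Ctx a X)
    (hs : ∀ e e', Par a e e' → e = e') :
    ok (decide (u0 ≠ u1)) (decide (u1 ≠ u2)) (decide (u2 ≠ u3)) (decide (u3 ≠ u4))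
      (decide (u4 ≠ u0)) = true := by
  cases m0 : decide (u0 ≠ u1) <;> cases m1 : decide (u1 ≠ u2) <;>
    cases m2 : decide (u2 ≠ u3) <;> cases m3 : decide (u3 ≠ u4) <;>
    cases m4 : decide (u4 ≠ u0)
  all_goals simp only [decide_eq_false_iff_not, decide_eq_true_eq, ne_eq, not_not] at m0 m1 m2 m3 m4
  all_goals first
    | rfl
    | exact (c.k1 h hs m0 m1 m2 m3 m4).elim
    | exact (c.rot.k1 h hs m1 m2 m3 m4 m0).elim
    | exact (c.rot.rot.k1 h hs m2 m3 m4 m0 m1).elim
    | exact (c.rot.rot.rot.k1 h hs m3 m4 m0 m1 m2).elim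
    | exact (c.rot.rot.rot.rot.k1 h hs m4 m0 m1 m2 m3).elim
    | exact (c.k2 h hs m0 m1 m2 m3 m4).elim
    | exact (c.rot.k2 h hs m1 m2 m3 m4 m0).elim
    | exact (c.rot.rot.k2 h hs m2 m3 m4 m0 m1).elim
    | exact (c.rot.rot.rot.k2 h hs m3 m4 m0 m1 m2).elim
    | exact (c.rot.rot.rot.rot.k2 h hs m4 m0 m1 m2 m3).elim
    | exact (c.k3a h hs m0 m1 m2 m3 m4).elim
    | exact (c.rot.k3a h hs m1 m2 m3 m4 m0).elim
    | exact (c.rot.rot.k3a h hs m2 m3 m4 m0 m1).elim
    | exact (c.rot.rot.rot.k3a h hs m3 m4 m0 m1 m2).elim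
    | exact (c.rot.rot.rot.rot.k3a h hs m4 m0 m1 m2 m3).elim
    | exact (c.k3b h hs m0 m1 m2 m3 m4).elim
    | exact (c.rot.k3b h hs m1 m2 m3 m4 m0).elim
    | exact (c.rot.rot.k3b h hs m2 m3 m4 m0 m1).elim
    | exact (c.rot.rot.rot.k3b h hs m3 m4 m0 m1 m2).elim
    | exact (c.rot.rot.rot.rot.k3b h hs m4 m0 m1 m2 m3).elim
    | exact (c.k4 h hs m0 m1 m2 m3 m4).elim
    | exact (c.rot.k4 h hs m1 m2 m3 m4 m0).elim
    | exact (c.rot.rot.k4 h hs m2 m3 m4 m0 m1).elim
    | exact (c.rot.rot.rot.k4 h hs m3 m4 m0 m1 m2).elim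
    | exact (c.rot.rot.rot.rot.k4 h hs m4 m0 m1 m2 m3).elim

/-- The possible patterns of moves in the Petersen gadget. -/
def pat (a b c d e f g h k l : Bool) : Bool :=
  (!a && !k && !e) || (!b && !l && !f) ||
  (a && !b && !c && d && !e && !f && !g && !h && !k && l) ||
  (!a && b && !c && !d && !e && !f && g && !h && k && !l) ||
  (!a && !b && c && !d && !e && f && !g && !h && k && !l) ||
  (!a && !b && !c && !d && e && !f && !g && h && !k && l) ||
  (a && b && c && d && e && f && g && h && k && l)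

theorem pat_aux : ∀ a b c d e f g h k l : Bool,
    (!(ok a b l g h) || !(ok a b c d k) || !(ok k e f g h) || !(ok c d e f l) ||
      pat a b c d e f g h k l) = true := by
  decide

/-- The patterns of moves in the Petersen gadget. -/
theorem patterns (a b c d e f g h k l : Bool) (h1 : ok a b l g h = true)
    (h2 : ok a b c d k = true) (h3 : ok k e f g h = true) (h4 : ok c d e f l = true) :
    pat a b c d e f g h k l = true := by
  have := pat_aux a b c d e f g h k l
  rw [h1, h2, h3, h4] at this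
  simpa using this

/-- Five labelled stars at the same vertex, around a 5-cycle. -/
theorem five_stars {v : a.V} {x0 y0 z0 x1 y1 z1 x2 y2 z2 x3 y3 z3 x4 y4 z4 : a.E}
    (t0 : Tri a v x0 y0 z0) (t1 : Tri a v x1 y1 z1) (t2 : Tri a v x2 y2 z2)
    (t3 : Tri a v x3 y3 z3) (t4 : Tri a v x4 y4 z4) (h01 : z0 = z1) (h12 : x1 = x2)
    (h23 : y2 = y3) (h34 : x3 = x4) (h40 : y4 = y0) (k1 : x0 = y1) (k3 : x0 = z3) : False := by
  have e1 : y0 = x1 := by
    rcases t1.cases t0.mem2 with g | g | g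
    · exact g
    · rw [← k1] at g; exact absurd g.symm t0.2.1
    · rw [← h01] at g; exact absurd g t0.2.2.2
  rcases t3.cases t0.mem2 with g | g | g
  · -- `y0 = x3`
    apply t4.2.1
    rw [h40, g, h34]
  · apply t2.2.1
    rw [h23, ← g, e1, h12]
  · rw [← k3] at g; exact t0.2.1 g.symm

namespace Ctx

/-- There is no cubic vertex. -/
theorem no_cubic (h : Ctx a X) (hs : ∀ e e', Par a e e' → e = e') {w : a.V}
    (hc : (star a w).card = 3) : False := by
  obtain ⟨x, y, z, hxy, hxz, hyz, hst⟩ := card_eq_three.mp hc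
  have tw : Tri a w x y z := ⟨hst, hxy, hxz, hyz⟩
  obtain ⟨σ, hσ, hA, hB, ek, el, hX, _⟩ := h.pet w {x} {y} z
    (singleton_subset_iff.mpr tw.mem1) (singleton_subset_iff.mpr tw.mem2)
    (by rw [disjoint_singleton]; exact hxy) tw.mem3 (by rw [mem_singleton]; exact hxz.symm)
    (by rw [mem_singleton]; exact hyz.symm) (by
      intro c hc
      rcases tw.cases hc with g | g | g
      · left; rw [g]; exact mem_singleton_self x
      · right; left; rw [g]; exact mem_singleton_self y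
      · right; right; exact g) (singleton_nonempty x) (singleton_nonempty y)
  obtain ⟨ea, ec, ee, eg⟩ := hA x (mem_singleton_self x)
  obtain ⟨eb, ed, ef, eh⟩ := hB y (mem_singleton_self y)
  choose g hgb hg using fun i => h.star_map hs (hσ i)
  have t : ∀ i, Tri a (g i w) (σ i x) (σ i y) (σ i z) := fun i => h.tri_map (hσ i) (hg i) tw
  have c : ∀ i, (star a (g i w)).card = 3 := fun i => (t i).card
  have n15 : g 1 w ≠ g 5 w := by
    intro heq
    exact h.no_sum (t 1) (t 1).mem3 (by rw [heq]; exact (t 5).mem3) hX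
  -- memberships
  have ma : σ 0 x ∈ star a (g 1 w) := by rw [ea]; exact (t 1).mem1
  have mb : σ 1 y ∈ star a (g 2 w) := by rw [eb]; exact (t 2).mem2
  have mc : σ 2 x ∈ star a (g 3 w) := by rw [ec]; exact (t 3).mem1
  have md : σ 3 y ∈ star a (g 4 w) := by rw [ed]; exact (t 4).mem2
  have me : σ 4 x ∈ star a (g 5 w) := by rw [ee]; exact (t 5).mem1
  have mf : σ 5 y ∈ star a (g 6 w) := by rw [ef]; exact (t 6).mem2
  have mg : σ 6 x ∈ star a (g 7 w) := by rw [eg]; exact (t 7).mem1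
  have mh : σ 7 y ∈ star a (g 0 w) := by rw [eh]; exact (t 0).mem2
  have mk : σ 0 z ∈ star a (g 4 w) := by rw [ek]; exact (t 4).mem3
  have ml : σ 2 z ∈ star a (g 6 w) := by rw [el]; exact (t 6).mem3
  have ml' : σ 6 z ∈ star a (g 2 w) := by rw [← el]; exact (t 2).mem3
  -- the four 5-cycles
  have C1 : Cyc5 a (g 0 w) (g 1 w) (g 2 w) (g 6 w) (g 7 w) (σ 0 x) (σ 1 y) (σ 2 z) (σ 6 x)
      (σ 7 y) := ⟨c 0, c 1, c 2, c 6, c 7, (t 0).mem1, ma, (t 1).mem2, mb, (t 2).mem3, ml,
    (t 6).mem1, mg, (t 7).mem2, mh, by rw [ea]; exact (t 1).2.1, by rw [eb]; exact (t 2).2.2.2,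
    by rw [el]; exact (t 6).2.2.1.symm, by rw [eg]; exact (t 7).2.1,
    by rw [eh]; exact (t 0).2.1.symm⟩
  have C2 : Cyc5 a (g 0 w) (g 1 w) (g 2 w) (g 3 w) (g 4 w) (σ 0 x) (σ 1 y) (σ 2 x) (σ 3 y)
      (σ 4 z) := ⟨c 0, c 1, c 2, c 3, c 4, (t 0).mem1, ma, (t 1).mem2, mb, (t 2).mem1, mc,
    (t 3).mem2, md, (t 4).mem3, by rw [← ek]; exact (t 0).mem3, by rw [ea]; exact (t 1).2.1,
    by rw [eb]; exact (t 2).2.1.symm, by rw [ec]; exact (t 3).2.1,
    by rw [ed]; exact (t 4).2.2.2, by rw [← ek]; exact (t 0).2.2.1.symm⟩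
  have C3 : Cyc5 a (g 0 w) (g 4 w) (g 5 w) (g 6 w) (g 7 w) (σ 0 z) (σ 4 x) (σ 5 y) (σ 6 x)
      (σ 7 y) := ⟨c 0, c 4, c 5, c 6, c 7, (t 0).mem3, mk, (t 4).mem1, me, (t 5).mem2, mf,
    (t 6).mem1, mg, (t 7).mem2, mh, by rw [ek]; exact (t 4).2.2.1.symm,
    by rw [ee]; exact (t 5).2.1, by rw [ef]; exact (t 6).2.1.symm,
    by rw [eg]; exact (t 7).2.1, by rw [eh]; exact (t 0).2.2.2⟩
  have C4' : Cyc5 a (g 2 w) (g 3 w) (g 4 w) (g 5 w) (g 6 w) (σ 2 x) (σ 3 y) (σ 4 x) (σ 5 y)
      (σ 6 z) := ⟨c 2, c 3, c 4, c 5, c 6, (t 2).mem1, mc, (t 3).mem2, md, (t 4).mem1, me,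
    (t 5).mem2, mf, (t 6).mem3, ml', by rw [ec]; exact (t 3).2.1,
    by rw [ed]; exact (t 4).2.1.symm, by rw [ee]; exact (t 5).2.1,
    by rw [ef]; exact (t 6).2.2.2, by rw [← el]; exact (t 2).2.2.1.symm⟩
  have f1 := C1.five h hs
  have f2 := C2.five h hs
  have f3 := C3.five h hs
  have f4 := C4'.five h hs
  have hk : decide (g 4 w ≠ g 0 w) = decide (g 0 w ≠ g 4 w) := by
    rw [decide_eq_decide]; exact ne_comm
  have hl : decide (g 6 w ≠ g 2 w) = decide (g 2 w ≠ g 6 w) := by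
    rw [decide_eq_decide]; exact ne_comm
  rw [hk] at f2
  rw [hl] at f4
  have hp := patterns _ _ _ _ _ _ _ _ _ _ f1 f2 f3 f4
  unfold pat at hp
  simp only [Bool.or_eq_true, Bool.and_eq_true, Bool.not_eq_true', decide_eq_true_eq,
    decide_eq_false_iff_not, ne_eq, not_not] at hp
  rcases hp with ((((((⟨⟨pa, pk⟩, pe⟩ | ⟨⟨pb, pl⟩, pf⟩) |
    ⟨⟨⟨⟨⟨⟨⟨⟨⟨pa, pb⟩, pc⟩, pd⟩, pe⟩, pf⟩, pg⟩, ph⟩, pk⟩, pl⟩) |
    ⟨⟨⟨⟨⟨⟨⟨⟨⟨pa, pb⟩, pc⟩, pd⟩, pe⟩, pf⟩, pg⟩, ph⟩, pk⟩, pl⟩) |
    ⟨⟨⟨⟨⟨⟨⟨⟨⟨pa, pb⟩, pc⟩, pd⟩, pe⟩, pf⟩, pg⟩, ph⟩, pk⟩, pl⟩) |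
    ⟨⟨⟨⟨⟨⟨⟨⟨⟨pa, pb⟩, pc⟩, pd⟩, pe⟩, pf⟩, pg⟩, ph⟩, pk⟩, pl⟩) |
    ⟨⟨⟨⟨⟨⟨⟨⟨⟨pa, pb⟩, pc⟩, pd⟩, pe⟩, pf⟩, pg⟩, ph⟩, pk⟩, pl⟩)
  · exact n15 (pa.symm.trans (pk.trans pe))
  · exact n15 (pb.trans (pl.trans pf.symm))
  · -- `{a, d, l}`
    have h4 : g 4 w = g 0 w := pk.symm
    have h5 : g 5 w = g 0 w := pe.symm.trans h4
    have h6 : g 6 w = g 0 w := pf.symm.trans h5
    have h7 : g 7 w = g 0 w := ph
    have h2 : g 2 w = g 1 w := pb.symm
    have h3 : g 3 w = g 1 w := pc.symm.trans h2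
    have z1 : σ 0 x = σ 4 y := by
      rw [← ed]
      exact h.common_edge hs pa (t 0).mem1 ma (by rw [← h4]; exact md)
        (by rw [← h3]; exact (t 3).mem2)
    have z2 : σ 0 x = σ 6 z := by
      rw [← el]
      exact h.common_edge hs pa (t 0).mem1 ma (by rw [← h6]; exact ml)
        (by rw [← h2]; exact (t 2).mem3)
    exact five_stars (t 0) (h4 ▸ t 4) (h5 ▸ t 5) (h6 ▸ t 6) (h7 ▸ t 7) ek ee ef eg eh z1 z2
  · -- `{b, g, k}`
    have h3 : g 3 w = g 2 w := pc.symm
    have h4 : g 4 w = g 2 w := pd.symm.trans h3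
    have h5 : g 5 w = g 2 w := pe.symm.trans h4
    have h6 : g 6 w = g 2 w := pl.symm
    have h1 : g 1 w = g 0 w := pa.symm
    have h7 : g 7 w = g 0 w := ph
    have hne : g 0 w ≠ g 2 w := by rw [← h1]; exact pb
    have z1 : σ 6 x = σ 2 y := by
      rw [← eb]
      exact h.common_edge hs hne (by rw [← h7]; exact mg) (by rw [← h6]; exact (t 6).mem1)
        (by rw [← h1]; exact (t 1).mem2) mb
    have z2 : σ 6 x = σ 4 z := by
      rw [← ek]
      exact h.common_edge hs hne (by rw [← h7]; exact mg) (by rw [← h6]; exact (t 6).mem1)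
        (t 0).mem3 (by rw [← h4]; exact mk)
    exact five_stars (h6 ▸ t 6) (t 2) (h3 ▸ t 3) (h4 ▸ t 4) (h5 ▸ t 5) el.symm ec ed ee ef z1 z2
  · -- `{c, f, k}`
    have h1 : g 1 w = g 0 w := pa.symm
    have h2 : g 2 w = g 0 w := pb.symm.trans h1
    have h6 : g 6 w = g 0 w := pl.symm.trans h2
    have h7 : g 7 w = g 0 w := ph
    have h4 : g 4 w = g 3 w := pd.symm
    have h5 : g 5 w = g 3 w := pe.symm.trans h4
    have hne : g 0 w ≠ g 3 w := by rw [← h2]; exact pc
    have z1 : σ 2 x = σ 6 y := by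
      rw [← ef]
      exact h.common_edge hs hne (by rw [← h2]; exact (t 2).mem1) mc
        (by rw [← h6]; exact mf) (by rw [← h5]; exact (t 5).mem2)
    have z2 : σ 2 x = σ 0 z := by
      exact h.common_edge hs hne (by rw [← h2]; exact (t 2).mem1) mc
        (t 0).mem3 (by rw [← h4]; exact mk)
    exact five_stars (h2 ▸ t 2) (h6 ▸ t 6) (h7 ▸ t 7) (t 0) (h1 ▸ t 1) el eg eh ea eb z1 z2
  · -- `{e, h, l}`
    have h1 : g 1 w = g 0 w := pa.symm
    have h2 : g 2 w = g 0 w := pb.symm.trans h1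
    have h3 : g 3 w = g 0 w := pc.symm.trans h2
    have h4 : g 4 w = g 0 w := pk.symm
    have h6 : g 6 w = g 5 w := pf.symm
    have h7 : g 7 w = g 5 w := pg.symm.trans h6
    have hne : g 0 w ≠ g 5 w := by rw [← h4]; exact pe
    have z1 : σ 4 x = σ 0 y := by
      rw [← eh]
      exact h.common_edge hs hne (by rw [← h4]; exact (t 4).mem1) me mh
        (by rw [← h7]; exact (t 7).mem2)
    have z2 : σ 4 x = σ 2 z := by
      exact h.common_edge hs hne (by rw [← h4]; exact (t 4).mem1) me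
        (by rw [← h2]; exact (t 2).mem3) (by rw [← h6]; exact ml)
    exact five_stars (h4 ▸ t 4) (t 0) (h1 ▸ t 1) (h2 ▸ t 2) (h3 ▸ t 3) ek.symm ea eb ec ed z1 z2
  · -- all moves
    obtain ⟨ρ, hρ, r1, r2, r3⟩ := h.trans hs (t 1).rot
    obtain ⟨gr, hgrb, hgr⟩ := h.star_map hs hρ
    have hinj := h.cc_inj hρ
    have gr1 : gr (g 1 w) = g 1 w := by
      apply h.fix_w hs (e := σ 1 z) (e' := σ 1 y) (t 1).2.2.2.symm (t 1).mem3 (t 1).mem2
      · have := (hgr (g 1 w) (σ 1 y)).mpr (t 1).mem2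
        rwa [r1] at this
      · have := (hgr (g 1 w) (σ 1 z)).mpr (t 1).mem3
        rwa [r2] at this
    have hx0 : ρ (σ 0 x) = σ 0 x := by rw [ea]; exact r3
    have gr0 : gr (g 0 w) = g 0 w := by
      have h1 := (hgr (g 0 w) (σ 0 x)).mpr (t 0).mem1
      rw [hx0] at h1
      rcases h.ends pa (t 0).mem1 ma h1 with h2 | h2
      · exact h2
      · rw [← gr1] at h2
        exact absurd (hgrb.1 h2) pa
    -- the outer end of `σ 1 z`
    have hp1 : σ 1 z ∈ star a (gr (g 2 w)) := by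
      have := (hgr (g 2 w) (σ 1 y)).mpr mb
      rwa [r1] at this
    have hp2 : gr (g 2 w) ≠ g 1 w := by
      rw [← gr1]
      exact fun hh => pb (hgrb.1 hh).symm
    have hpc := h.cubic_nbr hs (c 1) hp2 (t 1).mem3 hp1
    have key : ∃ m s r, s ∈ star a (g 4 w) ∧ s ∈ star a m ∧ m ≠ g 4 w ∧ s ≠ σ 4 z ∧
        r ∈ star a m ∧ r ∈ star a (gr (g 2 w)) ∧ m ≠ gr (g 2 w) := by
      have h1 : ρ (σ 0 y) ∈ star a (g 0 w) := by
        have := (hgr (g 0 w) (σ 0 y)).mpr (t 0).mem2
        rwa [gr0] at this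
      have h1z : ρ (σ 0 z) ∈ star a (g 0 w) := by
        have := (hgr (g 0 w) (σ 0 z)).mpr (t 0).mem3
        rwa [gr0] at this
      rcases (t 0).cases h1 with h2 | h2 | h2
      · rw [← hx0] at h2
        exact absurd (hinj h2).symm (t 0).2.1
      · -- `ρ` fixes `σ 0 y` and `σ 0 z`
        have h3 : ρ (σ 0 z) = σ 0 z := by
          rcases (t 0).cases h1z with h4 | h4 | h4
          · rw [← hx0] at h4
            exact absurd (hinj h4).symm (t 0).2.2.1
          · rw [← h2] at h4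
            exact absurd (hinj h4).symm (t 0).2.2.2
          · exact h4
        have gr4 : gr (g 4 w) = g 4 w := by
          have h4 := (hgr (g 4 w) (σ 0 z)).mpr mk
          rw [h3] at h4
          rcases h.ends pk (t 0).mem3 mk h4 with h5 | h5
          · rw [← gr0] at h5
            exact absurd (hgrb.1 h5).symm pk
          · exact h5
        refine ⟨gr (g 3 w), ρ (σ 3 y), ρ (σ 2 x), ?_, (hgr _ _).mpr (t 3).mem2, ?_, ?_,
          (hgr _ _).mpr mc, (hgr _ _).mpr (t 2).mem1, ?_⟩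
        · have := (hgr (g 4 w) (σ 3 y)).mpr md
          rwa [gr4] at this
        · rw [← gr4]; exact fun hh => pd (hgrb.1 hh)
        · rw [← ek, ← h3]
          intro hh
          have := hinj hh
          rw [ed, ek] at this
          exact (t 4).2.2.2 this
        · exact fun hh => pc (hgrb.1 hh).symm
      · -- `ρ` maps `σ 0 y` to `σ 0 z`
        have gr7 : gr (g 7 w) = g 4 w := by
          have h4 := (hgr (g 7 w) (σ 0 y)).mpr (by rw [← eh]; exact (t 7).mem2)
          rw [h2] at h4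
          rcases h.ends pk (t 0).mem3 mk h4 with h5 | h5
          · rw [← gr0] at h5
            exact absurd (hgrb.1 h5) ph
          · exact h5
        refine ⟨gr (g 6 w), ρ (σ 6 x), ρ (σ 2 z), ?_, (hgr _ _).mpr (t 6).mem1, ?_, ?_,
          (hgr _ _).mpr ml, (hgr _ _).mpr (t 2).mem3, ?_⟩
        · have := (hgr (g 7 w) (σ 6 x)).mpr mg
          rwa [gr7] at this
        · rw [← gr7]; exact fun hh => pg (hgrb.1 hh)
        · rw [← ek, ← h2]
          intro hh
          have := hinj hh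
          rw [eg, ← eh] at this
          exact (t 7).2.1 this
        · exact fun hh => pl (hgrb.1 hh).symm
    obtain ⟨m, s, r, k1, k2, k3, k4, k5, k6, k7⟩ := key
    rcases (t 4).cases k1 with h1 | h1 | h1
    · -- `s = σ 4 x`, `m = g 5 w`
      have hm : m = g 5 w := by
        rw [h1] at k2
        rcases h.ends pe (t 4).mem1 me k2 with h2 | h2
        · exact absurd h2 k3
        · exact h2
      rw [hm] at k5 k7
      rcases (t 5).cases k5 with h2 | h2 | h2
      · -- `r = σ 5 x`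
        rw [h2, ← ee] at k6
        rcases h.ends pe (t 4).mem1 me k6 with h3 | h3
        · rw [h3] at hp1
          have n14 : g 1 w ≠ g 4 w := by rw [← h3]; exact hp2.symm
          exact h.no_triangle hs (c 0) pa pk n14 (t 0).mem1 ma (t 0).mem3 mk (t 1).mem3 hp1
        · exact k7 h3.symm
      · -- `r = σ 5 y`
        rw [h2] at k6
        rcases h.ends pf (t 5).mem2 mf k6 with h3 | h3
        · exact k7 h3.symm
        · rw [h3] at hp1
          have n16 : g 1 w ≠ g 6 w := by rw [← h3]; exact hp2.symm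
          exact h.no_triangle hs (c 1) pb n16 pl (t 1).mem2 mb (t 1).mem3 hp1 (t 2).mem3 ml
      · -- `r = σ 5 z`
        rw [h2] at k6
        obtain ⟨p', q', r', hne1, hne2, hne3, hst'⟩ := card_eq_three.mp hpc
        exact h.no_sum ⟨hst', hne1, hne2, hne3⟩ hp1 k6 hX
    · -- `s = σ 4 y`, `m = g 3 w`
      have hm : m = g 3 w := by
        rw [h1, ← ed] at k2
        rcases h.ends pd (t 3).mem2 md k2 with h2 | h2
        · exact h2
        · exact absurd h2 k3
      rw [hm] at k5 k7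
      have n13 : g 1 w ≠ g 3 w := by
        intro heq
        apply C2.n12
        exact h.common_edge hs pb (t 1).mem2 mb (by rw [heq]; exact mc) (t 2).mem1
      have n2p : g 2 w ≠ gr (g 2 w) := by
        intro heq
        rw [← heq] at hp1
        exact (t 1).2.2.2 (h.common_edge hs pb (t 1).mem2 mb (t 1).mem3 hp1)
      exact h.no_four hs (c 1) pb pc k7 hp2 n13 n2p (t 1).mem2 mb (t 2).mem1 mc k5 k6 hp1
        (t 1).mem3
    · exact k4 h1

/-- The situation `Ctx` is impossible. -/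
theorem absurd' (h : Ctx a X) : False := by
  classical
  obtain ⟨w, hw⟩ := h.exists_odd
  have h2 := h.two_le_star w
  have hcase : star a w = univ ∨ ∀ e e', Par a e e' → e = e' := by
    by_cases hs : ∀ e e', Par a e e' → e = e'
    · exact Or.inr hs
    · left
      push Not at hs
      obtain ⟨d, d', hp, hne⟩ := hs
      have h3 := h.star_eq_univ_of_par hne hp
      -- all edges are parallel
      have hall : ∀ e, Par a d e := by
        intro e
        have h4 := h.star_eq_univ_of_par hne.symm (par_symm hp)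
        have h5 : star a (a.snd d) = univ := by
          have h6 : Par a d' d := par_symm hp
          have hd' : d' ∈ star a (a.snd d) := h.par_star hp (snd_mem_star d)
          rw [mem_star] at hd'
          rcases hd' with h7 | h7
          · rw [← h7]; exact h4
          · -- then `fst d'` must be `fst d`
            have h8 : d ∈ star a (a.fst d') := by rw [h4]; exact mem_univ d
            have h9 : a.fst d' ≠ a.snd d := by
              rw [← h7]; exact h.loopless d'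
            have h10 : d' ∈ star a (a.fst d) := by rw [h3]; exact mem_univ _
            -- the set of edges at `snd d`
            by_contra hcon
            have hx : ∃ x, x ∉ star a (a.snd d) := by
              by_contra hno
              push Not at hno
              exact hcon (eq_univ_of_forall hno)
            obtain ⟨x, hx⟩ := hx
            have hxd : x ∈ star a (a.fst d) := by rw [h3]; exact mem_univ _
            obtain ⟨u, hu1, hu2, hu3, _⟩ := h.other hxd
            -- the star of `u` would be a smaller cut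
            have h11 := h.star_min (a.fst d) (fun e => if e ∈ star a u then 1 else 0) (by
              intro e he
              exact absurd (by rw [h3]; exact mem_univ e) he) (by
              intro φ hφ
              simp only [ite_mul, one_mul, zero_mul]
              rw [sum_ite_mem, univ_inter]
              exact h.flow_star hφ u)
            rcases h11 with h12 | h12
            · have := h12 x hxd
              rw [if_pos hu2] at this
              exact absurd this (by decide)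
            · have := h12 d (fst_mem_star d)
              by_cases hdu : d ∈ star a u
              · rcases h.ends (h.loopless d) (fst_mem_star d) (snd_mem_star d) hdu with h13 | h13
                · exact hu1 h13
                · rw [h13] at hu2
                  exact hx hu2
              · rw [if_neg hdu] at this
                exact absurd this (by decide)
        exact par_of_ends (h.loopless d) (fst_mem_star d) (snd_mem_star d)
          (by rw [h3]; exact mem_univ e) (by rw [h5]; exact mem_univ e)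
      -- `w` is an end of all edges
      apply eq_univ_of_forall
      intro e
      obtain ⟨e0, he0⟩ := h.noniso w
      have he0' : e0 ∈ star a w := mem_star.mpr he0
      exact h.par_star (par_trans (par_symm (hall e0)) (hall e)) he0'
  by_cases h5 : 5 ≤ (star a w).card
  · exact h.no_deg5 w h5 (h.same w hcase)
  · have h3 : (star a w).card = 3 := by
      obtain ⟨k, hk⟩ := hw
      omega
    rcases hcase with h6 | hs
    · exact h.not_cubic_univ h6 h3
    · exact h.no_cubic hs h3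

end Ctx

end Pool.Agent.CCO
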