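import Mathlib

set_option autoImplicit false

namespace Pool.Agent.CCO

open Finset

/-- A finite graph with at least one edge; loops and parallel edges are allowed.
The edge `e` joins the (possibly equal) vertices `fst e` and `snd e`. -/
structure FinGraph where
  /-- vertices -/
  V : Type
  /-- edges -/
  E : Type
  fintypeV : Fintype V
  fintypeE : Fintype E
  decV : DecidableEq V
  decE : DecidableEq E
  /-- one end of an edge -/
  fst : E → V
  /-- the other end of an edge -/
  snd : E → V
  nonempty : Nonempty E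

attribute [instance] FinGraph.fintypeV FinGraph.fintypeE FinGraph.decV FinGraph.decE
  FinGraph.nonempty

/-- The sum of `φ` over the edges at `v` (a loop at `v` is counted twice), for a function `φ`
on the edges with values in a commutative monoid (the flows use values in `ZMod 2`). -/
def bd {A : Type} [AddCommMonoid A] (G : FinGraph) (φ : G.E → A) (v : G.V) : A :=
  ∑ e, ((if G.fst e = v then φ e else 0) + (if G.snd e = v then φ e else 0))

/-- `φ` is a `ℤ₂`-flow on `G`. -/
def IsFlow (G : FinGraph) (φ : G.E → ZMod 2) : Prop := ∀ v, bd G φ v = 0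

/-- `f : E(G) → E(H)` is cycle-continuous. -/
def CC (G H : FinGraph) (f : G.E → H.E) : Prop :=
  ∀ φ : H.E → ZMod 2, IsFlow H φ → IsFlow G (fun e => φ (f e))

/-- `G → H`: there is a cycle-continuous map from `G` to `H`. -/
def Le (G H : FinGraph) : Prop := ∃ f : G.E → H.E, CC G H f

/-- `G < H` in the cc order: `G → H` but not `H → G`. -/
def Lt (G H : FinGraph) : Prop := Le G H ∧ ¬ Le H G

/-- The edge cut of a vertex set `W`: the edges with exactly one end in `W`. -/
def cut (G : FinGraph) (W : Finset G.V) : Finset G.E :=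
  univ.filter (fun e => ¬ (G.fst e ∈ W ↔ G.snd e ∈ W))

/-- `G` is bridgeless: no edge cut consists of exactly one edge. -/
def Bridgeless (G : FinGraph) : Prop := ∀ W : Finset G.V, (cut G W).card ≠ 1

/-! ### Basic facts -/

theorem z2_self {A : Type} [AddCommGroup A] [Module (ZMod 2) A] (x : A) : x + x = 0 := by
  have h : ((1 : ZMod 2) + 1) • x = 0 := by
    have : (1 : ZMod 2) + 1 = 0 := by decide
    rw [this, zero_smul]
  rwa [add_smul, one_smul] at h

theorem z2_eq {A : Type} [AddCommGroup A] [Module (ZMod 2) A] {x y : A} (h : x + y = 0) :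
    x = y := by
  have h1 : x + y + y = y := by rw [h, zero_add]
  rwa [add_assoc, z2_self, add_zero] at h1

theorem zmod2_cases (z : ZMod 2) : z = 0 ∨ z = 1 := by
  revert z; decide

theorem bd_add {A : Type} [AddCommMonoid A] (G : FinGraph) (φ ψ : G.E → A) (v : G.V) :
    bd G (fun e => φ e + ψ e) v = bd G φ v + bd G ψ v := by
  unfold bd
  rw [← sum_add_distrib]
  apply sum_congr rfl
  intro e _
  rw [add_add_add_comm]
  congr 1 <;> split <;> simp

theorem bd_zero {A : Type} [AddCommMonoid A] (G : FinGraph) (v : G.V) :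
    bd G (fun _ => (0 : A)) v = 0 := by
  unfold bd
  apply sum_eq_zero
  intro e _
  simp

theorem bd_sum {A : Type} [AddCommMonoid A] {ι : Type} (G : FinGraph) (s : Finset ι)
    (φ : ι → G.E → A) (v : G.V) :
    bd G (fun e => ∑ i ∈ s, φ i e) v = ∑ i ∈ s, bd G (φ i) v := by
  classical
  induction s using Finset.induction_on with
  | empty => simp [bd_zero]
  | insert i s hi ih =>
    simp only [sum_insert hi]
    rw [bd_add, ih]

theorem bd_map {A B : Type} [AddCommMonoid A] [AddCommMonoid B] (G : FinGraph) (g : A →+ B)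
    (φ : G.E → A) (v : G.V) : g (bd G φ v) = bd G (fun e => g (φ e)) v := by
  unfold bd
  rw [map_sum]
  apply sum_congr rfl
  intro e _
  rw [map_add]
  split <;> split <;> simp

theorem bd_ite {A : Type} [AddCommMonoid A] (G : FinGraph) (ε : G.E) (t : A) (x : G.V) :
    bd G (fun e => if e = ε then t else 0) x =
      (if G.fst ε = x then t else 0) + (if G.snd ε = x then t else 0) := by
  unfold bd
  rw [sum_eq_single ε]
  · simp
  · intro b _ hb
    simp [hb]
  · simp

/-- Pairing of a boundary with a potential. -/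
theorem bd_pair {A : Type} [AddCommGroup A] [Module (ZMod 2) A] (G : FinGraph) (φ : G.E → A)
    (w : G.V → ZMod 2) :
    ∑ v, w v • bd G φ v = ∑ e, (w (G.fst e) + w (G.snd e)) • φ e := by
  unfold bd
  simp only [smul_sum]
  rw [sum_comm]
  apply sum_congr rfl
  intro e _
  simp only [smul_add, smul_ite, smul_zero, sum_add_distrib, sum_ite_eq, mem_univ, if_true,
    add_smul]

theorem sum_bd {A : Type} [AddCommGroup A] [Module (ZMod 2) A] (G : FinGraph) (φ : G.E → A) :
    ∑ v, bd G φ v = 0 := by
  have h := bd_pair G φ (fun _ => 1)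
  simp only [one_smul] at h
  rw [h]
  apply sum_eq_zero
  intro e _
  have : (1 + 1 : ZMod 2) = 0 := by decide
  rw [this, zero_smul]

theorem isFlow_add {G : FinGraph} {φ ψ : G.E → ZMod 2} (h1 : IsFlow G φ) (h2 : IsFlow G ψ) :
    IsFlow G (fun e => φ e + ψ e) := fun v => by
  rw [bd_add, h1 v, h2 v, add_zero]

theorem isFlow_zero (G : FinGraph) : IsFlow G (fun _ => 0) := fun v => bd_zero G v

theorem cc_id (G : FinGraph) : CC G G id := fun _ h => h

theorem cc_comp {G H K : FinGraph} {g : H.E → K.E} {f : G.E → H.E} (hg : CC H K g)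
    (hf : CC G H f) : CC G K (fun e => g (f e)) := fun φ hφ => hf _ (hg φ hφ)

theorem le_refl (G : FinGraph) : Le G G := ⟨id, cc_id G⟩

theorem le_trans' {G H K : FinGraph} (h1 : Le G H) (h2 : Le H K) : Le G K := by
  obtain ⟨f, hf⟩ := h1
  obtain ⟨g, hg⟩ := h2
  exact ⟨fun e => g (f e), cc_comp hg hf⟩

/-- Orthogonality to all flows implies being a cut. -/
theorem exists_potential (G : FinGraph) (ψ : G.E → ZMod 2)
    (h : ∀ φ, IsFlow G φ → ∑ e, ψ e * φ e = 0) :
    ∃ w : G.V → ZMod 2, ∀ e, ψ e = w (G.fst e) + w (G.snd e) := by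
  classical
  set δ : (G.V → ZMod 2) →ₗ[ZMod 2] (G.E → ZMod 2) :=
    { toFun := fun w e => w (G.fst e) + w (G.snd e)
      map_add' := by
        intro w w'
        funext e
        simp only [Pi.add_apply]
        ring
      map_smul' := by
        intro c w
        funext e
        simp only [Pi.smul_apply, smul_eq_mul, RingHom.id_apply]
        ring } with hδ
  by_contra hcon
  have hψ : ψ ∉ LinearMap.range δ := by
    rintro ⟨w, hw⟩
    apply hcon
    refine ⟨w, fun e => ?_⟩
    rw [← hw]
    rfl
  obtain ⟨f, hf1, hf2⟩ := Submodule.exists_le_ker_of_notMem hψ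
  set φ : G.E → ZMod 2 := fun e => f (fun j => if e = j then 1 else 0) with hφ
  have hrep : ∀ x : G.E → ZMod 2, f x = ∑ e, x e * φ e := by
    intro x
    rw [LinearMap.pi_apply_eq_sum_univ f x]
    rfl
  have hflow : IsFlow G φ := by
    intro v
    have h1 : f (δ (fun x => if x = v then 1 else 0)) = 0 :=
      hf2 ⟨_, rfl⟩
    rw [hrep] at h1
    rw [← h1]
    unfold bd
    apply sum_congr rfl
    intro e _
    simp only [hδ, LinearMap.coe_mk, AddHom.coe_mk]
    split <;> split <;> ring
  apply hf1
  rw [hrep]
  exact h φ hflow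

/-! ### Disjoint union, deletion, contraction, quotients -/

/-- The disjoint union. -/
@[reducible] def union (G H : FinGraph) : FinGraph where
  V := G.V ⊕ H.V
  E := G.E ⊕ H.E
  fintypeV := inferInstance
  fintypeE := inferInstance
  decV := inferInstance
  decE := inferInstance
  fst := Sum.elim (fun e => Sum.inl (G.fst e)) (fun e => Sum.inr (H.fst e))
  snd := Sum.elim (fun e => Sum.inl (G.snd e)) (fun e => Sum.inr (H.snd e))
  nonempty := ⟨Sum.inl (Classical.choice G.nonempty)⟩

theorem bd_union_inl {A : Type} [AddCommMonoid A] (G H : FinGraph) (φ : (union G H).E → A)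
    (v : G.V) : bd (union G H) φ (Sum.inl v) = bd G (fun e => φ (Sum.inl e)) v := by
  have h := Fintype.sum_sum_type (fun e : G.E ⊕ H.E =>
    ((if (union G H).fst e = Sum.inl v then φ e else 0) +
      (if (union G H).snd e = Sum.inl v then φ e else 0)))
  unfold bd
  rw [h]
  simp

theorem bd_union_inr {A : Type} [AddCommMonoid A] (G H : FinGraph) (φ : (union G H).E → A)
    (v : H.V) : bd (union G H) φ (Sum.inr v) = bd H (fun e => φ (Sum.inr e)) v := by
  have h := Fintype.sum_sum_type (fun e : G.E ⊕ H.E =>
    ((if (union G H).fst e = Sum.inr v then φ e else 0) +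
      (if (union G H).snd e = Sum.inr v then φ e else 0)))
  unfold bd
  rw [h]
  simp

theorem isFlow_union (G H : FinGraph) (φ : (union G H).E → ZMod 2) :
    IsFlow (union G H) φ ↔
      IsFlow G (fun e => φ (Sum.inl e)) ∧ IsFlow H (fun e => φ (Sum.inr e)) := by
  constructor
  · intro h
    refine ⟨fun v => ?_, fun v => ?_⟩
    · rw [← bd_union_inl]; exact h _
    · rw [← bd_union_inr]; exact h _
  · rintro ⟨h1, h2⟩ v
    rcases v with v | v
    · rw [bd_union_inl]; exact h1 v
    · rw [bd_union_inr]; exact h2 v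

theorem cc_inl (G H : FinGraph) : CC G (union G H) Sum.inl :=
  fun φ hφ => ((isFlow_union G H φ).mp hφ).1

theorem cc_inr (G H : FinGraph) : CC H (union G H) Sum.inr :=
  fun φ hφ => ((isFlow_union G H φ).mp hφ).2

theorem le_union_left (G H : FinGraph) : Le G (union G H) := ⟨Sum.inl, cc_inl G H⟩

theorem le_union_right (G H : FinGraph) : Le H (union G H) := ⟨Sum.inr, cc_inr G H⟩

theorem cc_elim {G H K : FinGraph} {f : G.E → K.E} {g : H.E → K.E} (hf : CC G K f)
    (hg : CC H K g) : CC (union G H) K (Sum.elim f g) := by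
  intro φ hφ
  rw [isFlow_union]
  exact ⟨hf φ hφ, hg φ hφ⟩

theorem union_le {G H K : FinGraph} (h1 : Le G K) (h2 : Le H K) : Le (union G H) K := by
  obtain ⟨f, hf⟩ := h1
  obtain ⟨g, hg⟩ := h2
  exact ⟨Sum.elim f g, cc_elim hf hg⟩

/-- The subgraph with the edges satisfying `P`. -/
@[reducible] def restrict (B : FinGraph) (P : B.E → Prop) [DecidablePred P]
    (h : Nonempty {e : B.E // P e}) : FinGraph where
  V := B.V
  E := {e : B.E // P e}
  fintypeV := inferInstance
  fintypeE := inferInstance
  decV := inferInstance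
  decE := inferInstance
  fst := fun e => B.fst e
  snd := fun e => B.snd e
  nonempty := h

theorem bd_restrict {A : Type} [AddCommMonoid A] (B : FinGraph) (P : B.E → Prop)
    [DecidablePred P] (h : Nonempty {e : B.E // P e}) (φ : {e : B.E // P e} → A) (ψ : B.E → A)
    (h1 : ∀ e (he : P e), ψ e = φ ⟨e, he⟩) (h2 : ∀ e, ¬ P e → ψ e = 0) (v : B.V) :
    bd (restrict B P h) φ v = bd B ψ v := by
  unfold bd
  have e1 : ∑ e : {e : B.E // P e}, ((if B.fst e = v then φ e else 0) +
      (if B.snd e = v then φ e else 0)) =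
      ∑ e : {e : B.E // P e}, ((if B.fst e = v then ψ e else 0) +
      (if B.snd e = v then ψ e else 0)) := by
    apply sum_congr rfl
    rintro ⟨e, he⟩ _
    rw [h1 e he]
  have e2 : ∑ e : {e : B.E // P e}, ((if B.fst e = v then ψ e else 0) +
      (if B.snd e = v then ψ e else 0)) =
      ∑ e ∈ univ.filter P, ((if B.fst e = v then ψ e else 0) +
      (if B.snd e = v then ψ e else 0)) := by
    rw [← Finset.sum_subtype_eq_sum_filter, Finset.subtype_univ]
  have e3 : ∑ e ∈ univ.filter P, ((if B.fst e = v then ψ e else 0) +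
      (if B.snd e = v then ψ e else 0)) =
      ∑ e, ((if B.fst e = v then ψ e else 0) + (if B.snd e = v then ψ e else 0)) := by
    apply sum_subset (subset_univ _)
    intro e _ he
    have : ¬ P e := by simpa using he
    rw [h2 e this]
    simp
  rw [← e3, ← e2, ← e1]

/-- The image of a graph under a map of its vertex set (vertices are identified). -/
@[reducible] def mapV (G : FinGraph) {W : Type} [Fintype W] [DecidableEq W] (q : G.V → W) :
    FinGraph where
  V := W
  E := G.E
  fintypeV := inferInstance
  fintypeE := inferInstance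
  decV := inferInstance
  decE := inferInstance
  fst := fun e => q (G.fst e)
  snd := fun e => q (G.snd e)
  nonempty := G.nonempty

theorem bd_mapV {A : Type} [AddCommMonoid A] (G : FinGraph) {W : Type} [Fintype W]
    [DecidableEq W] (q : G.V → W) (φ : G.E → A) (w : W) :
    bd (mapV G q) φ w = ∑ v, if q v = w then bd G φ v else 0 := by
  unfold bd
  have h1 : ∀ v : G.V, (if q v = w then ∑ e, ((if G.fst e = v then φ e else 0) +
      (if G.snd e = v then φ e else 0)) else 0) =
      ∑ e, (if q v = w then ((if G.fst e = v then φ e else 0) +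
      (if G.snd e = v then φ e else 0)) else 0) := by
    intro v
    split
    · rfl
    · simp
  simp only [h1]
  rw [sum_comm]
  apply sum_congr rfl
  intro e _
  have h2 : ∀ v : G.V, (if q v = w then ((if G.fst e = v then φ e else 0) +
      (if G.snd e = v then φ e else 0)) else 0) =
      (if G.fst e = v then (if q v = w then φ e else 0) else 0) +
      (if G.snd e = v then (if q v = w then φ e else 0) else 0) := by
    intro v
    split <;> simp
  simp only [h2, sum_add_distrib, sum_ite_eq, mem_univ, if_true]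

theorem cc_mapV {G K : FinGraph} {W : Type} [Fintype W] [DecidableEq W] (q : G.V → W)
    {f : G.E → K.E} (hf : CC G K f) : CC (mapV G q) K f := by
  intro φ hφ w
  rw [bd_mapV]
  apply sum_eq_zero
  intro v _
  rw [hf φ hφ v]
  simp

/-- Contraction of the edge `ε`. -/
@[reducible] def contract (B : FinGraph) (ε : B.E) (h : Nonempty {e : B.E // e ≠ ε}) :
    FinGraph where
  V := B.V
  E := {e : B.E // e ≠ ε}
  fintypeV := inferInstance
  fintypeE := inferInstance
  decV := inferInstance
  decE := inferInstance
  fst := fun e => if B.fst e = B.fst ε then B.snd ε else B.fst e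
  snd := fun e => if B.snd e = B.fst ε then B.snd ε else B.snd e
  nonempty := h

theorem bd_contract (B : FinGraph) (ε : B.E) (h : Nonempty {e : B.E // e ≠ ε})
    (φ : {e : B.E // e ≠ ε} → ZMod 2) (ψ : B.E → ZMod 2)
    (h1 : ∀ e (he : e ≠ ε), ψ e = φ ⟨e, he⟩) (v : B.V) :
    bd (contract B ε h) φ v =
      ∑ x, (if (if x = B.fst ε then B.snd ε else x) = v then 1 else 0) • bd B ψ x := by
  have hp := bd_pair B ψ (fun x => if (if x = B.fst ε then B.snd ε else x) = v then
    (1 : ZMod 2) else 0)
  have hp' : ∑ x, (if (if x = B.fst ε then B.snd ε else x) = v then (1 : ℕ) else 0) •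
      bd B ψ x = ∑ x, (if (if x = B.fst ε then B.snd ε else x) = v then (1 : ZMod 2) else 0) •
      bd B ψ x := by
    apply sum_congr rfl
    intro x _
    split <;> simp
  rw [hp', hp]
  set q : B.V → B.V := fun x => if x = B.fst ε then B.snd ε else x with hq
  have hqe : q (B.fst ε) = q (B.snd ε) := by
    simp only [hq, if_true]
    split
    · rfl
    · rfl
  have e0 : ∑ e, ((if q (B.fst e) = v then (1 : ZMod 2) else 0) +
      (if q (B.snd e) = v then 1 else 0)) • ψ e =
      ∑ e ∈ univ.filter (fun e => e ≠ ε), ((if q (B.fst e) = v then (1 : ZMod 2) else 0) +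
      (if q (B.snd e) = v then 1 else 0)) • ψ e := by
    symm
    apply sum_subset (subset_univ _)
    intro e _ he
    have : e = ε := by simpa using he
    rw [this, hqe, z2_self, zero_smul]
  change _ = ∑ e, ((if q (B.fst e) = v then (1 : ZMod 2) else 0) +
      (if q (B.snd e) = v then 1 else 0)) • ψ e
  rw [e0, ← Finset.sum_subtype_eq_sum_filter, Finset.subtype_univ]
  unfold bd
  apply sum_congr rfl
  rintro ⟨e, he⟩ _
  rw [← h1 e he]
  simp only [hq, smul_eq_mul, add_mul, ite_mul, one_mul, zero_mul]

theorem cc_contract (B : FinGraph) (ε : B.E) (h : Nonempty {e : B.E // e ≠ ε}) :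
    CC (contract B ε h) B (fun e => e.1) := by
  intro φ hφ v
  rw [bd_contract B ε h (fun e => φ e.1) φ (fun e he => rfl)]
  apply sum_eq_zero
  intro x _
  rw [hφ x, smul_zero]

theorem contract_le (B : FinGraph) (ε : B.E) (h : Nonempty {e : B.E // e ≠ ε}) :
    Le (contract B ε h) B := ⟨_, cc_contract B ε h⟩

/-- Every flow on the contraction extends to a flow on the graph. -/
theorem extend_contract (B : FinGraph) (ε : B.E) (h : Nonempty {e : B.E // e ≠ ε})
    (φ : {e : B.E // e ≠ ε} → ZMod 2) (hφ : IsFlow (contract B ε h) φ) :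
    ∃ ψ : B.E → ZMod 2, IsFlow B ψ ∧ ∀ e (he : e ≠ ε), ψ e = φ ⟨e, he⟩ := by
  set ψ0 : B.E → ZMod 2 := fun e => if he : e ≠ ε then φ ⟨e, he⟩ else 0 with hψ0
  set t := bd B ψ0 (B.fst ε) with ht
  set ψ : B.E → ZMod 2 := fun e => ψ0 e + (if e = ε then t else 0) with hψ
  have hext : ∀ e (he : e ≠ ε), ψ e = φ ⟨e, he⟩ := by
    intro e he
    simp only [hψ, hψ0]
    rw [dif_pos he, if_neg he, add_zero]
  refine ⟨ψ, ?_, hext⟩
  have hbd : ∀ x, bd B ψ x = bd B ψ0 x +
      ((if B.fst ε = x then t else 0) + (if B.snd ε = x then t else 0)) := by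
    intro x
    rw [hψ, bd_add, bd_ite]
  have hc : ∀ v, ∑ x, (if (if x = B.fst ε then B.snd ε else x) = v then 1 else 0) •
      bd B ψ x = 0 := by
    intro v
    rw [← bd_contract B ε h φ ψ hext v]
    exact hφ v
  -- at the first end
  by_cases hloop : B.fst ε = B.snd ε
  · intro v
    have h1 := hc v
    rw [sum_eq_single v] at h1
    · have : (if v = B.fst ε then B.snd ε else v) = v := by
        split
        · next h2 => rw [← hloop, h2]
        · rfl
      rw [this] at h1
      simpa using h1
    · intro b _ hb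
      have : (if b = B.fst ε then B.snd ε else b) = b := by
        split
        · next h2 => rw [← hloop, h2]
        · rfl
      rw [this, if_neg hb, zero_smul]
    · simp
  · have hfst : bd B ψ (B.fst ε) = 0 := by
      rw [hbd, if_pos rfl, if_neg (Ne.symm hloop), add_zero, ← ht]
      exact z2_self t
    have hother : ∀ x, x ≠ B.fst ε → bd B ψ x = 0 := by
      intro v hv
      have h1 := hc v
      rw [sum_eq_single v] at h1
      · rw [if_neg hv, if_pos rfl, one_smul] at h1
        exact h1
      · intro b _ hb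
        by_cases hb2 : b = B.fst ε
        · rw [hb2, hfst, smul_zero]
        · rw [if_neg hb2, if_neg hb, zero_smul]
      · simp
    intro v
    by_cases hv : v = B.fst ε
    · rw [hv]; exact hfst
    · exact hother v hv

/-- A cc endomorphism which misses an edge factors through a contraction. -/
theorem le_contract (B : FinGraph) (f : B.E → B.E) (hf : CC B B f) (ε : B.E)
    (hε : ∀ e, f e ≠ ε) (h : Nonempty {e : B.E // e ≠ ε}) : Le B (contract B ε h) := by
  refine ⟨fun e => ⟨f e, hε e⟩, fun φ hφ => ?_⟩
  obtain ⟨ψ, hψ1, hψ2⟩ := extend_contract B ε h φ hφ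
  have h1 := hf ψ hψ1
  have h2 : (fun e => ψ (f e)) = (fun e => φ ⟨f e, hε e⟩) := by
    funext e
    exact hψ2 (f e) (hε e)
  rw [h2] at h1
  exact h1

/-- If the indicator function of an edge is a flow then the edge is a loop. -/
theorem bd_single_loop (B : FinGraph) (ε : B.E)
    (h : IsFlow B (fun e => if e = ε then 1 else 0)) : B.fst ε = B.snd ε := by
  have h1 := h (B.fst ε)
  rw [bd_ite] at h1
  by_contra hne
  rw [if_pos rfl, if_neg (Ne.symm hne)] at h1
  revert h1; decide

/-! ### Connected pairs of vertices -/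

/-- `s` and `t` are in the same component of `H`: there is a `ℤ₂`-chain with boundary
`s + t`. -/
def Conn (H : FinGraph) (s t : H.V) : Prop :=
  ∃ p : H.E → ZMod 2, ∀ v, bd H p v = (if v = s then 1 else 0) + (if v = t then 1 else 0)

theorem conn_symm {H : FinGraph} {s t : H.V} (h : Conn H s t) : Conn H t s := by
  obtain ⟨p, hp⟩ := h
  exact ⟨p, fun v => by rw [hp, add_comm]⟩

theorem conn_trans {H : FinGraph} {s t u : H.V} (h : Conn H s t) (h' : Conn H t u) :
    Conn H s u := by
  obtain ⟨p, hp⟩ := h
  obtain ⟨p', hp'⟩ := h'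
  refine ⟨fun e => p e + p' e, fun v => ?_⟩
  rw [bd_add, hp, hp']
  have : (if v = t then (1 : ZMod 2) else 0) + (if v = t then 1 else 0) = 0 := z2_self _
  calc _ = (if v = s then (1 : ZMod 2) else 0) + ((if v = t then (1 : ZMod 2) else 0) +
      (if v = t then 1 else 0)) + (if v = u then 1 else 0) := by ring
    _ = _ := by rw [this, add_zero]

/-! ### Bridges -/

theorem bridgeless_iff (G : FinGraph) :
    Bridgeless G ↔ ∀ e, ∃ φ : G.E → ZMod 2, IsFlow G φ ∧ φ e = 1 := by
  constructor
  · intro h e
    by_contra hcon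
    push Not at hcon
    have hz : ∀ φ, IsFlow G φ → φ e = 0 := by
      intro φ hφ
      rcases zmod2_cases (φ e) with h1 | h1
      · exact h1
      · exact absurd h1 (hcon φ hφ)
    obtain ⟨w, hw⟩ := exists_potential G (fun x => if x = e then 1 else 0) (by
      intro φ hφ
      simp only [ite_mul, one_mul, zero_mul, sum_ite_eq', mem_univ, if_true]
      exact hz φ hφ)
    apply h (univ.filter (fun v => w v = 1))
    have hcut : cut G (univ.filter (fun v => w v = 1)) = {e} := by
      ext x
      simp only [cut, mem_filter, mem_univ, true_and, mem_singleton]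
      have hx := hw x
      rcases zmod2_cases (w (G.fst x)) with h1 | h1 <;>
        rcases zmod2_cases (w (G.snd x)) with h2 | h2 <;> rw [h1, h2] at hx <;>
        by_cases hxe : x = e <;> simp [hxe, h1, h2] at hx ⊢ <;> revert hx <;> simp [← hxe, h1, h2]
    rw [hcut, card_singleton]
  · intro h W hW
    obtain ⟨e, he⟩ := card_eq_one.mp hW
    obtain ⟨φ, hφ, hφe⟩ := h e
    have hp := bd_pair G φ (fun v => if v ∈ W then (1 : ZMod 2) else 0)
    have h0 : ∑ v, (if v ∈ W then (1 : ZMod 2) else 0) • bd G φ v = 0 := by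
      apply sum_eq_zero
      intro v _
      rw [hφ v, smul_zero]
    rw [h0] at hp
    have h1 : ∀ x, ((if G.fst x ∈ W then (1 : ZMod 2) else 0) +
        (if G.snd x ∈ W then 1 else 0)) • φ x = if x = e then φ x else 0 := by
      intro x
      have hx : x ∈ cut G W ↔ x = e := by rw [he, mem_singleton]
      simp only [cut, mem_filter, mem_univ, true_and] at hx
      by_cases hxe : x = e
      · have h2 := hx.mpr hxe
        rw [if_pos hxe]
        by_cases h3 : G.fst x ∈ W <;> by_cases h4 : G.snd x ∈ W <;> simp [h3, h4] at h2 ⊢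
      · have h2 := mt hx.mp hxe
        rw [if_neg hxe]
        have h11 : (1 : ZMod 2) + 1 = 0 := by decide
        by_cases h3 : G.fst x ∈ W <;> by_cases h4 : G.snd x ∈ W <;> simp [h3, h4, h11] at h2 ⊢
    simp only [h1, sum_ite_eq', mem_univ, if_true] at hp
    rw [hφe] at hp
    revert hp; decide

theorem bridgeless_of_le_of_bridge {a b : FinGraph} (h : ¬ Bridgeless b) : Le a b := by
  rw [bridgeless_iff] at h
  push Not at h
  obtain ⟨e, he⟩ := h
  refine ⟨fun _ => e, fun φ hφ v => ?_⟩
  have h0 : φ e = 0 := by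
    rcases zmod2_cases (φ e) with h1 | h1
    · exact h1
    · exact absurd h1 (he φ hφ)
  have h1 : (fun _ : a.E => φ e) = fun _ => 0 := by
    funext x; exact h0
  change bd a (fun _ => φ e) v = 0
  rw [h1]
  exact bd_zero a v

/-! ### The dual of the flow space -/

/-- The space of flows. -/
def Fl (a : FinGraph) : Submodule (ZMod 2) (a.E → ZMod 2) where
  carrier := {φ | IsFlow a φ}
  add_mem' := fun h1 h2 => isFlow_add h1 h2
  zero_mem' := isFlow_zero a
  smul_mem' := fun c φ hφ => by
    rcases zmod2_cases c with h | h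
    · rw [h, zero_smul]; exact isFlow_zero a
    · rw [h, one_smul]; exact hφ

theorem mem_Fl {a : FinGraph} {φ : a.E → ZMod 2} : φ ∈ Fl a ↔ IsFlow a φ := Iff.rfl

/-- The dual of the flow space. -/
abbrev D (a : FinGraph) : Type := Module.Dual (ZMod 2) (Fl a)

/-- The evaluation at an edge. -/
def ev (a : FinGraph) (e : a.E) : D a := (LinearMap.proj e).comp (Fl a).subtype

@[simp] theorem ev_apply (a : FinGraph) (e : a.E) (φ : Fl a) : ev a e φ = φ.1 e := rfl

theorem bd_ev_apply (a H : FinGraph) (f : H.E → a.E) (v : H.V) (φ : Fl a) :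
    (bd H (fun e => ev a (f e)) v) φ = bd H (fun e => φ.1 (f e)) v := by
  have h := bd_map H (LinearMap.applyₗ φ : D a →ₗ[ZMod 2] ZMod 2).toAddMonoidHom
    (fun e => ev a (f e)) v
  exact h

theorem cc_iff {H a : FinGraph} {f : H.E → a.E} :
    CC H a f ↔ ∀ v, bd H (fun e => ev a (f e)) v = 0 := by
  constructor
  · intro h v
    apply LinearMap.ext
    intro φ
    rw [bd_ev_apply]
    exact h φ.1 φ.2 v
  · intro h φ hφ v
    have h1 := bd_ev_apply a H f v ⟨φ, hφ⟩
    rw [h v] at h1
    exact h1.symm

/-- `X` is a leak of `(H; s, t)`: some map `f : E(H) → E(a)` has boundary `X` at `s` and `t` and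
boundary zero at all other vertices. -/
def Leak (a H : FinGraph) (s t : H.V) (X : D a) : Prop :=
  ∃ f : H.E → a.E, ∀ v, bd H (fun e => ev a (f e)) v =
    (if v = s then X else 0) + (if v = t then X else 0)

/-- `X` is a common leak of all connected two-terminal graphs mapping to `a`. -/
def Common (a : FinGraph) (X : D a) : Prop :=
  ∀ (H : FinGraph) (s t : H.V), Le H a → s ≠ t → Conn H s t → Leak a H s t X

end Pool.Agent.CCO
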