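import Pool.Agent.CCO.Star

set_option autoImplicit false

namespace Pool.Agent.CCO

open Finset

variable {a : FinGraph} {X : D a}

/-- The junction assignment of the Petersen gadget on the ports of `A`. -/
def rA : Fin 8 → Fin 8 ⊕ Bool :=
  ![Sum.inl 0, Sum.inl 0, Sum.inl 2, Sum.inl 2, Sum.inl 4, Sum.inl 4, Sum.inl 6, Sum.inl 6]

/-- The junction assignment of the Petersen gadget on the ports of `B`. -/
def rB : Fin 8 → Fin 8 ⊕ Bool :=
  ![Sum.inl 7, Sum.inl 1, Sum.inl 1, Sum.inl 3, Sum.inl 3, Sum.inl 5, Sum.inl 5, Sum.inl 7]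

/-- The junction assignment of the Petersen gadget on the remaining port. -/
def rC : Fin 8 → Fin 8 ⊕ Bool :=
  ![Sum.inl 0, Sum.inr false, Sum.inl 2, Sum.inr true, Sum.inl 0, Sum.inr false, Sum.inl 2,
    Sum.inr true]

theorem rA_even : ∀ r, ∑ i, (if rA i = r then (1 : ZMod 2) else 0) = 0 := by decide

theorem rB_even : ∀ r, ∑ i, (if rB i = r then (1 : ZMod 2) else 0) = 0 := by decide

theorem rC_even : ∀ r, ∑ i, (if rC i = r then (1 : ZMod 2) else 0) = 0 := by decide

/-- The Petersen gadget. -/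
theorem Ctx.pet (h : Ctx a X) (w : a.V) (A B : Finset a.E) (c0 : a.E) (hA : A ⊆ star a w)
    (hB : B ⊆ star a w) (hAB : Disjoint A B) (hc0 : c0 ∈ star a w) (hcA : c0 ∉ A) (hcB : c0 ∉ B)
    (hcov : ∀ c ∈ star a w, c ∈ A ∨ c ∈ B ∨ c = c0) (hAne : A.Nonempty) (hBne : B.Nonempty) :
    ∃ σ : Fin 8 → a.E → a.E, (∀ i, CC a a (σ i)) ∧
      (∀ c ∈ A, σ 0 c = σ 1 c ∧ σ 2 c = σ 3 c ∧ σ 4 c = σ 5 c ∧ σ 6 c = σ 7 c) ∧
      (∀ c ∈ B, σ 1 c = σ 2 c ∧ σ 3 c = σ 4 c ∧ σ 5 c = σ 6 c ∧ σ 7 c = σ 0 c) ∧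
      σ 0 c0 = σ 4 c0 ∧ σ 2 c0 = σ 6 c0 ∧ ev a (σ 1 c0) + ev a (σ 5 c0) = X ∧
      ev a (σ 3 c0) + ev a (σ 7 c0) = X := by
  set q : Fin 8 → a.E → Fin 8 ⊕ Bool := fun i c => if c ∈ A then rA i else
    if c ∈ B then rB i else rC i with hq
  have hqA : ∀ i, ∀ c ∈ A, q i c = rA i := by
    intro i c hc
    simp only [hq, if_pos hc]
  have hqB : ∀ i, ∀ c ∈ B, q i c = rB i := by
    intro i c hc
    have : c ∉ A := disjoint_right.mp hAB hc
    simp only [hq, if_neg this, if_pos hc]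
  have hqC : ∀ i, q i c0 = rC i := by
    intro i
    simp only [hq, if_neg hcA, if_neg hcB]
  obtain ⟨a0, ha0⟩ := hAne
  obtain ⟨b0, hb0⟩ := hBne
  have hca : c0 ≠ a0 := by rintro rfl; exact hcA ha0
  have hcb : c0 ≠ b0 := by rintro rfl; exact hcB hb0
  have hba : b0 ≠ a0 := by rintro rfl; exact disjoint_left.mp hAB ha0 hb0
  have hconn : Conn (explode a w (Fin 8) ((Fin 8 × a.E) ⊕ Bool) (jq q))
      (Sum.inr (Sum.inr false)) (Sum.inr (Sum.inr true)) := by
    have e1 : jq q 1 c0 = Sum.inr false := by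
      unfold jq; rw [hqC]; rfl
    have e2 : jq q 1 b0 = jq q 2 b0 := by
      unfold jq; rw [hqB 1 b0 hb0, hqB 2 b0 hb0]; rfl
    have e3 : jq q 2 a0 = jq q 3 a0 := by
      unfold jq; rw [hqA 2 a0 ha0, hqA 3 a0 ha0]; rfl
    have e4 : jq q 3 c0 = Sum.inr true := by
      unfold jq; rw [hqC]; rfl
    have p1 := h.conn_copy' w (jq q) 1 c0 b0 hc0 (hB hb0) hcb
    have p2 := h.conn_copy' w (jq q) 2 b0 a0 (hB hb0) (hA ha0) hba
    have p3 := h.conn_copy' w (jq q) 3 a0 c0 (hA ha0) hc0 hca.symm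
    rw [e1, e2] at p1
    rw [e3] at p2
    rw [e4] at p3
    exact conn_trans p1 (conn_trans p2 p3)
  obtain ⟨σ, hσ, h1, h2⟩ := h.pattern w q (by
    intro c hc r
    rcases hcov c hc with h1 | h1 | h1
    · simp only [hqA _ c h1]; exact rA_even r
    · simp only [hqB _ c h1]; exact rB_even r
    · rw [h1]; simp only [hqC]; exact rC_even r) hconn
  have hpair : ∀ c ∈ star a w, ∀ k : Fin 8, ∀ i j : Fin 8, i ≠ j → q i c = Sum.inl k →
      q j c = Sum.inl k → (∀ l, l ≠ i → l ≠ j → q l c ≠ Sum.inl k) → σ i c = σ j c := by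
    intro c hc k i j hij hi hj hl
    have h3 := h1 c hc k
    rw [← sum_erase_add _ _ (mem_univ i), ← sum_erase_add _ _ (mem_erase.mpr ⟨hij.symm,
      mem_univ j⟩), sum_eq_zero, zero_add, if_pos hi, if_pos hj] at h3
    · exact (h.ev_inj (z2_eq h3)).symm
    · intro l hl'
      simp only [mem_erase, mem_univ, and_true] at hl'
      rw [if_neg (hl l hl'.2 hl'.1)]
  have hterm : ∀ b : Bool, ∀ i j : Fin 8, i ≠ j → rC i = Sum.inr b → rC j = Sum.inr b →
      (∀ l, l ≠ i → l ≠ j → rC l ≠ Sum.inr b) → ev a (σ i c0) + ev a (σ j c0) = X := by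
    intro b i j hij hi hj hl
    have h3 := h2 b
    have h4 : ∀ l, ∑ c ∈ star a w, (if q l c = Sum.inr b then ev a (σ l c) else 0) =
        if rC l = Sum.inr b then ev a (σ l c0) else 0 := by
      intro l
      rw [sum_eq_single c0]
      · rw [hqC]
      · intro c hc hcc
        rw [if_neg]
        rcases hcov c hc with h5 | h5 | h5
        · rw [hqA _ c h5]
          revert l; unfold rA; intro l; fin_cases l <;> simp
        · rw [hqB _ c h5]
          revert l; unfold rB; intro l; fin_cases l <;> simp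
        · exact absurd h5 hcc
      · intro hno; exact absurd hc0 hno
    rw [sum_congr rfl (fun l _ => h4 l)] at h3
    rw [← sum_erase_add _ _ (mem_univ i), ← sum_erase_add _ _ (mem_erase.mpr ⟨hij.symm,
      mem_univ j⟩), sum_eq_zero, zero_add, if_pos hi, if_pos hj] at h3
    · rw [add_comm]; exact h3
    · intro l hl'
      simp only [mem_erase, mem_univ, and_true] at hl'
      rw [if_neg (hl l hl'.2 hl'.1)]
  refine ⟨σ, hσ, ?_, ?_, ?_, ?_, ?_, ?_⟩
  · intro c hc
    have hcs := hA hc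
    refine ⟨hpair c hcs 0 0 1 (by decide) ?_ ?_ ?_, hpair c hcs 2 2 3 (by decide) ?_ ?_ ?_,
      hpair c hcs 4 4 5 (by decide) ?_ ?_ ?_, hpair c hcs 6 6 7 (by decide) ?_ ?_ ?_⟩ <;>
      simp only [hqA _ c hc] <;> decide
  · intro c hc
    have hcs := hB hc
    refine ⟨hpair c hcs 1 1 2 (by decide) ?_ ?_ ?_, hpair c hcs 3 3 4 (by decide) ?_ ?_ ?_,
      hpair c hcs 5 5 6 (by decide) ?_ ?_ ?_, hpair c hcs 7 7 0 (by decide) ?_ ?_ ?_⟩ <;>
      simp only [hqB _ c hc] <;> decide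
  · apply hpair c0 hc0 0 0 4 (by decide) <;> simp only [hqC] <;> decide
  · apply hpair c0 hc0 2 2 6 (by decide) <;> simp only [hqC] <;> decide
  · exact hterm false 1 5 (by decide) (by decide) (by decide) (by decide)
  · exact hterm true 3 7 (by decide) (by decide) (by decide) (by decide)

theorem four_aux {α : Type} [DecidableEq α] (x1 x2 y1 y2 : α)
    (e1 : (if x1 = x1 then 1 else 0) + (if x1 = x2 then 1 else 0) +
      (if x1 = y1 then 1 else 0) + (if x1 = y2 then 1 else 0) = (0 : ZMod 2))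
    (e2 : (if x2 = x1 then 1 else 0) + (if x2 = x2 then 1 else 0) +
      (if x2 = y1 then 1 else 0) + (if x2 = y2 then 1 else 0) = (0 : ZMod 2))
    (e3 : (if y1 = x1 then 1 else 0) + (if y1 = x2 then 1 else 0) +
      (if y1 = y1 then 1 else 0) + (if y1 = y2 then 1 else 0) = (0 : ZMod 2)) :
    (x1 = x2 ∧ y1 = y2) ∨ (x1 = y1 ∧ x2 = y2) ∨ (x1 = y2 ∧ x2 = y1) := by
  have h110 : (1 : ZMod 2) + 1 = 0 := by decide
  by_cases h12 : x1 = x2
  · left
    refine ⟨h12, ?_⟩
    by_contra hne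
    subst h12
    by_cases h13 : x1 = y1
    · subst h13
      simp [hne] at e1
      revert e1; decide
    · have h31 : ¬ y1 = x1 := fun h => h13 h.symm
      simp [h31, hne] at e3
  · by_cases h13 : x1 = y1
    · right; left
      refine ⟨h13, ?_⟩
      by_contra hne
      subst h13
      have h21 : ¬ x2 = x1 := fun h => h12 h.symm
      simp [h21, hne] at e2
    · by_cases h14 : x1 = y2
      · right; right
        refine ⟨h14, ?_⟩
        by_contra hne
        subst h14
        have h21 : ¬ x2 = x1 := fun h => h12 h.symm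
        simp [h21, hne] at e2
      · exfalso
        simp [h12, h13, h14] at e1

/-- If two cc maps agree on two edges at `w`, they map the star of `w` to the same set. -/
def Same (a : FinGraph) (w : a.V) : Prop :=
  ∀ σ τ : a.E → a.E, CC a a σ → CC a a τ → ∀ c ∈ star a w, ∀ c' ∈ star a w, c ≠ c' →
    σ c = τ c → σ c' = τ c' → (star a w).image σ = (star a w).image τ

theorem Ctx.same (h : Ctx a X) (w : a.V) (hw : star a w = univ ∨ ∀ e e', Par a e e' → e = e') :
    Same a w := by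
  intro σ τ hσ hτ c hc c' hc' hcc h1 h2
  rcases hw with hw | hs
  · rw [hw, image_univ_of_surjective (h.core σ hσ).2, image_univ_of_surjective (h.core τ hτ).2]
  · obtain ⟨u, hu⟩ := h.exists_star hs hσ w
    obtain ⟨v, hv⟩ := h.exists_star hs hτ w
    by_cases huv : u = v
    · rw [← hu, ← hv, huv]
    · exfalso
      apply hcc
      apply h.cc_inj hσ
      apply h.common_edge hs huv
      · rw [hu]; exact mem_image_of_mem σ hc
      · rw [hv, h1]; exact mem_image_of_mem τ hc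
      · rw [hu]; exact mem_image_of_mem σ hc'
      · rw [hv, h2]; exact mem_image_of_mem τ hc'

theorem Ctx.ev_comp (h : Ctx a X) {σ : a.E → a.E} (hσ : CC a a σ) (p q r s : a.E)
    (heq : ev a (σ p) + ev a (σ q) = ev a (σ r) + ev a (σ s)) :
    ev a p + ev a q = ev a r + ev a s := by
  apply push_inj h σ hσ
  rw [map_add, map_add, push_ev, push_ev, push_ev, push_ev]
  exact heq

/-- Four edges at a vertex of degree at least five. -/
theorem Ctx.four (h : Ctx a X) (w : a.V) (hw : 5 ≤ (star a w).card) (p q r s : a.E)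
    (hp : p ∈ star a w) (hq : q ∈ star a w) (hr : r ∈ star a w) (hs : s ∈ star a w)
    (heq : ev a p + ev a q = ev a r + ev a s) :
    (p = q ∧ r = s) ∨ (p = r ∧ q = s) ∨ (p = s ∧ q = r) := by
  rcases h.star_min w (fun e => (if e = p then 1 else 0) + (if e = q then 1 else 0) +
      (if e = r then 1 else 0) + (if e = s then 1 else 0)) (by
    intro e he
    have g1 : ¬ e = p := by rintro rfl; exact he hp
    have g2 : ¬ e = q := by rintro rfl; exact he hq
    have g3 : ¬ e = r := by rintro rfl; exact he hr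
    have g4 : ¬ e = s := by rintro rfl; exact he hs
    simp [g1, g2, g3, g4]) (by
    intro φ hφ
    simp only [add_mul, ite_mul, one_mul, zero_mul, sum_add_distrib, sum_ite_eq', mem_univ,
      if_true]
    have h1 := congrArg (fun Y : D a => Y ⟨φ, hφ⟩) heq
    simp only [LinearMap.add_apply, ev_apply] at h1
    rw [h1, add_assoc]
    exact z2_self _) with h1 | h1
  · exact four_aux p q r s (h1 p hp) (h1 q hq) (h1 r hr)
  · exfalso
    have hsub : star a w ⊆ {p, q, r, s} := by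
      intro e he
      have h2 := h1 e he
      by_contra hcon
      simp only [mem_insert, mem_singleton, not_or] at hcon
      rw [if_neg hcon.1, if_neg hcon.2.1, if_neg hcon.2.2.1, if_neg hcon.2.2.2] at h2
      simp at h2
    have := card_le_card hsub
    have h4 : ({p, q, r, s} : Finset a.E).card ≤ 4 := card_le_four
    omega

/-- There is no vertex of degree at least five. -/
theorem Ctx.no_deg5 (h : Ctx a X) (w : a.V) (hw : 5 ≤ (star a w).card) (hsame : Same a w) :
    False := by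
  classical
  obtain ⟨c0, hc0⟩ : (star a w).Nonempty := card_pos.mp (by omega)
  have hcard : ((star a w).erase c0).card = (star a w).card - 1 := card_erase_of_mem hc0
  obtain ⟨A, hA, hAcard⟩ := exists_subset_card_eq (s := (star a w).erase c0) (n := 2) (by omega)
  set B := (star a w).erase c0 \ A with hB
  have hBcard : B.card = (star a w).card - 1 - 2 := by
    rw [hB, card_sdiff_of_subset hA, hcard, hAcard]
  have hA' : A ⊆ star a w := hA.trans (erase_subset _ _)
  have hB' : B ⊆ star a w := sdiff_subset.trans (erase_subset _ _)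
  have hcA : c0 ∉ A := fun h1 => (mem_erase.mp (hA h1)).1 rfl
  have hcB : c0 ∉ B := fun h1 => (mem_erase.mp (sdiff_subset h1)).1 rfl
  have hAB : Disjoint A B := disjoint_sdiff
  have hcov : ∀ c ∈ star a w, c ∈ A ∨ c ∈ B ∨ c = c0 := by
    intro c hc
    by_cases h1 : c ∈ A
    · exact Or.inl h1
    · by_cases h2 : c = c0
      · exact Or.inr (Or.inr h2)
      · exact Or.inr (Or.inl (mem_sdiff.mpr ⟨mem_erase.mpr ⟨h2, hc⟩, h1⟩))
  obtain ⟨a1, ha1, a2, ha2, ha12⟩ := one_lt_card.mp (show 1 < A.card by omega)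
  obtain ⟨b1, hb1, b2, hb2, hb12⟩ := one_lt_card.mp (show 1 < B.card by omega)
  obtain ⟨σ, hσ, hsA, hsB, h04, h26, hX1, hX3⟩ := h.pet w A B c0 hA' hB' hAB hc0 hcA hcB hcov
    ⟨a1, ha1⟩ ⟨b1, hb1⟩
  have sA : ∀ i j, (∀ c ∈ A, σ i c = σ j c) →
      (star a w).image (σ i) = (star a w).image (σ j) := fun i j hij =>
    hsame (σ i) (σ j) (hσ i) (hσ j) a1 (hA' ha1) a2 (hA' ha2) ha12 (hij a1 ha1) (hij a2 ha2)
  have sB : ∀ i j, (∀ c ∈ B, σ i c = σ j c) →
      (star a w).image (σ i) = (star a w).image (σ j) := fun i j hij =>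
    hsame (σ i) (σ j) (hσ i) (hσ j) b1 (hB' hb1) b2 (hB' hb2) hb12 (hij b1 hb1) (hij b2 hb2)
  have i01 := sA 0 1 (fun c hc => (hsA c hc).1)
  have i23 := sA 2 3 (fun c hc => (hsA c hc).2.1)
  have i45 := sA 4 5 (fun c hc => (hsA c hc).2.2.1)
  have i67 := sA 6 7 (fun c hc => (hsA c hc).2.2.2)
  have i12 := sB 1 2 (fun c hc => (hsB c hc).1)
  have i34 := sB 3 4 (fun c hc => (hsB c hc).2.1)
  have i56 := sB 5 6 (fun c hc => (hsB c hc).2.2.1)
  have step : ∀ i j k, (∀ c ∈ B, σ i c = σ j c) → (∀ c ∈ A, σ j c = σ k c) →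
      (star a w).image (σ i) = (star a w).image (σ j) → σ i c0 = σ k c0 →
      σ j c0 = σ i c0 := by
    intro i j k hij hjk himg heq
    have h1 : σ i c0 ∈ (star a w).image (σ j) := by
      rw [← himg]; exact mem_image_of_mem _ hc0
    obtain ⟨z, hz, hzc⟩ := mem_image.mp h1
    rcases hcov z hz with h2 | h2 | h2
    · rw [hjk z h2, heq] at hzc
      have := h.cc_inj (hσ k) hzc
      rw [this] at h2
      exact absurd h2 hcA
    · rw [← hij z h2] at hzc
      have := h.cc_inj (hσ i) hzc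
      rw [this] at h2
      exact absurd h2 hcB
    · rw [h2] at hzc; exact hzc
  have hmem : ∀ i, (star a w).image (σ i) = (star a w).image (σ 0) →
      ∃ z ∈ star a w, σ 0 z = σ i c0 := by
    intro i hi
    have h1 : σ i c0 ∈ (star a w).image (σ 0) := by
      rw [← hi]; exact mem_image_of_mem _ hc0
    obtain ⟨z, hz, hzc⟩ := mem_image.mp h1
    exact ⟨z, hz, hzc⟩
  obtain ⟨z1, hz1, e1⟩ := hmem 1 i01.symm
  obtain ⟨z3, hz3, e3⟩ := hmem 3 (by rw [← i23, ← i12, ← i01])
  obtain ⟨z5, hz5, e5⟩ := hmem 5 (by rw [← i45, ← i34, ← i23, ← i12, ← i01])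
  obtain ⟨z7, hz7, e7⟩ := hmem 7 (by rw [← i67, ← i56, ← i45, ← i34, ← i23, ← i12, ← i01])
  have hpair := h.four w hw z1 z5 z3 z7 hz1 hz5 hz3 hz7 (by
    apply h.ev_comp (hσ 0)
    rw [e1, e5, e3, e7, hX1, hX3])
  rcases hpair with ⟨h1, _⟩ | ⟨h1, h2⟩ | ⟨h1, h2⟩
  · rw [← e1, ← e5, h1, z2_self] at hX1
    exact h.ne hX1.symm
  · have c13 : σ 1 c0 = σ 3 c0 := by rw [← e1, ← e3, h1]
    have c57 : σ 5 c0 = σ 7 c0 := by rw [← e5, ← e7, h2]
    have s1 := step 1 2 3 (fun c hc => (hsB c hc).1) (fun c hc => (hsA c hc).2.1) i12 c13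
    have s2 := step 5 6 7 (fun c hc => (hsB c hc).2.2.1) (fun c hc => (hsA c hc).2.2.2) i56 c57
    rw [← s1, ← s2, h26, z2_self] at hX1
    exact h.ne hX1.symm
  · have c17 : σ 7 c0 = σ 1 c0 := by rw [← e1, ← e7, h1]
    have c53 : σ 3 c0 = σ 5 c0 := by rw [← e5, ← e3, h2]
    have s1 := step 3 4 5 (fun c hc => (hsB c hc).2.1) (fun c hc => (hsA c hc).2.2.1) i34 c53
    have s2 := step 7 0 1 (fun c hc => (hsB c hc).2.2.2) (fun c hc => (hsA c hc).1)
      (sB 7 0 (fun c hc => (hsB c hc).2.2.2)) c17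
    rw [← s1, ← s2, h04, z2_self] at hX3
    exact h.ne hX3.symm

end Pool.Agent.CCO
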