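import Pool.Agent.CCO.Defs

set_option autoImplicit false

namespace Pool.Agent.CCO

open Finset

/-- Splitting a cc map into a disjoint union. -/
theorem cc_split_left {B G H : FinGraph} {f : B.E → (union G H).E} (hf : CC B (union G H) f)
    (φ : G.E → ZMod 2) (hφ : IsFlow G φ) :
    IsFlow B (fun e => Sum.elim φ (fun _ => 0) (f e)) :=
  hf (Sum.elim φ (fun _ => 0)) ((isFlow_union G H _).mpr ⟨hφ, isFlow_zero H⟩)

theorem cc_split_right {B G H : FinGraph} {f : B.E → (union G H).E} (hf : CC B (union G H) f)
    (φ : H.E → ZMod 2) (hφ : IsFlow H φ) :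
    IsFlow B (fun e => Sum.elim (fun _ => 0) φ (f e)) :=
  hf (Sum.elim (fun _ => 0) φ) ((isFlow_union G H _).mpr ⟨isFlow_zero G, hφ⟩)

/-- The graph `B` associated with a pair `a < b`. -/
theorem exists_B (a b : FinGraph) (hab : Lt a b) :
    ∃ B : FinGraph, Le B b ∧ Le b (union a B) ∧ ¬ Le B a ∧ (∀ ε : B.E, B.fst ε ≠ B.snd ε) ∧
      ∀ f : B.E → (union a B).E, CC B (union a B) f →
        ∃ g : B.E → B.E, Function.Bijective g ∧ ∀ e, f e = Sum.inr (g e) := by
  classical
  obtain ⟨hab1, hab2⟩ := hab
  have hex : ∃ n : ℕ, ∃ B : FinGraph, (Le B b ∧ Le b (union a B)) ∧ Fintype.card B.E = n :=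
    ⟨_, b, ⟨le_refl b, le_union_right a b⟩, rfl⟩
  obtain ⟨B, ⟨hB1, hB2⟩, hBn⟩ := Nat.find_spec hex
  have hmin : ∀ C : FinGraph, Le C b → Le b (union a C) →
      Fintype.card B.E ≤ Fintype.card C.E := by
    intro C h1 h2
    rw [hBn]
    exact Nat.find_min' hex ⟨C, ⟨h1, h2⟩, rfl⟩
  have hBa : ¬ Le B a := fun h => hab2 (le_trans' hB2 (union_le (le_refl a) h))
  -- every cc endomorphism of `B` is surjective
  have hsurj : ∀ h : B.E → B.E, CC B B h → Function.Surjective h := by
    intro h hh ε
    by_contra hε
    push Not at hε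
    have hne : Nonempty {e : B.E // e ≠ ε} :=
      ⟨⟨h (Classical.choice B.nonempty), hε _⟩⟩
    have hle : Le B (contract B ε hne) := le_contract B h hh ε hε hne
    have hcard := hmin (contract B ε hne) (le_trans' (contract_le B ε hne) hB1)
      (le_trans' hB2 (union_le (le_union_left _ _) (le_trans' hle (le_union_right _ _))))
    have : Fintype.card {e : B.E // e ≠ ε} < Fintype.card B.E :=
      Fintype.card_subtype_lt (x := ε) (by simp)
    change Fintype.card B.E ≤ Fintype.card {e : B.E // e ≠ ε} at hcard
    omega
  -- `B` has no loops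
  have hloop : ∀ ε : B.E, B.fst ε ≠ B.snd ε := by
    intro ε hε
    by_cases hex2 : ∃ ε' : B.E, ε' ≠ ε
    · obtain ⟨ε', hε'⟩ := hex2
      have h1 : CC B B (fun e => if e = ε then ε' else e) := by
        intro φ hφ v
        rw [← hφ v]
        have h2 : (fun e => φ (if e = ε then ε' else e)) =
            (fun e => φ e + (if e = ε then (φ ε + φ ε') else 0)) := by
          funext e
          by_cases he : e = ε
          · rw [if_pos he, if_pos he, he, ← add_assoc, z2_self, zero_add]
          · rw [if_neg he, if_neg he, add_zero]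
        rw [h2, bd_add]
        have h3 : bd B (fun e => if e = ε then (φ ε + φ ε') else 0) v = 0 := by
          rw [bd_ite, hε]
          exact z2_self _
        rw [h3, add_zero]
      obtain ⟨e, he⟩ := hsurj _ h1 ε
      by_cases hee : e = ε
      · simp only [hee, if_true] at he
        exact hε' he
      · simp only [hee, if_false] at he
    · push Not at hex2
      apply hBa
      refine ⟨fun _ => Classical.choice a.nonempty, fun φ _ v => ?_⟩
      unfold bd
      apply sum_eq_zero
      intro e _
      rw [hex2 e, hε]
      exact z2_self _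
  refine ⟨B, hB1, hB2, hBa, hloop, ?_⟩
  intro f hf
  have hright : ∀ e, (f e).isRight = true := by
    by_contra hnot
    push Not at hnot
    obtain ⟨e0, he0⟩ := hnot
    have hne : Nonempty {e : B.E // (f e).isRight = true} := by
      by_contra hempty
      have hall : ∀ e, (f e).isLeft = true := by
        intro e
        by_contra h1
        apply hempty
        refine ⟨⟨e, ?_⟩⟩
        simpa using h1
      apply hBa
      refine ⟨fun e => (f e).getLeft (hall e), fun φ hφ => ?_⟩
      have h1 := cc_split_left hf φ hφ
      have h2 : (fun e => Sum.elim φ (fun _ => 0) (f e)) =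
          (fun e => φ ((f e).getLeft (hall e))) := by
        funext e
        obtain ⟨y, hy⟩ := Sum.isLeft_iff.mp (hall e)
        simp only [hy, Sum.elim_inl, Sum.getLeft_inl]
      rw [h2] at h1
      exact h1
    have hle1 : Le (restrict B (fun e => (f e).isRight = true) hne) B := by
      refine ⟨fun e => (f e).getRight e.2, fun φ hφ => ?_⟩
      have h1 := cc_split_right hf φ hφ
      intro v
      rw [bd_restrict B _ hne _ (fun e => Sum.elim (fun _ => 0) φ (f e))]
      · exact h1 v
      · intro e he
        obtain ⟨y, hy⟩ := Sum.isRight_iff.mp he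
        simp only [hy, Sum.elim_inr, Sum.getRight_inr]
      · intro e he
        have h2 : (f e).isLeft = true := by simpa using he
        obtain ⟨y, hy⟩ := Sum.isLeft_iff.mp h2
        simp only [hy, Sum.elim_inl]
    have hle2 : Le B (union a (restrict B (fun e => (f e).isRight = true) hne)) := by
      refine ⟨fun e => if h : (f e).isRight = true then Sum.inr ⟨e, h⟩ else
        Sum.inl ((f e).getLeft (by simpa using h)), fun φ hφ => ?_⟩
      rw [isFlow_union] at hφ
      obtain ⟨hφ1, hφ2⟩ := hφ
      have h1 := cc_split_left hf _ hφ1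
      intro v
      have h2 : (fun e => φ (if h : (f e).isRight = true then Sum.inr ⟨e, h⟩ else
          Sum.inl ((f e).getLeft (by simpa using h)))) =
          (fun e => Sum.elim (fun e => φ (Sum.inl e)) (fun _ => 0) (f e) +
            (if h : (f e).isRight = true then φ (Sum.inr ⟨e, h⟩) else 0)) := by
        funext e
        by_cases h : (f e).isRight = true
        · rw [dif_pos h, dif_pos h]
          obtain ⟨y, hy⟩ := Sum.isRight_iff.mp h
          have : Sum.elim (fun e => φ (Sum.inl e)) (fun _ => 0) (f e) = 0 := by
            simp only [hy, Sum.elim_inr]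
          rw [this, zero_add]
        · rw [dif_neg h, dif_neg h, add_zero]
          have h3 : (f e).isLeft = true := by simpa using h
          obtain ⟨y, hy⟩ := Sum.isLeft_iff.mp h3
          simp only [hy, Sum.elim_inl, Sum.getLeft_inl]
      rw [h2, bd_add]
      have h3 := h1 v
      have h4 := hφ2 v
      rw [bd_restrict B _ hne _ (fun e => if h : (f e).isRight = true then φ (Sum.inr ⟨e, h⟩)
        else 0) (fun e he => by rw [dif_pos he]) (fun e he => by rw [dif_neg he])] at h4
      rw [h3, h4, add_zero]
    have hcard := hmin (restrict B (fun e => (f e).isRight = true) hne)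
      (le_trans' hle1 hB1)
      (le_trans' hB2 (union_le (le_union_left _ _) hle2))
    have : Fintype.card {e : B.E // (f e).isRight = true} < Fintype.card B.E :=
      Fintype.card_subtype_lt (x := e0) he0
    change Fintype.card B.E ≤ Fintype.card {e : B.E // (f e).isRight = true} at hcard
    omega
  refine ⟨fun e => (f e).getRight (hright e), ?_, fun e => ?_⟩
  · have hcc : CC B B (fun e => (f e).getRight (hright e)) := by
      intro φ hφ
      have h1 := cc_split_right hf φ hφ
      have h2 : (fun e => Sum.elim (fun _ => 0) φ (f e)) =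
          (fun e => φ ((f e).getRight (hright e))) := by
        funext e
        obtain ⟨y, hy⟩ := Sum.isRight_iff.mp (hright e)
        simp only [hy, Sum.elim_inr, Sum.getRight_inr]
      rw [h2] at h1
      exact h1
    exact Function.Surjective.bijective_of_finite (hsurj _ hcc)
  · simp

/-- The graph `B` with the terminals `s, t` of `H` glued to `u` and `v`. -/
@[reducible] def glue (B H : FinGraph) (u v : B.V) (s t : H.V) : FinGraph :=
  mapV (union B H) (W := B.V ⊕ H.V)
    (Sum.elim Sum.inl (fun y => if y = s then Sum.inl u else if y = t then Sum.inl v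
      else Sum.inr y))

theorem bd_glue_inl {A : Type} [AddCommMonoid A] (B H : FinGraph) (u v : B.V) (s t : H.V)
    (hst : s ≠ t) (φ : B.E ⊕ H.E → A) (x : B.V) :
    bd (glue B H u v s t) φ (Sum.inl x) = bd B (fun e => φ (Sum.inl e)) x +
      ((if x = u then bd H (fun e => φ (Sum.inr e)) s else 0) +
      (if x = v then bd H (fun e => φ (Sum.inr e)) t else 0)) := by
  rw [bd_mapV, Fintype.sum_sum_type]
  congr 1
  · have h1 : ∀ y : B.V, (if (Sum.elim (Sum.inl : B.V → B.V ⊕ H.V)
        (fun y => if y = s then Sum.inl u else if y = t then Sum.inl v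
        else Sum.inr y) (Sum.inl y)) = Sum.inl x then bd (union B H) φ (Sum.inl y) else 0) =
        if y = x then bd B (fun e => φ (Sum.inl e)) y else 0 := by
      intro y
      rw [bd_union_inl]
      simp
    rw [sum_congr rfl (fun y _ => h1 y)]
    simp
  · have h1 : ∀ y : H.V, (if (Sum.elim (Sum.inl : B.V → B.V ⊕ H.V)
        (fun y => if y = s then Sum.inl u else if y = t then Sum.inl v
        else Sum.inr y) (Sum.inr y)) = Sum.inl x then bd (union B H) φ (Sum.inr y) else 0) =
        (if y = s then (if x = u then bd H (fun e => φ (Sum.inr e)) y else 0) else 0) +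
        (if y = t then (if x = v then bd H (fun e => φ (Sum.inr e)) y else 0) else 0) := by
      intro y
      rw [bd_union_inr]
      by_cases hs : y = s
      · have ht : ¬ y = t := fun h => hst (hs.symm.trans h)
        simp [hs, hst, eq_comm]
      · by_cases ht : y = t
        · simp [ht, hst, hst.symm, eq_comm]
        · simp [hs, ht]
    rw [sum_congr rfl (fun y _ => h1 y), sum_add_distrib]
    simp

theorem bd_glue_inr {A : Type} [AddCommMonoid A] (B H : FinGraph) (u v : B.V) (s t : H.V)
    (φ : B.E ⊕ H.E → A) (y : H.V) (hs : y ≠ s) (ht : y ≠ t) :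
    bd (glue B H u v s t) φ (Sum.inr y) = bd H (fun e => φ (Sum.inr e)) y := by
  rw [bd_mapV, Fintype.sum_sum_type]
  have h0 : ∀ x : B.V, (if (Sum.elim (Sum.inl : B.V → B.V ⊕ H.V)
        (fun y => if y = s then Sum.inl u else if y = t then Sum.inl v
        else Sum.inr y) (Sum.inl x)) = Sum.inr y then bd (union B H) φ (Sum.inl x) else 0) =
        0 := by
    intro x; simp
  rw [sum_congr rfl (fun x _ => h0 x), sum_const_zero, zero_add]
  have h1 : ∀ z : H.V, (if (Sum.elim (Sum.inl : B.V → B.V ⊕ H.V)
        (fun y => if y = s then Sum.inl u else if y = t then Sum.inl v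
        else Sum.inr y) (Sum.inr z)) = Sum.inr y then bd (union B H) φ (Sum.inr z) else 0) =
        if z = y then bd H (fun e => φ (Sum.inr e)) z else 0 := by
    intro z
    rw [bd_union_inr]
    by_cases hzs : z = s
    · have : ¬ z = y := fun h => hs (h.symm.trans hzs)
      simp [hzs, hs.symm]
    · by_cases hzt : z = t
      · simp [hzt, ht.symm]
        intro h; split_ifs at h
      · simp [hzs, hzt]
  rw [sum_congr rfl (fun z _ => h1 z)]
  simp

theorem bd_glue_inr_term {A : Type} [AddCommMonoid A] (B H : FinGraph) (u v : B.V) (s t : H.V)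
    (φ : B.E ⊕ H.E → A) (y : H.V) (hst : y = s ∨ y = t) :
    bd (glue B H u v s t) φ (Sum.inr y) = 0 := by
  rw [bd_mapV, Fintype.sum_sum_type]
  have h0 : ∀ x : B.V, (if (Sum.elim (Sum.inl : B.V → B.V ⊕ H.V)
        (fun y => if y = s then Sum.inl u else if y = t then Sum.inl v
        else Sum.inr y) (Sum.inl x)) = Sum.inr y then bd (union B H) φ (Sum.inl x) else 0) =
        0 := by
    intro x; simp
  rw [sum_congr rfl (fun x _ => h0 x), sum_const_zero, zero_add]
  apply sum_eq_zero
  intro z _
  by_cases hzs : z = s
  · simp [hzs]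
  · by_cases hzt : z = t
    · simp only [Sum.elim_inr, hzt]
      split_ifs with h1 h2 <;> first | rfl | (exfalso; revert h2; simp) | skip
      all_goals first | rfl | (simp at *)
    · have : ¬ z = y := by
        rintro rfl
        rcases hst with h | h
        · exact hzs h
        · exact hzt h
      simp [hzs, hzt, this]

/-- If `(a, b)` is an empty interval then every connected two-terminal graph mapping to `a` has a
nonzero leak. -/
theorem leak_of_gap (a b : FinGraph) (hab : Lt a b) (hgap : ∀ x, ¬ (Lt a x ∧ Lt x b))
    (H : FinGraph) (s t : H.V) (hst : s ≠ t) (hH : Le H a) (hc : Conn H s t) :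
    ∃ X : D a, X ≠ 0 ∧ Leak a H s t X := by
  classical
  obtain ⟨B, hBb, hbB, hBa, hloop, hbij⟩ := exists_B a b hab
  obtain ⟨h0, hh0⟩ := hH
  obtain ⟨p, hp⟩ := hc
  set ε : B.E := Classical.choice B.nonempty with hε
  set u := B.fst ε with hu
  set v := B.snd ε with hv
  have huv : u ≠ v := hloop ε
  set c : FinGraph := glue B H u v s t with hcdef
  -- the natural map
  have hnat : CC c (union a B) (Sum.elim Sum.inr (fun e => Sum.inl (h0 e))) :=
    cc_mapV _ (cc_elim (cc_inr a B) (cc_comp (cc_inl a B) hh0))
  have hca : Le c (union a B) := ⟨_, hnat⟩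
  have hcb : Le (union a c) b :=
    union_le hab.1 (le_trans' hca (union_le hab.1 hBb))
  -- `B` does not map to `a ⊔ c`
  have hBc : ¬ Le B (union a c) := by
    rintro ⟨f, hf⟩
    have hf' : CC B (union a B) (fun e => Sum.elim Sum.inl
        (Sum.elim Sum.inr (fun e => Sum.inl (h0 e))) (f e)) :=
      cc_comp (cc_elim (cc_inl a B) hnat) hf
    obtain ⟨g, hg, hfg⟩ := hbij _ hf'
    have hfe : ∀ e, f e = Sum.inr (Sum.inl (g e)) := by
      intro e
      have h1 := hfg e
      rcases hfe : f e with x | (x | x)
      · rw [hfe] at h1; simp at h1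
      · rw [hfe] at h1
        simp only [Sum.elim_inr, Sum.elim_inl] at h1
        rw [Sum.inr.inj h1]
      · rw [hfe] at h1; simp at h1
    -- the flow `ε + p`
    have hflow : IsFlow c (Sum.elim (fun e => if e = ε then 1 else 0) p) := by
      intro z
      rcases z with x | y
      · rw [bd_glue_inl B H u v s t hst]
        simp only [Sum.elim_inl, Sum.elim_inr]
        rw [bd_ite, hp, hp, if_pos rfl, if_neg hst, if_neg hst.symm, if_pos rfl]
        by_cases h1 : x = u
        · have h2 : ¬ x = v := fun h => huv (h1.symm.trans h)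
          have h3 : B.fst ε = x := h1.symm
          have h4 : ¬ B.snd ε = x := fun h => h2 h.symm
          rw [if_pos h3, if_neg h4, if_pos h1, if_neg h2]
          decide
        · by_cases h2 : x = v
          · have h3 : ¬ B.fst ε = x := fun h => h1 h.symm
            have h4 : B.snd ε = x := h2.symm
            rw [if_neg h3, if_pos h4, if_neg h1, if_pos h2]
            decide
          · have h3 : ¬ B.fst ε = x := fun h => h1 h.symm
            have h4 : ¬ B.snd ε = x := fun h => h2 h.symm
            rw [if_neg h3, if_neg h4, if_neg h1, if_neg h2]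
            decide
      · by_cases hs : y = s
        · exact bd_glue_inr_term B H u v s t _ y (Or.inl hs)
        · by_cases ht : y = t
          · exact bd_glue_inr_term B H u v s t _ y (Or.inr ht)
          · rw [bd_glue_inr B H u v s t _ y hs ht]
            simp only [Sum.elim_inr]
            rw [hp, if_neg hs, if_neg ht, add_zero]
    have hpull := cc_split_right hf _ hflow
    obtain ⟨e1, he1⟩ := hg.2 ε
    have hone : (fun e => Sum.elim (fun _ => 0) (Sum.elim (fun e => if e = ε then 1 else 0) p)
        (f e)) = (fun e => if e = e1 then (1 : ZMod 2) else 0) := by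
      funext e
      rw [hfe e]
      simp only [Sum.elim_inr, Sum.elim_inl]
      by_cases h : e = e1
      · rw [if_pos h, h, he1, if_pos rfl]
      · rw [if_neg h, if_neg]
        intro h'
        exact h (hg.1 (h'.trans he1.symm))
    rw [hone] at hpull
    exact hloop e1 (bd_single_loop B e1 hpull)
  have hbc : ¬ Le b (union a c) := fun h => hBc (le_trans' hBb h)
  have hca' : Le (union a c) a := by
    by_contra h
    exact hgap (union a c) ⟨⟨le_union_left a c, h⟩, ⟨hcb, hbc⟩⟩
  obtain ⟨g, hg⟩ := le_trans' (le_union_right a c) hca'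
  rw [cc_iff] at hg
  set f : H.E → a.E := fun e => g (Sum.inr e) with hf
  set gB : B.E → a.E := fun e => g (Sum.inl e) with hgB
  have hin : ∀ y, y ≠ s → y ≠ t → bd H (fun e => ev a (f e)) y = 0 := by
    intro y hs ht
    have h1 := hg (Sum.inr y)
    rw [bd_glue_inr B H u v s t _ y hs ht] at h1
    exact h1
  -- the two boundary values agree
  have hsum : bd H (fun e => ev a (f e)) s + bd H (fun e => ev a (f e)) t = 0 := by
    have h1 := sum_bd H (fun e => ev a (f e))
    rw [← sum_erase_add _ _ (mem_univ s), ← sum_erase_add _ _ (mem_erase.mpr ⟨hst.symm,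
      mem_univ t⟩), sum_eq_zero, zero_add] at h1
    · rw [add_comm]; exact h1
    · intro y hy
      simp only [mem_erase, mem_univ, and_true] at hy
      exact hin y hy.2 hy.1
  have hst2 : bd H (fun e => ev a (f e)) t = bd H (fun e => ev a (f e)) s :=
    (z2_eq hsum).symm
  refine ⟨bd H (fun e => ev a (f e)) s, ?_, f, ?_⟩
  · intro hz
    apply hBa
    refine ⟨gB, cc_iff.mpr (fun x => ?_)⟩
    have h1 := hg (Sum.inl x)
    rw [bd_glue_inl B H u v s t hst] at h1
    change bd B (fun e => ev a (gB e)) x +
      ((if x = u then bd H (fun e => ev a (f e)) s else 0) +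
      (if x = v then bd H (fun e => ev a (f e)) t else 0)) = 0 at h1
    rw [hst2, hz] at h1
    simpa using h1
  · intro y
    by_cases h1 : y = s
    · rw [if_pos h1, if_neg (fun h => hst (h1.symm.trans h)), add_zero, h1]
    · by_cases h2 : y = t
      · rw [if_neg h1, if_pos h2, zero_add, h2, hst2]
      · rw [if_neg h1, if_neg h2, hin y h1 h2, add_zero]

end Pool.Agent.CCO
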