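import Pool.Agent.CCO.Univ
import Pool.Agent.CCO.Cubic3

set_option autoImplicit false

namespace Pool.Agent.CCO

open Finset

/-- If every nonzero functional is killed by some two-terminal graph, then all of them are killed
by one two-terminal graph. -/
theorem exists_kill (a : FinGraph)
    (hno : ∀ X : D a, X ≠ 0 → ∃ (H : FinGraph) (s t : H.V), Le H a ∧ s ≠ t ∧ Conn H s t ∧
      ¬ Leak a H s t X) :
    ∃ (H : FinGraph) (s t : H.V), Le H a ∧ s ≠ t ∧ Conn H s t ∧
      ∀ X : D a, Leak a H s t X → X = 0 := by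
  classical
  have hfin : ∀ T : Finset (D a), (∀ X ∈ T, X ≠ 0) → ∃ (H : FinGraph) (s t : H.V), Le H a ∧
      s ≠ t ∧ Conn H s t ∧ ∀ X ∈ T, ¬ Leak a H s t X := by
    intro T
    induction T using Finset.induction_on with
    | empty =>
      intro _
      exact ⟨two, false, true, two_le a, by decide, two_conn, by simp⟩
    | insert X T hXT ih =>
      intro hT
      obtain ⟨H, s, t, h1, h2, h3, h4⟩ := ih (fun Y hY => hT Y (mem_insert_of_mem hY))
      obtain ⟨K, s', t', k1, k2, k3, k4⟩ := hno X (hT X (mem_insert_self _ _))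
      refine ⟨series H K t s', Sum.inl s, Sum.inr t', series_le t s' h1 k1, by simp,
        series_conn k2 h3 k3, ?_⟩
      intro Y hY hl
      obtain ⟨l1, l2⟩ := series_leak h2 k2 hl
      rw [mem_insert] at hY
      rcases hY with rfl | hY
      · exact k4 l2
      · exact h4 Y hY l1
  have : Finite (D a) := Module.finite_of_finite (ZMod 2)
  have : Fintype (D a) := Fintype.ofFinite _
  obtain ⟨H, s, t, h1, h2, h3, h4⟩ := hfin (univ.filter (fun X => X ≠ 0)) (by
    intro X hX
    simpa using hX)
  refine ⟨H, s, t, h1, h2, h3, fun X hX => ?_⟩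
  by_contra hX0
  exact h4 X (by simpa using hX0) hX

/-- A core to which not all bridgeless graphs map has an insulator. -/
theorem exists_insulator (a : FinGraph)
    (hcore : ∀ f : a.E → a.E, CC a a f → Function.Bijective f)
    (hiso : ∀ v : a.V, ∃ e, a.fst e = v ∨ a.snd e = v)
    (hnu : ¬ ∀ G : FinGraph, Bridgeless G → Le G a) :
    ∃ (H : FinGraph) (s t : H.V), Le H a ∧ s ≠ t ∧ Conn H s t ∧
      ∀ X : D a, Leak a H s t X → X = 0 := by
  apply exists_kill
  intro X hX0
  by_contra hcon
  push Not at hcon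
  have hXc : Common a X := fun H s t h1 h2 h3 => hcon H s t h1 h2 h3
  by_cases hX : ∃ e, X = ev a e
  · obtain ⟨e, rfl⟩ := hX
    exact hnu (univ_of_edge a e hXc)
  · push Not at hX
    exact Ctx.absurd' ⟨hcore, hX0, hX, hXc, hiso⟩

end Pool.Agent.CCO
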