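import Pool.Agent.CCO.Core

set_option autoImplicit false

namespace Pool.Agent.CCO

open Finset

section Explode

variable (a : FinGraph) (w : a.V) (I J : Type) [Fintype I] [DecidableEq I] [Nonempty I]
  [Fintype J] [DecidableEq J] (j : I → a.E → J)

/-- Copies of `a` indexed by `I`; the end at `w` of the edge `c` of the `i`-th copy is moved to
the junction `j i c`. -/
@[reducible] def explode : FinGraph where
  V := (I × a.V) ⊕ J
  E := I × a.E
  fintypeV := inferInstance
  fintypeE := inferInstance
  decV := inferInstance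
  decE := inferInstance
  fst := fun p => if a.fst p.2 = w then Sum.inr (j p.1 p.2) else Sum.inl (p.1, a.fst p.2)
  snd := fun p => if a.snd p.2 = w then Sum.inr (j p.1 p.2) else Sum.inl (p.1, a.snd p.2)
  nonempty := ⟨(Classical.arbitrary I, Classical.arbitrary a.E)⟩

theorem bd_explode_inl {A : Type} [AddCommMonoid A] (φ : I × a.E → A) (i : I) (v : a.V) :
    bd (explode a w I J j) φ (Sum.inl (i, v)) =
      if v = w then 0 else bd a (fun e => φ (i, e)) v := by
  have h0 : bd (explode a w I J j) φ (Sum.inl (i, v)) =
      ∑ i' : I, ∑ e : a.E, ((if (if a.fst e = w then (Sum.inr (j i' e) : (I × a.V) ⊕ J) else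
        Sum.inl (i', a.fst e)) = Sum.inl (i, v) then φ (i', e) else 0) +
        (if (if a.snd e = w then (Sum.inr (j i' e) : (I × a.V) ⊕ J) else
        Sum.inl (i', a.snd e)) = Sum.inl (i, v) then φ (i', e) else 0)) := by
    have h1 := Fintype.sum_prod_type (fun p : I × a.E =>
      ((if (explode a w I J j).fst p = Sum.inl (i, v) then φ p else 0) +
        (if (explode a w I J j).snd p = Sum.inl (i, v) then φ p else 0)))
    unfold bd
    exact h1
  rw [h0]
  have key : ∀ (i' : I) (e : a.E) (x : a.V),
      (if (if x = w then (Sum.inr (j i' e) : (I × a.V) ⊕ J) else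
        Sum.inl (i', x)) = Sum.inl (i, v) then φ (i', e) else 0) =
      if i' = i then (if v = w then 0 else if x = v then φ (i', e) else 0) else 0 := by
    intro i' e x
    by_cases hx : x = w
    · rw [if_pos hx]
      by_cases hv : v = w
      · simp [hv]
      · have : ¬ x = v := fun h => hv (h.symm.trans hx)
        simp [hv, this]
    · rw [if_neg hx]
      by_cases hi : i' = i
      · by_cases hv : v = w
        · have : ¬ x = v := fun h => hx (h.trans hv)
          simp [hv, hx]
        · simp [hi, hv]
      · simp [hi]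
  simp only [key]
  rw [sum_eq_single i]
  · by_cases hv : v = w
    · simp [hv]
    · simp only [if_true, if_neg hv]
      rfl
  · intro b _ hb
    apply sum_eq_zero
    intro e _
    rw [if_neg hb, if_neg hb, add_zero]
  · simp

theorem bd_explode_inr {A : Type} [AddCommMonoid A] (hl : ∀ e : a.E, a.fst e ≠ a.snd e)
    (φ : I × a.E → A) (r : J) :
    bd (explode a w I J j) φ (Sum.inr r) =
      ∑ i, ∑ c ∈ star a w, if j i c = r then φ (i, c) else 0 := by
  have h0 : bd (explode a w I J j) φ (Sum.inr r) =
      ∑ i' : I, ∑ e : a.E, ((if (if a.fst e = w then (Sum.inr (j i' e) : (I × a.V) ⊕ J) else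
        Sum.inl (i', a.fst e)) = Sum.inr r then φ (i', e) else 0) +
        (if (if a.snd e = w then (Sum.inr (j i' e) : (I × a.V) ⊕ J) else
        Sum.inl (i', a.snd e)) = Sum.inr r then φ (i', e) else 0)) := by
    have h1 := Fintype.sum_prod_type (fun p : I × a.E =>
      ((if (explode a w I J j).fst p = Sum.inr r then φ p else 0) +
        (if (explode a w I J j).snd p = Sum.inr r then φ p else 0)))
    unfold bd
    exact h1
  rw [h0]
  apply sum_congr rfl
  intro i _
  unfold star
  rw [sum_filter]
  apply sum_congr rfl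
  intro e _
  by_cases h1 : a.fst e = w
  · have h2 : ¬ a.snd e = w := fun h => hl e (h1.trans h.symm)
    simp [h1, h2]
  · by_cases h2 : a.snd e = w
    · simp [h1, h2]
    · simp [h1, h2]

/-- A flow on one copy gives a chain on the junctions. -/
theorem bd_copy_inr (hl : ∀ e : a.E, a.fst e ≠ a.snd e) (i0 : I) (ψ : a.E → ZMod 2) (r : J) :
    bd (explode a w I J j) (fun p => if p.1 = i0 then ψ p.2 else 0) (Sum.inr r) =
      ∑ c ∈ star a w, if j i0 c = r then ψ c else 0 := by
  rw [bd_explode_inr a w I J j hl]
  rw [sum_eq_single i0]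
  · apply sum_congr rfl
    intro c _
    simp
  · intro b _ hb
    apply sum_eq_zero
    intro c _
    simp [hb]
  · simp

theorem bd_copy_inl (i0 : I) (ψ : a.E → ZMod 2) (hψ : IsFlow a ψ) (i : I) (v : a.V) :
    bd (explode a w I J j) (fun p => if p.1 = i0 then ψ p.2 else 0) (Sum.inl (i, v)) = 0 := by
  rw [bd_explode_inl]
  by_cases hv : v = w
  · rw [if_pos hv]
  · rw [if_neg hv]
    by_cases hi : i = i0
    · have : (fun e => if (i, e).1 = i0 then ψ (i, e).2 else 0) = ψ := by
        funext e
        simp [hi]
      rw [this]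
      exact hψ v
    · have : (fun e => if (i, e).1 = i0 then ψ (i, e).2 else 0) = fun _ => 0 := by
        funext e
        simp [hi]
      rw [this]
      exact bd_zero a v

/-- Two junctions of the same copy are connected, if there is a flow through the two edges
avoiding the other edges at `w`. -/
theorem conn_copy (hl : ∀ e : a.E, a.fst e ≠ a.snd e) (i0 : I) (c c' : a.E)
    (hc : c ∈ star a w) (hc' : c' ∈ star a w) (hcc : c ≠ c') (ψ : a.E → ZMod 2)
    (hψ : IsFlow a ψ) (h1 : ψ c = 1) (h1' : ψ c' = 1)
    (h0 : ∀ x ∈ star a w, x ≠ c → x ≠ c' → ψ x = 0) :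
    Conn (explode a w I J j) (Sum.inr (j i0 c)) (Sum.inr (j i0 c')) := by
  refine ⟨fun p => if p.1 = i0 then ψ p.2 else 0, ?_⟩
  rintro (⟨i, v⟩ | r)
  · rw [bd_copy_inl a w I J j i0 ψ hψ]
    simp
  · rw [bd_copy_inr a w I J j hl]
    have hval : ∀ x ∈ star a w, (if j i0 x = r then ψ x else 0) =
        (if x = c then (if j i0 c = r then 1 else 0) else 0) +
        (if x = c' then (if j i0 c' = r then 1 else 0) else 0) := by
      intro x hx
      by_cases hxc : x = c
      · have : ¬ x = c' := fun h => hcc (hxc.symm.trans h)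
        rw [if_pos hxc, if_neg this, hxc, h1, add_zero]
      · by_cases hxc' : x = c'
        · rw [if_neg hxc, if_pos hxc', hxc', h1', zero_add]
        · rw [if_neg hxc, if_neg hxc', h0 x hx hxc hxc', add_zero, ite_self]
    rw [sum_congr rfl hval, sum_add_distrib, sum_ite_eq', sum_ite_eq', if_pos hc, if_pos hc']
    simp only [Sum.inr.injEq, eq_comm]

end Explode

variable {a : FinGraph} {X : D a}

/-- The label lemma. -/
theorem Ctx.label (h : Ctx a X) (w : a.V) {I J : Type} [Fintype I] [DecidableEq I] [Nonempty I]
    [Fintype J] [DecidableEq J] (j : I → a.E → J) (s t : J) (hst : s ≠ t)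
    (heven : ∀ c ∈ star a w, ∀ r, ∑ i, (if j i c = r then (1 : ZMod 2) else 0) = 0)
    (hconn : Conn (explode a w I J j) (Sum.inr s) (Sum.inr t)) :
    ∃ σ : I → a.E → a.E, (∀ i, CC a a (σ i)) ∧
      ∀ r, ∑ i, ∑ c ∈ star a w, (if j i c = r then ev a (σ i c) else 0) =
        (if r = s then X else 0) + (if r = t then X else 0) := by
  have hl := h.loopless
  have hle : Le (explode a w I J j) a := by
    refine ⟨fun p => p.2, cc_iff.mpr ?_⟩
    rintro (⟨i, v⟩ | r)
    · rw [bd_explode_inl]
      have : bd a (fun e => ev a (i, e).2) v = 0 := bd_ev v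
      rw [this, ite_self]
    · rw [bd_explode_inr a w I J j hl, sum_comm]
      apply sum_eq_zero
      intro c hc
      have h1 : ∀ i, (if j i c = r then ev a (i, c).2 else 0) =
          (if j i c = r then (1 : ZMod 2) else 0) • ev a c := by
        intro i
        split <;> simp
      rw [sum_congr rfl (fun i _ => h1 i), ← sum_smul, heven c hc r, zero_smul]
  obtain ⟨f, hf⟩ := h.common (explode a w I J j) (Sum.inr s) (Sum.inr t) hle
    (fun hh => hst (Sum.inr.inj hh)) hconn
  refine ⟨fun i e => f (i, e), ?_, ?_⟩
  · intro i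
    rw [cc_iff]
    have hoff : ∀ v, v ≠ w → bd a (fun e => ev a (f (i, e))) v = 0 := by
      intro v hv
      have h1 := hf (Sum.inl (i, v))
      rw [bd_explode_inl, if_neg hv] at h1
      rw [h1]
      simp
    intro v
    by_cases hv : v = w
    · subst hv
      have h1 := sum_bd a (fun e => ev a (f (i, e)))
      rw [← sum_erase_add _ _ (mem_univ v), sum_eq_zero (fun x hx => hoff x (mem_erase.mp hx).1),
        zero_add] at h1
      exact h1
    · exact hoff v hv
  · intro r
    have h1 := hf (Sum.inr r)
    rw [bd_explode_inr a w I J j hl] at h1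
    rw [h1]
    simp only [Sum.inr.injEq]

/-- The junction map of a pattern. -/
def jq {a : FinGraph} {I K : Type} (q : I → a.E → K ⊕ Bool) (i : I) (c : a.E) :
    (K × a.E) ⊕ Bool :=
  Sum.elim (fun k => Sum.inl (k, c)) Sum.inr (q i c)

/-- The pattern lemma. -/
theorem Ctx.pattern (h : Ctx a X) (w : a.V) {I K : Type} [Fintype I] [DecidableEq I]
    [Nonempty I] [Fintype K] [DecidableEq K] (q : I → a.E → K ⊕ Bool)
    (heven : ∀ c ∈ star a w, ∀ r, ∑ i, (if q i c = r then (1 : ZMod 2) else 0) = 0)
    (hconn : Conn (explode a w I ((K × a.E) ⊕ Bool) (jq q)) (Sum.inr (Sum.inr false))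
      (Sum.inr (Sum.inr true))) :
    ∃ σ : I → a.E → a.E, (∀ i, CC a a (σ i)) ∧
      (∀ c ∈ star a w, ∀ k, ∑ i, (if q i c = Sum.inl k then ev a (σ i c) else 0) = 0) ∧
      ∀ b, ∑ i, ∑ c ∈ star a w, (if q i c = Sum.inr b then ev a (σ i c) else 0) = X := by
  have hjl : ∀ i c c' k, jq q i c = Sum.inl (k, c') ↔ (q i c = Sum.inl k ∧ c = c') := by
    intro i c c' k
    unfold jq
    rcases q i c with k' | b'
    · simp
    · simp
  have hjr : ∀ i c b, jq q i c = Sum.inr b ↔ q i c = Sum.inr b := by
    intro i c b
    unfold jq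
    rcases q i c with k' | b'
    · simp
    · simp
  obtain ⟨σ, hσ, hσ2⟩ := h.label w (jq q) (Sum.inr false) (Sum.inr true) (by simp) (by
    intro c hc r
    rcases r with ⟨k, c'⟩ | b
    · by_cases hcc : c = c'
      · have h1 : ∀ i, (if jq q i c = Sum.inl (k, c') then (1 : ZMod 2) else 0) =
            if q i c = Sum.inl k then 1 else 0 := by
          intro i
          simp only [hjl, hcc, and_true]
        rw [sum_congr rfl (fun i _ => h1 i)]
        exact heven c hc _
      · apply sum_eq_zero
        intro i _
        rw [if_neg]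
        rw [hjl]
        exact fun hh => hcc hh.2
    · have h1 : ∀ i, (if jq q i c = Sum.inr b then (1 : ZMod 2) else 0) =
            if q i c = Sum.inr b then 1 else 0 := by
        intro i
        simp only [hjr]
      rw [sum_congr rfl (fun i _ => h1 i)]
      exact heven c hc _) hconn
  refine ⟨σ, hσ, ?_, ?_⟩
  · intro c hc k
    have h1 := hσ2 (Sum.inl (k, c))
    have h2 : ∀ i, ∑ c' ∈ star a w, (if jq q i c' = Sum.inl (k, c) then ev a (σ i c') else 0) =
        if q i c = Sum.inl k then ev a (σ i c) else 0 := by
      intro i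
      rw [sum_eq_single c]
      · simp only [hjl, and_true]
      · intro b _ hb
        rw [if_neg]
        rw [hjl]
        exact fun hh => hb hh.2
      · intro hh; exact absurd hc hh
    rw [sum_congr rfl (fun i _ => h2 i)] at h1
    rw [h1]
    simp
  · intro b
    have h1 := hσ2 (Sum.inr b)
    have h2 : ∀ i, ∑ c ∈ star a w, (if jq q i c = Sum.inr b then ev a (σ i c) else 0) =
        ∑ c ∈ star a w, (if q i c = Sum.inr b then ev a (σ i c) else 0) := by
      intro i
      apply sum_congr rfl
      intro c _
      simp only [hjr]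
    rw [sum_congr rfl (fun i _ => h2 i)] at h1
    rw [h1]
    cases b <;> simp

/-- The dipole gadget. -/
theorem Ctx.dipole (h : Ctx a X) (w : a.V) (I0 I1 : Finset a.E) (hd : Disjoint I0 I1)
    (ψ : a.E → ZMod 2) (hψ : IsFlow a ψ) (h0 : ∀ c ∈ star a w, c ∈ I0 → ψ c = 0)
    (h1 : ∑ c ∈ (star a w).filter (· ∈ I1), ψ c = 1) :
    ∃ σ τ : a.E → a.E, CC a a σ ∧ CC a a τ ∧ (∀ c ∈ star a w, c ∈ I0 → σ c = τ c) ∧
      ∑ c ∈ (star a w).filter (· ∈ I1), (ev a (σ c) + ev a (τ c)) = X ∧
      ∑ c ∈ (star a w).filter (fun c => c ∉ I0 ∧ c ∉ I1), (ev a (σ c) + ev a (τ c)) = X := by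
  have hl := h.loopless
  set q : Bool → a.E → Unit ⊕ Bool := fun _ c => if c ∈ I0 then Sum.inl () else
    if c ∈ I1 then Sum.inr false else Sum.inr true with hq
  have hqf : ∀ i c, q i c = Sum.inr false ↔ c ∈ I1 := by
    intro i c
    simp only [hq]
    by_cases hc : c ∈ I0
    · have : c ∉ I1 := disjoint_left.mp hd hc
      simp [hc, this]
    · by_cases hc' : c ∈ I1
      · simp [hc, hc']
      · simp [hc, hc']
  have hqt : ∀ i c, q i c = Sum.inr true ↔ (c ∉ I0 ∧ c ∉ I1) := by
    intro i c
    simp only [hq]
    by_cases hc : c ∈ I0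
    · simp [hc]
    · by_cases hc' : c ∈ I1
      · simp [hc, hc']
      · simp [hc, hc']
  have hql : ∀ i c, q i c = Sum.inl () ↔ c ∈ I0 := by
    intro i c
    simp only [hq]
    by_cases hc : c ∈ I0
    · simp [hc]
    · by_cases hc' : c ∈ I1
      · simp [hc, hc']
      · simp [hc, hc']
  have hconn : Conn (explode a w Bool ((Unit × a.E) ⊕ Bool) (jq q)) (Sum.inr (Sum.inr false))
      (Sum.inr (Sum.inr true)) := by
    refine ⟨fun p => if p.1 = false then ψ p.2 else 0, ?_⟩
    rintro (⟨i, v⟩ | r)
    · rw [bd_copy_inl a w Bool _ (jq q) false ψ hψ]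
      simp
    · rw [bd_copy_inr a w Bool _ (jq q) hl]
      rcases r with ⟨k, c'⟩ | b
      · have : ∀ c ∈ star a w, (if jq q false c = Sum.inl (k, c') then ψ c else 0) = 0 := by
          intro c hc
          by_cases hc0 : c ∈ I0
          · rw [h0 c hc hc0, ite_self]
          · rw [if_neg]
            unfold jq
            simp only [hq, if_neg hc0]
            by_cases hc' : c ∈ I1
            · simp [hc']
            · simp [hc']
        rw [sum_congr rfl this]
        simp
      · cases b
        · have : ∀ c ∈ star a w, (if jq q false c = Sum.inr false then ψ c else 0) =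
              if c ∈ I1 then ψ c else 0 := by
            intro c hc
            have : jq q false c = Sum.inr false ↔ c ∈ I1 := by
              rw [← hqf false c]
              unfold jq
              rcases q false c with k' | b' <;> simp
            simp only [this]
          rw [sum_congr rfl this, ← sum_filter, h1]
          simp
        · have h2 : ∀ c ∈ star a w, (if jq q false c = Sum.inr true then ψ c else 0) =
              ψ c + if c ∈ I1 then ψ c else 0 := by
            intro c hc
            have h3 : jq q false c = Sum.inr true ↔ (c ∉ I0 ∧ c ∉ I1) := by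
              rw [← hqt false c]
              unfold jq
              rcases q false c with k' | b' <;> simp
            simp only [h3]
            by_cases hc0 : c ∈ I0
            · have : c ∉ I1 := disjoint_left.mp hd hc0
              simp [hc0, this, h0 c hc hc0]
            · by_cases hc1 : c ∈ I1
              · simp only [hc0, hc1, not_false_iff, not_true, and_false, if_false, if_true]
                exact (z2_self _).symm
              · simp [hc0, hc1]
          rw [sum_congr rfl h2, sum_add_distrib, h.flow_star hψ, zero_add, ← sum_filter, h1]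
          simp
  obtain ⟨σ, hσ, hσ1, hσ2⟩ := h.pattern w q (by
    intro c hc r
    rw [Fintype.sum_bool]
    exact z2_self _) hconn
  refine ⟨σ false, σ true, hσ _, hσ _, ?_, ?_, ?_⟩
  · intro c hc hc0
    have h2 := hσ1 c hc ()
    rw [Fintype.sum_bool, if_pos ((hql true c).mpr hc0), if_pos ((hql false c).mpr hc0)] at h2
    exact (h.ev_inj (z2_eq h2)).symm
  · have h2 := hσ2 false
    rw [Fintype.sum_bool] at h2
    simp only [hqf] at h2
    rw [← sum_filter, ← sum_filter] at h2
    rw [sum_add_distrib, add_comm]
    exact h2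
  · have h2 := hσ2 true
    rw [Fintype.sum_bool] at h2
    simp only [hqt] at h2
    rw [← sum_filter, ← sum_filter] at h2
    rw [sum_add_distrib, add_comm]
    exact h2

end Pool.Agent.CCO
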