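import Pool.Agent.CCO.Sep

set_option autoImplicit false

namespace Pool.Agent.CCO

open Finset

/-- `e` and `e'` are equal or parallel. -/
def Par (a : FinGraph) (e e' : a.E) : Prop :=
  IsFlow a (fun x => (if x = e then 1 else 0) + (if x = e' then 1 else 0))

variable {a : FinGraph} {X : D a}

theorem par_symm {e e' : a.E} (h : Par a e e') : Par a e' e := by
  unfold Par at *
  have : (fun x : a.E => (if x = e' then (1 : ZMod 2) else 0) + (if x = e then 1 else 0)) =
      fun x => (if x = e then 1 else 0) + (if x = e' then 1 else 0) := by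
    funext x; exact add_comm _ _
  rw [this]; exact h

theorem par_refl (e : a.E) : Par a e e := by
  intro v
  have : (fun x : a.E => (if x = e then (1 : ZMod 2) else 0) + (if x = e then 1 else 0)) =
      fun _ => 0 := by
    funext x; exact z2_self _
  rw [this]; exact bd_zero a v

theorem par_trans {e e' e'' : a.E} (h : Par a e e') (h' : Par a e' e'') : Par a e e'' := by
  have h1 := isFlow_add h h'
  unfold Par
  have : (fun x : a.E => (if x = e then (1 : ZMod 2) else 0) + (if x = e' then 1 else 0) +
      ((if x = e' then 1 else 0) + (if x = e'' then 1 else 0))) =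
      fun x => (if x = e then 1 else 0) + (if x = e'' then 1 else 0) := by
    funext x
    have h2 : (if x = e' then (1 : ZMod 2) else 0) + (if x = e' then 1 else 0) = 0 := z2_self _
    calc _ = (if x = e then (1 : ZMod 2) else 0) + ((if x = e' then (1 : ZMod 2) else 0) +
        (if x = e' then 1 else 0)) + (if x = e'' then 1 else 0) := by ring
      _ = _ := by rw [h2, add_zero]
  rw [this] at h1
  exact h1

/-- Edges with the same two ends are parallel. -/
theorem par_of_ends {e e' : a.E} {u v : a.V} (huv : u ≠ v) (h1 : e ∈ star a u)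
    (h2 : e ∈ star a v) (h3 : e' ∈ star a u) (h4 : e' ∈ star a v) : Par a e e' := by
  intro x
  rw [bd_add, bd_ite, bd_ite]
  rw [mem_star] at h1 h2 h3 h4
  have key : ∀ e : a.E, (a.fst e = u ∨ a.snd e = u) → (a.fst e = v ∨ a.snd e = v) →
      (if a.fst e = x then (1 : ZMod 2) else 0) + (if a.snd e = x then 1 else 0) =
      (if u = x then 1 else 0) + (if v = x then 1 else 0) := by
    intro e h5 h6
    rcases h5 with h5 | h5
    · rcases h6 with h6 | h6
      · exact absurd (h5.symm.trans h6) huv
      · rw [h5, h6]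
    · rcases h6 with h6 | h6
      · rw [h5, h6, add_comm]
      · exact absurd (h5.symm.trans h6) huv
  rw [key e h1 h2, key e' h3 h4]
  exact z2_self _

namespace Ctx

theorem par_map (h : Ctx a X) {σ : a.E → a.E} (hσ : CC a a σ) {e e' : a.E}
    (hp : Par a e e') : Par a (σ e) (σ e') := by
  obtain ⟨τ, hτ, h1, h2⟩ := h.exists_inv hσ
  have h3 := hτ _ hp
  unfold Par
  have : (fun x : a.E => (if τ x = e then (1 : ZMod 2) else 0) + (if τ x = e' then 1 else 0)) =
      fun x => (if x = σ e then 1 else 0) + (if x = σ e' then 1 else 0) := by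
    funext x
    have h4 : ∀ y, τ x = y ↔ x = σ y := by
      intro y
      constructor
      · rintro rfl; exact (h2 x).symm
      · rintro rfl; exact h1 y
    simp only [h4]
  rw [this] at h3
  exact h3

theorem par_star (h : Ctx a X) {d x : a.E} (hp : Par a d x) {w : a.V} (hd : d ∈ star a w) :
    x ∈ star a w := by
  by_contra hx
  have h1 := h.flow_star hp w
  rw [sum_add_distrib, sum_ite_eq', sum_ite_eq', if_pos hd, if_neg hx] at h1
  exact absurd h1 (by decide)

/-- If two distinct edges are parallel then all edges are parallel. -/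
theorem star_eq_univ_of_par (h : Ctx a X) {d d' : a.E} (hdd : d ≠ d') (hp : Par a d d') :
    star a (a.fst d) = univ := by
  classical
  set Dc : Finset a.E := univ.filter (fun x => Par a d x) with hDc
  have hmem : ∀ x, x ∈ Dc ↔ Par a d x := by intro x; simp [hDc]
  have hstar : ∀ w, d ∈ star a w → ∀ r ∈ star a w, Par a d r := by
    intro w hdw
    by_contra hcon
    push Not at hcon
    obtain ⟨r, hr, hrp⟩ := hcon
    have hdr : d ≠ r := by
      rintro rfl
      exact hrp (par_refl _)
    obtain ⟨ψ, hψ, hψd, hψr, hψ0⟩ := h.exists_pass w d r hdw hr hdr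
    obtain ⟨σ, τ, hσ, hτ, h1, _, h2⟩ := h.dipole w (Dc.erase d)
      ((star a w).filter (fun x => ¬ Par a d x)) (by
        rw [disjoint_left]
        intro x hx hx'
        simp only [mem_erase, mem_filter] at hx hx'
        exact hx'.2 ((hmem x).mp hx.2)) ψ hψ (by
        intro c hc hc0
        simp only [mem_erase] at hc0
        apply hψ0 c hc hc0.1
        rintro rfl
        exact hrp ((hmem c).mp hc0.2)) (by
        rw [sum_eq_single r]
        · exact hψr
        · intro b hb hbr
          simp only [mem_filter] at hb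
          apply hψ0 b hb.1 _ hbr
          rintro rfl
          exact hb.2.2 (par_refl _)
        · intro hno
          exact absurd (by simp [hr, hrp]) hno)
    have hfil : (star a w).filter (fun c => c ∉ Dc.erase d ∧
        c ∉ (star a w).filter (fun x => ¬ Par a d x)) = {d} := by
      ext x
      simp only [mem_filter, mem_erase, mem_singleton, not_and, not_not, hmem]
      constructor
      · rintro ⟨hx, hx1, hx2⟩
        by_contra hne
        exact hx1 hne (hx2 hx)
      · rintro rfl
        exact ⟨hdw, fun hne => absurd rfl hne, fun _ => par_refl _⟩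
    rw [hfil, sum_singleton] at h2
    -- `σ d = τ d`
    have hd' : σ d' = τ d' := h1 d' (h.par_star hp hdw) (by
      rw [mem_erase, hmem]
      exact ⟨hdd.symm, hp⟩)
    have hpar : Par a (σ d) (τ d) := by
      apply par_trans (h.par_map hσ hp)
      rw [hd']
      exact par_symm (h.par_map hτ hp)
    obtain ⟨ρ, hρ, h3, h4⟩ := h.exists_inv hσ
    have h5 := h.par_map hρ hpar
    rw [h3] at h5
    have h6 : ρ (τ d) = d := by
      by_contra hne
      have h7 := h1 (ρ (τ d)) (h.par_star h5 hdw) (by
        rw [mem_erase, hmem]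
        exact ⟨hne, h5⟩)
      rw [h4] at h7
      exact hne (h.cc_inj hτ h7).symm
    have h7 : σ d = τ d := by
      rw [← h4 (τ d), h6]
    rw [h7, z2_self] at h2
    exact h.ne h2.symm
  have hsep : Sepr a Dc := by
    intro φ hφ v
    rw [bd_eq_star h.loopless]
    by_cases hv : d ∈ star a v
    · have : ∀ e ∈ star a v, (if e ∈ Dc then φ e else 0) = φ e := by
        intro e he
        rw [if_pos ((hmem e).mpr (hstar v hv e he))]
      rw [sum_congr rfl this]
      exact h.flow_star hφ v
    · apply sum_eq_zero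
      intro e he
      rw [if_neg]
      rw [hmem]
      intro hpe
      exact hv (h.par_star (par_symm hpe) he)
  rcases h.sep Dc hsep with h1 | h1
  · exfalso
    have : d ∈ Dc := (hmem d).mpr (par_refl _)
    rw [h1] at this
    exact notMem_empty _ this
  · apply eq_univ_of_forall
    intro x
    have hx : x ∈ Dc := by rw [h1]; exact mem_univ x
    exact h.par_star ((hmem x).mp hx) (fst_mem_star d)

end Ctx

/-! ### The connectivity function -/

/-- The span of the evaluations at the edges of `L`. -/
def Sp (a : FinGraph) (L : Finset a.E) : Submodule (ZMod 2) (D a) :=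
  Submodule.span (ZMod 2) (ev a '' (L : Set a.E))

/-- The connectivity function. -/
noncomputable def lam (a : FinGraph) (L : Finset a.E) : ℕ :=
  Module.finrank (ZMod 2) (Sp a L ⊓ Sp a Lᶜ : Submodule (ZMod 2) (D a))

theorem ev_mem_Sp {L : Finset a.E} {e : a.E} (he : e ∈ L) : ev a e ∈ Sp a L :=
  Submodule.subset_span ⟨e, he, rfl⟩

theorem sum_mem_Sp {L : Finset a.E} (s : Finset a.E) (hs : s ⊆ L) :
    ∑ e ∈ s, ev a e ∈ Sp a L :=
  Submodule.sum_mem _ (fun _ he => ev_mem_Sp (hs he))

theorem Sp_mono {L M : Finset a.E} (h : L ⊆ M) : Sp a L ≤ Sp a M :=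
  Submodule.span_mono (Set.image_mono (by exact_mod_cast h))

theorem Sp_union (L M : Finset a.E) : Sp a (L ∪ M) = Sp a L ⊔ Sp a M := by
  unfold Sp
  rw [coe_union, Set.image_union, Submodule.span_union]

theorem Sp_univ : Sp a univ = ⊤ := by
  rw [eq_top_iff]
  intro Y _
  obtain ⟨Y', hY'⟩ := LinearMap.exists_extend (p := Fl a) Y
  have h1 : Y = ∑ e, Y' (fun j => if e = j then 1 else 0) • ev a e := by
    apply LinearMap.ext
    intro φ
    rw [← hY']
    rw [LinearMap.sum_apply]
    simp only [LinearMap.smul_apply, ev_apply, LinearMap.comp_apply, Submodule.subtype_apply]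
    rw [LinearMap.pi_apply_eq_sum_univ Y' φ.1]
    apply sum_congr rfl
    intro e _
    rw [smul_eq_mul, smul_eq_mul, mul_comm]
  rw [h1]
  exact Submodule.sum_mem _ (fun e _ => Submodule.smul_mem _ _ (ev_mem_Sp (mem_univ e)))

instance finite_D (a : FinGraph) : Module.Finite (ZMod 2) (D a) := inferInstance

theorem lam_compl (L : Finset a.E) : lam a Lᶜ = lam a L := by
  unfold lam
  rw [compl_compl, inf_comm]

theorem rank_add (L : Finset a.E) :
    Module.finrank (ZMod 2) (Sp a L) + Module.finrank (ZMod 2) (Sp a Lᶜ) =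
      Module.finrank (ZMod 2) (D a) + lam a L := by
  have h1 := Submodule.finrank_sup_add_finrank_inf_eq (Sp a L) (Sp a Lᶜ)
  rw [← Sp_union, union_compl, Sp_univ, finrank_top] at h1
  unfold lam
  omega

theorem rank_submod (L M : Finset a.E) :
    Module.finrank (ZMod 2) (Sp a (L ∩ M)) + Module.finrank (ZMod 2) (Sp a (L ∪ M)) ≤
      Module.finrank (ZMod 2) (Sp a L) + Module.finrank (ZMod 2) (Sp a M) := by
  have h1 := Submodule.finrank_sup_add_finrank_inf_eq (Sp a L) (Sp a M)
  rw [← Sp_union] at h1
  have h2 : Module.finrank (ZMod 2) (Sp a (L ∩ M)) ≤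
      Module.finrank (ZMod 2) (Sp a L ⊓ Sp a M : Submodule (ZMod 2) (D a)) :=
    Submodule.finrank_mono (le_inf (Sp_mono inter_subset_left) (Sp_mono inter_subset_right))
  omega

theorem lam_submod (L M : Finset a.E) :
    lam a (L ∩ M) + lam a (L ∪ M) ≤ lam a L + lam a M := by
  have h1 := rank_add (a := a) L
  have h2 := rank_add (a := a) M
  have h3 := rank_add (a := a) (L ∩ M)
  have h4 := rank_add (a := a) (L ∪ M)
  have h5 := rank_submod (a := a) L M
  have h6 := rank_submod (a := a) Lᶜ Mᶜ
  rw [← compl_union, ← compl_inter] at h6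
  omega

/-- Over `ZMod 2` a space of dimension at most one has at most one nonzero element. -/
theorem thin {W : Submodule (ZMod 2) (D a)} (hW : Module.finrank (ZMod 2) W ≤ 1) {y y' : D a}
    (hy : y ∈ W) (hy' : y' ∈ W) (h0 : y ≠ 0) (h0' : y' ≠ 0) : y = y' := by
  obtain ⟨v, hv⟩ := finrank_le_one_iff.mp hW
  obtain ⟨c, hc⟩ := hv ⟨y, hy⟩
  obtain ⟨c', hc'⟩ := hv ⟨y', hy'⟩
  have h1 : y = c • (v : D a) := (congrArg Subtype.val hc).symm
  have h2 : y' = c' • (v : D a) := (congrArg Subtype.val hc').symm
  rcases zmod2_cases c with h3 | h3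
  · rw [h3, zero_smul] at h1; exact absurd h1 h0
  · rcases zmod2_cases c' with h4 | h4
    · rw [h4, zero_smul] at h2; exact absurd h2 h0'
    · rw [h1, h2, h3, h4]

/-- The push-forward of functionals along a cc map. -/
noncomputable def push (σ : a.E → a.E) (hσ : CC a a σ) : D a →ₗ[ZMod 2] D a :=
  LinearMap.dualMap
    { toFun := fun φ : Fl a => (⟨fun e => φ.1 (σ e), hσ φ.1 φ.2⟩ : Fl a)
      map_add' := fun _ _ => rfl
      map_smul' := fun _ _ => rfl }

theorem push_ev (σ : a.E → a.E) (hσ : CC a a σ) (e : a.E) :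
    push σ hσ (ev a e) = ev a (σ e) := by
  apply LinearMap.ext
  intro φ
  rfl

theorem push_inj (h : Ctx a X) (σ : a.E → a.E) (hσ : CC a a σ) :
    Function.Injective (push σ hσ) := by
  obtain ⟨τ, hτ, h1, h2⟩ := h.exists_inv hσ
  have h3 : ∀ Y : D a, push τ hτ (push σ hσ Y) = Y := by
    intro Y
    apply LinearMap.ext
    intro φ
    change Y ⟨fun e => φ.1 (τ (σ e)), _⟩ = Y φ
    congr 1
    apply Subtype.ext
    funext e
    change φ.1 (τ (σ e)) = φ.1 e
    rw [h1]
  intro Y Z hYZ
  rw [← h3 Y, ← h3 Z, hYZ]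

theorem Sp_image (σ : a.E → a.E) (hσ : CC a a σ) (L : Finset a.E) :
    Sp a (L.image σ) = (Sp a L).map (push σ hσ) := by
  unfold Sp
  rw [Submodule.map_span, coe_image, Set.image_image, Set.image_image]
  congr 1

namespace Ctx

theorem image_compl (h : Ctx a X) {σ : a.E → a.E} (hσ : CC a a σ) (L : Finset a.E) :
    (L.image σ)ᶜ = Lᶜ.image σ := by
  have hb := h.core σ hσ
  ext x
  obtain ⟨y, rfl⟩ := hb.2 x
  simp only [mem_compl, mem_image, hb.1.eq_iff]
  simp

theorem lam_image (h : Ctx a X) {σ : a.E → a.E} (hσ : CC a a σ) (L : Finset a.E) :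
    lam a (L.image σ) = lam a L := by
  unfold lam
  rw [h.image_compl hσ, Sp_image σ hσ, Sp_image σ hσ,
    ← Submodule.map_inf _ (push_inj h σ hσ)]
  exact (Submodule.equivMapOfInjective (push σ hσ) (push_inj h σ hσ) _).finrank_eq.symm

end Ctx

end Pool.Agent.CCO
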