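import Pool.Agent.CCO.Lam

set_option autoImplicit false

namespace Pool.Agent.CCO

open Finset

/-- `L` is a 2-separation. -/
def TwoSep (a : FinGraph) (L : Finset a.E) : Prop := lam a L ≤ 1 ∧ 2 ≤ L.card ∧ 2 ≤ Lᶜ.card

variable {a : FinGraph} {X : D a}

namespace Ctx

theorem star_part (h : Ctx a X) (L : Finset a.E) (v : a.V) :
    ∑ e ∈ (star a v).filter (· ∈ L), ev a e = ∑ e ∈ (star a v).filter (· ∉ L), ev a e := by
  apply z2_eq
  rw [sum_filter_add_sum_filter_not]
  exact h.star_sum v

theorem star_part_mem (h : Ctx a X) (L : Finset a.E) (v : a.V) :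
    ∑ e ∈ (star a v).filter (· ∈ L), ev a e ∈ Sp a L ⊓ Sp a Lᶜ := by
  refine ⟨sum_mem_Sp _ (fun e he => (mem_filter.mp he).2), ?_⟩
  rw [h.star_part]
  exact sum_mem_Sp _ (fun e he => mem_compl.mpr (mem_filter.mp he).2)

theorem lam_pos (h : Ctx a X) (L : Finset a.E) (h1 : L ≠ ∅) (h2 : L ≠ univ) :
    1 ≤ lam a L := by
  by_contra hcon
  have h0 : lam a L = 0 := by omega
  unfold lam at h0
  rw [Submodule.finrank_eq_zero] at h0
  have hsep : Sepr a L := by
    intro φ hφ v
    rw [bd_eq_star h.loopless]
    have h3 := h.star_part_mem L v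
    rw [h0, Submodule.mem_bot] at h3
    have h4 := ev_sum_apply ((star a v).filter (· ∈ L)) id ⟨φ, hφ⟩
    rw [show (∑ i ∈ (star a v).filter (· ∈ L), ev a (id i)) =
      ∑ e ∈ (star a v).filter (· ∈ L), ev a e from rfl, h3] at h4
    rw [← sum_filter]
    exact h4.symm
  rcases h.sep L hsep with h3 | h3
  · exact h1 h3
  · exact h2 h3

/-- There are no 2-separations if there are no parallel edges. -/
theorem no_twoSep (h : Ctx a X) (hs : ∀ e e', Par a e e' → e = e') (L : Finset a.E) :
    ¬ TwoSep a L := by
  intro hL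
  have hex : ∃ n : ℕ, ∃ M : Finset a.E, TwoSep a M ∧ M.card = n := ⟨_, L, hL, rfl⟩
  classical
  obtain ⟨M, hM, hMn⟩ := Nat.find_spec hex
  have hmin : ∀ N : Finset a.E, TwoSep a N → M.card ≤ N.card := by
    intro N h1
    rw [hMn]
    exact Nat.find_min' hex ⟨N, h1, rfl⟩
  obtain ⟨hM1, hM2, hM3⟩ := hM
  -- `M` has at least three elements
  have hcard3 : 3 ≤ M.card := by
    by_contra hlt
    have h2 : M.card = 2 := by omega
    obtain ⟨x, y, hxy, hMxy⟩ := card_eq_two.mp h2
    have hpot : ∀ p ∈ M, (∃ φ, IsFlow a φ ∧ (∀ t ∈ Mᶜ, φ t = 0) ∧ φ p = 1) ∨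
        ev a p ∈ Sp a M ⊓ Sp a Mᶜ := by
      intro p hp
      rcases flow_or_potential a Mᶜ p (by simpa using hp) with h1 | ⟨z, hz⟩
      · exact Or.inl h1
      · right
        refine ⟨ev_mem_Sp hp, ?_⟩
        have h3 := bd_pair a (ev a) z
        have h4 : ∑ v, z v • bd a (ev a) v = 0 := by
          apply sum_eq_zero
          intro v _
          rw [bd_ev, smul_zero]
        rw [h4, ← sum_filter_add_sum_filter_not univ (· ∈ M)] at h3
        have h5 : ∑ e ∈ univ.filter (· ∈ M), (z (a.fst e) + z (a.snd e)) • ev a e = ev a p := by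
          rw [sum_eq_single p]
          · rw [hz p (by simpa using hp), if_pos rfl, one_smul]
          · intro b hb hbp
            rw [hz b (by simpa using hb), if_neg hbp, zero_smul]
          · intro hno; exact absurd (by simpa using hp) hno
        rw [h5] at h3
        rw [z2_eq h3.symm]
        exact Submodule.sum_mem _ (fun e he => Submodule.smul_mem _ _
          (ev_mem_Sp (by simpa using he)))
    have hflow : ∃ φ, IsFlow a φ ∧ (∀ t ∈ Mᶜ, φ t = 0) ∧ ∃ p, φ p = 1 := by
      rcases hpot x (by rw [hMxy]; simp) with ⟨φ, h1, h3, h4⟩ | h1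
      · exact ⟨φ, h1, h3, x, h4⟩
      · rcases hpot y (by rw [hMxy]; simp) with ⟨φ, h3, h4, h5⟩ | h3
        · exact ⟨φ, h3, h4, y, h5⟩
        · exact absurd (h.ev_inj (thin hM1 h1 h3 (h.ev_ne x) (h.ev_ne y))) hxy
    obtain ⟨φ, hφ, hφ0, p, hp⟩ := hflow
    have hoff : ∀ t, t ≠ x → t ≠ y → φ t = 0 := by
      intro t h1 h3
      apply hφ0
      rw [mem_compl, hMxy]
      simp [h1, h3]
    have hform : φ = fun t => (if t = x then φ x else 0) + (if t = y then φ y else 0) := by
      funext t
      by_cases h1 : t = x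
      · have h3 : ¬ t = y := fun h3 => hxy (h1.symm.trans h3)
        rw [if_pos h1, if_neg h3, h1, add_zero]
      · by_cases h3 : t = y
        · rw [if_neg h1, if_pos h3, h3, zero_add]
        · rw [if_neg h1, if_neg h3, hoff t h1 h3, add_zero]
    rcases zmod2_cases (φ x) with hx | hx
    · rcases zmod2_cases (φ y) with hy | hy
      · rw [hform, hx, hy] at hp
        simp at hp
      · rw [hx, hy] at hform
        have h1 : φ = fun t => if t = y then 1 else 0 := by
          rw [hform]; funext t; simp
        rw [h1] at hφ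
        exact h.loopless y (bd_single_loop a y hφ)
    · rcases zmod2_cases (φ y) with hy | hy
      · rw [hx, hy] at hform
        have h1 : φ = fun t => if t = x then 1 else 0 := by
          rw [hform]; funext t; simp
        rw [h1] at hφ
        exact h.loopless x (bd_single_loop a x hφ)
      · rw [hx, hy] at hform
        rw [hform] at hφ
        exact hxy (hs x y hφ)
  -- uncrossing
  have huncross : ∀ N N' : Finset a.E, TwoSep a N → TwoSep a N' → N.card = M.card →
      N'.card = M.card → (N ∩ N').Nonempty → N = N' := by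
    intro N N' hN hN' hc hc' hne
    by_contra hNN
    have hd1 : (N \ N').Nonempty := by
      rw [nonempty_iff_ne_empty]
      intro h1
      rw [sdiff_eq_empty_iff_subset] at h1
      exact hNN (eq_of_subset_of_card_le h1 (by omega))
    have hd2 : (N' \ N).Nonempty := by
      rw [nonempty_iff_ne_empty]
      intro h1
      rw [sdiff_eq_empty_iff_subset] at h1
      exact hNN (eq_of_subset_of_card_le h1 (by omega)).symm
    have hcount : (N ∩ N').card + (N \ N').card = N.card := card_inter_add_card_sdiff N N'
    have hcount' : (N' ∩ N).card + (N' \ N).card = N'.card := card_inter_add_card_sdiff N' N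
    rw [inter_comm N' N] at hcount'
    have hnepos : 0 < (N ∩ N').card := card_pos.mpr hne
    have hd1pos : 0 < (N \ N').card := card_pos.mpr hd1
    have hNc := card_add_card_compl N
    -- first uncrossing
    have hs1 := lam_submod (a := a) N N'ᶜ
    have e1 : N ∩ N'ᶜ = N \ N' := by rw [sdiff_eq_inter_compl]
    have e2 : N ∪ N'ᶜ = (N' \ N)ᶜ := by
      rw [sdiff_eq_inter_compl, compl_inter, compl_compl, union_comm]
    rw [e1, e2, lam_compl, lam_compl] at hs1
    have hne1 : N \ N' ≠ univ := by
      intro h1
      have h2 := hN.2.2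
      have h3 : N = univ := by
        apply eq_univ_of_forall
        intro x
        have : x ∈ N \ N' := by rw [h1]; exact mem_univ x
        exact (mem_sdiff.mp this).1
      rw [h3, compl_univ, card_empty] at h2
      omega
    have hne2 : N' \ N ≠ univ := by
      intro h1
      have h2 := hN'.2.2
      have h3 : N' = univ := by
        apply eq_univ_of_forall
        intro x
        have : x ∈ N' \ N := by rw [h1]; exact mem_univ x
        exact (mem_sdiff.mp this).1
      rw [h3, compl_univ, card_empty] at h2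
      omega
    have hp1 := h.lam_pos (N \ N') (nonempty_iff_ne_empty.mp hd1) hne1
    have hp2 := h.lam_pos (N' \ N) (nonempty_iff_ne_empty.mp hd2) hne2
    have hl1 := hN.1
    have hl2 := hN'.1
    have hlam1 : lam a (N \ N') ≤ 1 := by omega
    have hsmall : (N \ N').card ≤ 1 := by
      by_contra hbig
      have htwo : TwoSep a (N \ N') := by
        refine ⟨hlam1, by omega, ?_⟩
        calc 2 ≤ Nᶜ.card := hN.2.2
          _ ≤ (N \ N')ᶜ.card := card_le_card (compl_subset_compl.mpr sdiff_subset)
      have := hmin _ htwo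
      omega
    -- second uncrossing
    have hs2 := lam_submod (a := a) N N'
    have hsmall2 : (N' \ N).card ≤ 1 := by omega
    by_cases hU : N ∪ N' = univ
    · have h1 : Nᶜ ⊆ N' \ N := by
        intro x hx
        rw [mem_compl] at hx
        rw [mem_sdiff]
        have : x ∈ N ∪ N' := by rw [hU]; exact mem_univ x
        rw [mem_union] at this
        exact ⟨this.resolve_left hx, hx⟩
      have h2 := card_le_card h1
      have h3 := hN.2.2
      omega
    · have hne3 : N ∪ N' ≠ ∅ := by
        intro h1
        rw [union_eq_empty] at h1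
        rw [h1.1, card_empty] at hc
        omega
      have hp3 := h.lam_pos (N ∪ N') hne3 hU
      have hlam2 : lam a (N ∩ N') ≤ 1 := by omega
      have htwo : TwoSep a (N ∩ N') := by
        refine ⟨hlam2, by omega, ?_⟩
        calc 2 ≤ Nᶜ.card := hN.2.2
          _ ≤ (N ∩ N')ᶜ.card := card_le_card (compl_subset_compl.mpr inter_subset_left)
      have := hmin _ htwo
      omega
  -- a boundary vertex
  have hbdry : ∃ u : a.V, ((star a u).filter (· ∈ M)).Nonempty ∧
      ((star a u).filter (· ∉ M)).Nonempty := by
    by_contra hno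
    push Not at hno
    have hsep : Sepr a M := by
      intro φ hφ v
      rw [bd_eq_star h.loopless]
      by_cases h1 : ((star a v).filter (· ∈ M)).Nonempty
      · have h2 := hno v h1
        have h3 : ∀ e ∈ star a v, (if e ∈ M then φ e else 0) = φ e := by
          intro e he
          by_cases h4 : e ∈ M
          · rw [if_pos h4]
          · exfalso
            have : e ∈ (star a v).filter (· ∉ M) := by simp [he, h4]
            rw [h2] at this
            exact notMem_empty _ this
        rw [sum_congr rfl h3]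
        exact h.flow_star hφ v
      · rw [not_nonempty_iff_eq_empty] at h1
        rw [← sum_filter, h1, sum_empty]
    rcases h.sep M hsep with h1 | h1
    · rw [h1, card_empty] at hM2; omega
    · rw [h1, compl_univ, card_empty] at hM3; omega
  obtain ⟨u, hu1, hu2⟩ := hbdry
  have hbu := h.star_part_mem M u
  -- at least two edges of `M` at `u`
  have hu3 : 2 ≤ ((star a u).filter (· ∈ M)).card := by
    by_contra hlt
    have h1 : ((star a u).filter (· ∈ M)).card = 1 := by
      have := card_pos.mpr hu1
      omega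
    obtain ⟨c, hc⟩ := card_eq_one.mp h1
    have hcM : c ∈ M := by
      have : c ∈ (star a u).filter (· ∈ M) := by rw [hc]; exact mem_singleton_self c
      exact (mem_filter.mp this).2
    rw [hc, sum_singleton] at hbu
    have hcmem : ev a c ∈ Sp a Mᶜ := hbu.2
    have hle : Sp a (M.erase c)ᶜ ≤ Sp a Mᶜ := by
      unfold Sp
      rw [Submodule.span_le]
      rintro _ ⟨e, he, rfl⟩
      by_cases hec : e = c
      · rw [hec]; exact hcmem
      · apply ev_mem_Sp
        simp only [coe_compl, coe_erase, Set.mem_compl_iff, Set.mem_sdiff, mem_coe,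
          Set.mem_singleton_iff, not_and, not_not] at he
        rw [mem_compl]
        intro h2
        exact hec (he h2)
    have htwo : TwoSep a (M.erase c) := by
      refine ⟨?_, ?_, ?_⟩
      · refine _root_.le_trans ?_ hM1
        unfold lam
        exact Submodule.finrank_mono (inf_le_inf (Sp_mono (erase_subset c M)) hle)
      · rw [card_erase_of_mem hcM]; omega
      · exact _root_.le_trans hM3 (card_le_card (compl_subset_compl.mpr (erase_subset c M)))
    have := hmin _ htwo
    rw [card_erase_of_mem hcM] at this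
    omega
  obtain ⟨d1, hd1, d2, hd2, hd12⟩ := one_lt_card.mp hu3
  obtain ⟨r, hr⟩ := hu2
  simp only [mem_filter] at hd1 hd2 hr
  -- the element `b`
  set b : D a := ∑ e ∈ (star a u).filter (· ∈ M), ev a e with hb
  have hb0 : b ≠ 0 := by
    intro h0
    have h1 := h.star_min u (fun e => if e ∈ (star a u).filter (· ∈ M) then 1 else 0) (by
      intro e he
      rw [if_neg]
      intro h2
      exact he (mem_filter.mp h2).1) (by
      intro φ hφ
      have h2 := ev_sum_apply ((star a u).filter (· ∈ M)) id ⟨φ, hφ⟩
      rw [show (∑ i ∈ (star a u).filter (· ∈ M), ev a (id i)) = b from rfl, h0] at h2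
      simp only [ite_mul, one_mul, zero_mul]
      rw [sum_ite_mem, univ_inter]
      exact h2.symm)
    rcases h1 with h1 | h1
    · have h2 := h1 d1 hd1.1
      rw [if_pos (by simp [hd1.1, hd1.2])] at h2
      exact absurd h2 (by decide)
    · have h2 := h1 r hr.1
      rw [if_neg (by simp [hr.2])] at h2
      exact absurd h2 (by decide)
  -- the dipole at `u`
  have hd1r : d1 ≠ r := by
    rintro rfl
    exact hr.2 hd1.2
  obtain ⟨ψ, hψ, hψd, hψr, hψ0⟩ := h.exists_pass u d1 r hd1.1 hr.1 hd1r
  obtain ⟨σ, τ, hσ, hτ, h1, _, h2⟩ := h.dipole u (M.erase d1)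
    ((star a u).filter (· ∉ M)) (by
      rw [disjoint_left]
      intro x hx hx'
      simp only [mem_erase, mem_filter] at hx hx'
      exact hx'.2 hx.2) ψ hψ (by
      intro c hc hc0
      simp only [mem_erase] at hc0
      apply hψ0 c hc hc0.1
      rintro rfl
      exact hr.2 hc0.2) (by
      rw [sum_eq_single r]
      · exact hψr
      · intro b hb hbr
        simp only [mem_filter] at hb
        apply hψ0 b hb.1 _ hbr
        rintro rfl
        exact hb.2.2 hd1.2
      · intro hno
        exact absurd (by simp [hr]) hno)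
  have hfil : (star a u).filter (fun c => c ∉ M.erase d1 ∧
      c ∉ (star a u).filter (· ∉ M)) = {d1} := by
    ext x
    simp only [mem_filter, mem_erase, mem_singleton, not_and, not_not]
    constructor
    · rintro ⟨hx, hx1, hx2⟩
      by_contra hne
      exact hx1 hne (hx2 hx)
    · rintro rfl
      exact ⟨hd1.1, fun hne => absurd rfl hne, fun _ => hd1.2⟩
  rw [hfil, sum_singleton] at h2
  have hτσ : M.image σ = M.image τ := by
    apply huncross
    · refine ⟨by rw [h.lam_image hσ]; exact hM1, ?_, ?_⟩
      · rw [card_image_of_injective M (h.cc_inj hσ)]; exact hM2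
      · rw [h.image_compl hσ, card_image_of_injective _ (h.cc_inj hσ)]; exact hM3
    · refine ⟨by rw [h.lam_image hτ]; exact hM1, ?_, ?_⟩
      · rw [card_image_of_injective M (h.cc_inj hτ)]; exact hM2
      · rw [h.image_compl hτ, card_image_of_injective _ (h.cc_inj hτ)]; exact hM3
    · exact card_image_of_injective M (h.cc_inj hσ)
    · exact card_image_of_injective M (h.cc_inj hτ)
    · refine ⟨σ d2, mem_inter.mpr ⟨mem_image_of_mem σ hd2.2, ?_⟩⟩
      rw [h1 d2 hd2.1 (mem_erase.mpr ⟨hd12.symm, hd2.2⟩)]
      exact mem_image_of_mem τ hd2.2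
  have hpush : ∀ (ρ : a.E → a.E) (hρ : CC a a ρ), push ρ hρ b ∈
      Sp a (M.image ρ) ⊓ Sp a (M.image ρ)ᶜ := by
    intro ρ hρ
    rw [h.image_compl hρ, Sp_image ρ hρ, Sp_image ρ hρ]
    exact ⟨Submodule.mem_map_of_mem hbu.1, Submodule.mem_map_of_mem hbu.2⟩
  have hpush0 : ∀ (ρ : a.E → a.E) (hρ : CC a a ρ), push ρ hρ b ≠ 0 := by
    intro ρ hρ h0
    exact hb0 (push_inj h ρ hρ (by rw [h0, map_zero]))
  have heq : push σ hσ b = push τ hτ b := by
    have h3 := hpush τ hτ
    rw [← hτσ] at h3
    exact thin (by
      have := h.lam_image hσ M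
      unfold lam at this hM1
      rw [this]; exact hM1) (hpush σ hσ) h3 (hpush0 σ hσ) (hpush0 τ hτ)
  have hdec : ∀ (ρ : a.E → a.E) (hρ : CC a a ρ), push ρ hρ b =
      ev a (ρ d1) + ∑ e ∈ ((star a u).filter (· ∈ M)).erase d1, ev a (ρ e) := by
    intro ρ hρ
    rw [hb, map_sum]
    simp only [push_ev]
    rw [add_comm, sum_erase_add _ _ (by simp [hd1])]
  rw [hdec σ hσ, hdec τ hτ] at heq
  have hsame : ∑ e ∈ ((star a u).filter (· ∈ M)).erase d1, ev a (σ e) =
      ∑ e ∈ ((star a u).filter (· ∈ M)).erase d1, ev a (τ e) := by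
    apply sum_congr rfl
    intro e he
    simp only [mem_erase, mem_filter] at he
    rw [h1 e he.2.1 (mem_erase.mpr ⟨he.1, he.2.2⟩)]
  rw [hsame] at heq
  have h3 := add_right_cancel heq
  rw [h3, z2_self] at h2
  exact h.ne h2.symm

end Ctx

end Pool.Agent.CCO
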