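import Pool.Agent.CCO.Attach

set_option autoImplicit false

namespace Pool.Agent.CCO

open Finset

/-- A graph mapping to a bridgeless graph is bridgeless. -/
theorem bridgeless_mono {G H : FinGraph} (h : Le G H) (hH : Bridgeless H) : Bridgeless G := by
  rw [bridgeless_iff] at hH ⊢
  obtain ⟨f, hf⟩ := h
  intro e
  obtain ⟨φ, hφ, h1⟩ := hH (f e)
  exact ⟨fun e => φ (f e), hf φ hφ, h1⟩

/-- The lower end of an empty interval receives a map from every bridgeless graph. -/
theorem univ_of_empty (a b : FinGraph) (hab : Lt a b) (hgap : ¬ ∃ x, Lt a x ∧ Lt x b) :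
    ∀ G, Bridgeless G → Le G a := by
  obtain ⟨a', h1, h2, hcore, hiso⟩ := exists_core a
  have hab' : Lt a' b := ⟨le_trans' h2 hab.1, fun h => hab.2 (le_trans' h h2)⟩
  have hgap' : ∀ x, ¬ (Lt a' x ∧ Lt x b) := by
    rintro x ⟨hx1, hx2⟩
    exact hgap ⟨x, ⟨le_trans' h1 hx1.1, fun h => hx1.2 (le_trans' h h1)⟩, hx2⟩
  obtain ⟨X, hX0, hXc⟩ := exists_common a' (fun H s t hst hH hc =>
    leak_of_gap a' b hab' hgap' H s t hst hH hc)
  by_cases hX : ∃ e, X = ev a' e
  · obtain ⟨e, rfl⟩ := hX
    intro G hG
    exact le_trans' (univ_of_edge a' e hXc G hG) h2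
  · push Not at hX
    exact (Ctx.absurd' ⟨hcore, hX0, hX, hXc, hiso⟩).elim

/-- An odd number `k` of edges of `G` (with repetition) on which every flow has sum zero. -/
def OG (G : FinGraph) (k : ℕ) : Prop :=
  Odd k ∧ ∃ f : Fin k → G.E, ∀ φ, IsFlow G φ → ∑ i, φ (f i) = 0

theorem OG.mono {G H : FinGraph} {k : ℕ} (hG : OG G k) (h : Le G H) : OG H k := by
  obtain ⟨g, hg⟩ := h
  obtain ⟨hk, f, hf⟩ := hG
  exact ⟨hk, fun i => g (f i), fun φ hφ => hf _ (hg φ hφ)⟩

theorem OG.two {G : FinGraph} {l : ℕ} (h : OG G l) : OG G (l + 2) := by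
  obtain ⟨hl, f, hf⟩ := h
  refine ⟨hl.add_even (by decide),
    Fin.append f (fun _ : Fin 2 => Classical.choice G.nonempty), fun φ hφ => ?_⟩
  rw [Fin.sum_univ_add]
  simp only [Fin.append_left, Fin.append_right]
  rw [hf φ hφ, zero_add, Fin.sum_univ_two]
  exact z2_self _

theorem OG.up {G : FinGraph} {l k : ℕ} (h : OG G l) (hk : Odd k) (hlk : l ≤ k) : OG G k := by
  obtain ⟨m, rfl⟩ : ∃ m, k = l + 2 * m := by
    obtain ⟨c, hc⟩ := h.1
    obtain ⟨d, hd⟩ := hk
    exact ⟨d - c, by omega⟩
  clear hk hlk
  induction m with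
  | zero => exact h
  | succ m ih => exact ih.two

/-- The cut of a potential. -/
theorem sum_cut {A : Type} [AddCommGroup A] [Module (ZMod 2) A] (B : FinGraph)
    (W : B.V → ZMod 2) (ξ : B.E → A) :
    ∑ e, (W (B.fst e) + W (B.snd e)) • ξ e =
      ∑ e ∈ univ.filter (fun e => W (B.fst e) + W (B.snd e) = 1), ξ e := by
  rw [sum_filter]
  apply sum_congr rfl
  intro e _
  rcases zmod2_cases (W (B.fst e) + W (B.snd e)) with h | h
  · rw [h, zero_smul, if_neg (by decide)]
  · rw [h, one_smul, if_pos rfl]

theorem OG_of_cut (B : FinGraph) (W : B.V → ZMod 2)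
    (h : Odd (univ.filter (fun e => W (B.fst e) + W (B.snd e) = 1)).card) :
    OG B (univ.filter (fun e => W (B.fst e) + W (B.snd e) = 1)).card := by
  set C := univ.filter (fun e => W (B.fst e) + W (B.snd e) = 1) with hC
  refine ⟨h, fun i => (C.equivFin.symm i).1, fun φ hφ => ?_⟩
  rw [Equiv.sum_comp C.equivFin.symm (fun x : {x // x ∈ C} => φ x.1)]
  rw [Finset.sum_coe_sort C φ, hC, ← sum_cut B W φ, ← bd_pair]
  apply sum_eq_zero
  intro v _
  rw [hφ v, smul_zero]

theorem exists_theta (a B : FinGraph) (l : ℕ) (ha : OG a l) (hB : ∀ k, OG B k → l ≤ k)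
    (W : B.V → ZMod 2) : ∃ θ : B.E → a.E,
      ∑ e, (W (B.fst e) + W (B.snd e)) • ev a (θ e) = 0 := by
  classical
  have hkey : ∀ θ : B.E → a.E, ∑ e, (W (B.fst e) + W (B.snd e)) • ev a (θ e) =
      ∑ e ∈ univ.filter (fun e => W (B.fst e) + W (B.snd e) = 1), ev a (θ e) :=
    fun θ => sum_cut B W (fun e => ev a (θ e))
  rcases Nat.even_or_odd (univ.filter (fun e => W (B.fst e) + W (B.snd e) = 1)).card with h | h
  · refine ⟨fun _ => Classical.choice a.nonempty, ?_⟩
    rw [hkey, sum_const]
    obtain ⟨m, hm⟩ := h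
    rw [hm, add_smul]
    exact z2_self _
  · have h1 := ha.up h (hB _ (OG_of_cut B W h))
    set C := univ.filter (fun e => W (B.fst e) + W (B.snd e) = 1) with hC
    obtain ⟨_, f, hf⟩ := h1
    refine ⟨fun e => if h : e ∈ C then f (C.equivFin ⟨e, h⟩) else Classical.choice a.nonempty,
      ?_⟩
    rw [hkey, ← Finset.sum_coe_sort C]
    have h2 : ∀ x : {x // x ∈ C}, ev a (if h : x.1 ∈ C then f (C.equivFin ⟨x.1, h⟩) else
        Classical.choice a.nonempty) = ev a (f (C.equivFin x)) := by
      rintro ⟨x, hx⟩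
      rw [dif_pos hx]
    simp only [h2]
    rw [Equiv.sum_comp C.equivFin (fun i => ev a (f i))]
    apply D_ext
    intro φ hφ
    rw [ev_sum_apply]
    exact hf φ hφ

/-- A graph not mapping to `a` has an odd cut. -/
theorem exists_OG (G a : FinGraph) (h : ¬ Le G a) : ∃ k, OG G k := by
  classical
  by_contra hcon
  push Not at hcon
  apply h
  have h1 : ∀ W : G.V → ZMod 2, ∑ e, (W (G.fst e) + W (G.snd e)) • (1 : ZMod 2) = 0 := by
    intro W
    rw [sum_cut]
    rcases Nat.even_or_odd (univ.filter (fun e => W (G.fst e) + W (G.snd e) = 1)).card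
      with h | h
    · rw [sum_const]
      obtain ⟨m, hm⟩ := h
      rw [hm, add_smul]
      exact z2_self _
    · exact absurd (OG_of_cut G W h) (hcon _)
  refine ⟨fun _ => Classical.choice a.nonempty, fun φ _ v => ?_⟩
  have h2 := h1 (fun x => if x = v then 1 else 0)
  have h3 : bd G (fun _ : G.E => φ (Classical.choice a.nonempty)) v =
      φ (Classical.choice a.nonempty) * ∑ e, ((if G.fst e = v then (1 : ZMod 2) else 0) +
        (if G.snd e = v then 1 else 0)) • (1 : ZMod 2) := by
    unfold bd
    rw [mul_sum]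
    apply sum_congr rfl
    intro e _
    simp only [smul_eq_mul, mul_one, mul_add, mul_ite, mul_zero]
  rw [h3, h2, mul_zero]

/-- A bridgeless graph with only one edge maps to everything. -/
theorem single_le (B a : FinGraph) (ε : B.E) (hall : ∀ e, e = ε) (hbr : Bridgeless B) :
    Le B a := by
  rw [bridgeless_iff] at hbr
  obtain ⟨φ, hφ, hφe⟩ := hbr ε
  have h1 : φ = fun e => if e = ε then 1 else 0 := by
    funext e
    rw [if_pos (hall e), hall e, hφe]
  rw [h1] at hφ
  have hl := bd_single_loop B ε hφ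
  refine ⟨fun _ => Classical.choice a.nonempty, fun φ _ v => ?_⟩
  unfold bd
  apply sum_eq_zero
  intro e _
  rw [hall e, hl]
  exact z2_self _

theorem star_card_le (G : FinGraph) (p : G.V) : (star G p).card ≤ Fintype.card G.E :=
  card_le_univ _

/-- Two incomparable graphs in an interval. -/
theorem exists_pair (p q : FinGraph) (hpq : Lt p q) (hq : Bridgeless q) (l : ℕ) (hl : OG p l)
    (hl' : ∀ k, OG q k → l ≤ k) :
    ∃ x y : FinGraph, (Lt p x ∧ Lt x q) ∧ (Lt p y ∧ Lt y q) ∧ ¬ Le x y ∧ ¬ Le y x := by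
  classical
  obtain ⟨a, hpa, hap, hcore, hiso⟩ := exists_core p
  have haq : Le a q := le_trans' hap hpq.1
  have hqa : ¬ Le q a := fun h => hpq.2 (le_trans' h hap)
  have hnu : ¬ ∀ G : FinGraph, Bridgeless G → Le G a := fun h => hqa (h q hq)
  obtain ⟨H, s, t, hHa, hst, hconn, hins⟩ := exists_insulator a hcore hiso hnu
  have hex : ∃ n : ℕ, ∃ B : FinGraph, (Le B q ∧ ¬ Le B a) ∧ Fintype.card B.E = n :=
    ⟨_, q, ⟨le_refl q, hqa⟩, rfl⟩
  obtain ⟨B, ⟨hBq, hBa⟩, hBn⟩ := Nat.find_spec hex
  have hmin : ∀ C : FinGraph, Le C q → ¬ Le C a → Fintype.card B.E ≤ Fintype.card C.E := by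
    intro C h1 h2
    rw [hBn]
    exact Nat.find_min' hex ⟨C, ⟨h1, h2⟩, rfl⟩
  obtain ⟨ε⟩ := B.nonempty
  have hBbr : Bridgeless B := bridgeless_mono hBq hq
  have hne : ∀ ε : B.E, Nonempty {e : B.E // e ≠ ε} := by
    intro ε
    by_contra hcon
    apply hBa
    apply single_le B a ε _ hBbr
    intro e
    by_contra he
    exact hcon ⟨⟨e, he⟩⟩
  have hcontr : ∀ ε : B.E, Le (contract B ε (hne ε)) a := by
    intro ε
    by_contra hcon
    have hcard := hmin _ (le_trans' (contract_le B ε (hne ε)) hBq) hcon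
    have : Fintype.card {e : B.E // e ≠ ε} < Fintype.card B.E :=
      Fintype.card_subtype_lt (x := ε) (by simp)
    change Fintype.card B.E ≤ Fintype.card {e : B.E // e ≠ ε} at hcard
    omega
  have haOG : OG a l := hl.mono hpa
  have hodd := exists_theta a B l haOG (fun k hk => hl' k (hk.mono hBq))
  set L := Fintype.card B.E + Fintype.card H.E with hL
  set cy : FinGraph := attach B H s t (B.E × Fin (L + 1)) Prod.fst with hcy
  set K := Fintype.card cy.E with hK
  set cx : FinGraph := attach B H s t (Fin (K + 1)) (fun _ => ε) with hcx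
  have hcya : ¬ Le cy a := fun h => hBa (le_of_attach_le B H s t _ _ hst hins h)
  have hcxa : ¬ Le cx a := fun h => hBa (le_of_attach_le B H s t _ _ hst hins h)
  have hcyq : Le cy q := attach_le B H s t _ _ hBq (le_trans' hHa haq)
  have hcxq : Le cx q := attach_le B H s t _ _ hBq (le_trans' hHa haq)
  -- the numbers of pieces
  have hny : ∀ e : B.E, (univ.filter (fun j : B.E × Fin (L + 1) => j.1 = e)).card = L + 1 := by
    intro e
    have h1 : univ.filter (fun j : B.E × Fin (L + 1) => j.1 = e) =
        ({e} : Finset B.E) ×ˢ (univ : Finset (Fin (L + 1))) := by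
      ext ⟨x, y⟩
      simp [eq_comm]
    rw [h1, card_product]
    simp
  have hnx : (univ.filter (fun _ : Fin (K + 1) => ε = ε)).card = K + 1 := by
    simp
  -- `q` does not map to the two graphs
  have hBcy : ¬ Le B (union a cy) := by
    intro h
    apply hBa
    apply transfer_one a B H s t _ _ hst hconn hHa B ε (hne ε) (hcontr ε) _ h
    intro v
    rw [hny]
    have := star_card_le B v
    omega
  have hcyK : Fintype.card B.E ≤ K := by
    rw [hK]
    change Fintype.card B.E ≤ Fintype.card (B.E ⊕ ((B.E × Fin (L + 1)) × H.E))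
    rw [Fintype.card_sum]
    omega
  have hBcx : ¬ Le B (union a cx) := by
    intro h
    apply hBa
    apply transfer_one a B H s t _ _ hst hconn hHa B ε (hne ε) (hcontr ε) _ h
    intro v
    rw [hnx]
    have := star_card_le B v
    omega
  refine ⟨union a cx, union a cy, ⟨⟨le_trans' hpa (le_union_left _ _), ?_⟩,
    ⟨union_le haq hcxq, ?_⟩⟩, ⟨⟨le_trans' hpa (le_union_left _ _), ?_⟩,
    ⟨union_le haq hcyq, ?_⟩⟩, ?_, ?_⟩
  · exact fun h => hcxa (le_trans' (le_union_right _ _) (le_trans' h hpa))
  · exact fun h => hBcx (le_trans' hBq h)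
  · exact fun h => hcya (le_trans' (le_union_right _ _) (le_trans' h hpa))
  · exact fun h => hBcy (le_trans' hBq h)
  · intro h
    apply hcxa
    apply transfer_two a B H s t _ _ hst hconn hHa cx hodd (Sum.inl (B.fst ε))
      (Sum.inl (B.snd ε)) _ (le_trans' (le_union_right _ _) h)
    intro v hv1 hv2 e
    rw [hny]
    rcases v with x | ⟨j, y⟩
    · have hsub : star cx (Sum.inl x) ⊆ univ.image (fun e : B.E => (Sum.inl e : cx.E)) := by
        intro e he
        rw [mem_star] at he
        rcases e with e | ⟨j, e⟩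
        · simp
        · exfalso
          have hpos : ∀ y, pos B H s t (fun _ : Fin (K + 1) => ε) j y ≠ Sum.inl x := by
            intro y hy
            unfold pos at hy
            split_ifs at hy
            · exact hv1 hy.symm
            · exact hv2 hy.symm
          rcases he with he | he
          · exact hpos _ he
          · exact hpos _ he
      have h1 := card_le_card hsub
      have h2 := card_image_le (s := (univ : Finset B.E))
        (f := fun e : B.E => (Sum.inl e : cx.E))
      rw [card_univ] at h2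
      omega
    · have hsub : star cx (Sum.inr (j, y)) ⊆
          univ.image (fun e : H.E => (Sum.inr (j, e) : cx.E)) := by
        intro e he
        rw [mem_star] at he
        rcases e with e | ⟨j', e⟩
        · exfalso
          rcases he with he | he
          · exact Sum.inl_ne_inr he
          · exact Sum.inl_ne_inr he
        · have hpos : ∀ y', pos B H s t (fun _ : Fin (K + 1) => ε) j' y' = Sum.inr (j, y) →
              j' = j := by
            intro y' hy
            unfold pos at hy
            split_ifs at hy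
            exact (Prod.ext_iff.mp (Sum.inr.inj hy)).1
          have hj : j' = j := by
            rcases he with he | he
            · exact hpos _ he
            · exact hpos _ he
          simp [hj]
      have h1 := card_le_card hsub
      have h2 := card_image_le (s := (univ : Finset H.E))
        (f := fun e : H.E => (Sum.inr (j, e) : cx.E))
      rw [card_univ] at h2
      omega
  · intro h
    apply hcya
    apply transfer_one a B H s t _ _ hst hconn hHa cy ε (hne ε) (hcontr ε) _
      (le_trans' (le_union_right _ _) h)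
    intro v
    rw [hnx]
    have := star_card_le cy v
    omega

end Pool.Agent.CCO
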