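import Pool.Agent.CCO.Label

set_option autoImplicit false

namespace Pool.Agent.CCO

open Finset

/-- `L` is a separator: the restriction of every flow to `L` is a flow. -/
def Sepr (a : FinGraph) (L : Finset a.E) : Prop :=
  ∀ φ, IsFlow a φ → IsFlow a (fun e => if e ∈ L then φ e else 0)

variable {a : FinGraph} {X : D a}

theorem isFlow_of_off {φ : a.E → ZMod 2} (w : a.V) (h : ∀ v, v ≠ w → bd a φ v = 0) :
    IsFlow a φ := by
  intro v
  by_cases hv : v = w
  · subst hv
    have h1 := sum_bd a φ
    rw [← sum_erase_add _ _ (mem_univ v), sum_eq_zero (fun x hx => h x (mem_erase.mp hx).1),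
      zero_add] at h1
    exact h1
  · exact h v hv

theorem Sepr.inter {L M : Finset a.E} (hL : Sepr a L) (hM : Sepr a M) : Sepr a (L ∩ M) := by
  intro φ hφ
  have h1 := hL _ (hM φ hφ)
  have h2 : (fun e => if e ∈ L then (if e ∈ M then φ e else 0) else 0) =
      fun e => if e ∈ L ∩ M then φ e else 0 := by
    funext e
    by_cases h3 : e ∈ L <;> by_cases h4 : e ∈ M <;> simp [h3, h4]
  rw [h2] at h1
  exact h1

theorem Sepr.compl {L : Finset a.E} (hL : Sepr a L) {φ : a.E → ZMod 2} (hφ : IsFlow a φ) :
    IsFlow a (fun e => if e ∈ L then 0 else φ e) := by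
  have h1 := isFlow_add hφ (hL φ hφ)
  have h2 : (fun e => φ e + if e ∈ L then φ e else 0) = fun e => if e ∈ L then 0 else φ e := by
    funext e
    by_cases h3 : e ∈ L
    · rw [if_pos h3, if_pos h3]; exact z2_self _
    · rw [if_neg h3, if_neg h3, add_zero]
  rw [h2] at h1
  exact h1

namespace Ctx

theorem exists_flow (h : Ctx a X) (e : a.E) : ∃ φ, IsFlow a φ ∧ φ e = 1 := by
  by_contra hcon
  push Not at hcon
  apply h.ev_ne e
  apply LinearMap.ext
  intro φ
  rw [ev_apply]
  rcases zmod2_cases (φ.1 e) with h1 | h1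
  · rw [h1]; rfl
  · exact absurd h1 (hcon φ.1 φ.2)

/-- The image of a separator under a cc automorphism is a separator. -/
theorem sepr_image (h : Ctx a X) {L : Finset a.E} (hL : Sepr a L) {σ : a.E → a.E}
    (hσ : CC a a σ) : Sepr a (L.image σ) := by
  obtain ⟨τ, hτ, h1, h2⟩ := h.exists_inv hσ
  intro φ hφ
  have h3 := hτ _ (hL _ (hσ φ hφ))
  have h4 : (fun e => if τ e ∈ L then φ (σ (τ e)) else 0) =
      fun e => if e ∈ L.image σ then φ e else 0 := by
    funext e
    have h5 : τ e ∈ L ↔ e ∈ L.image σ := by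
      rw [mem_image]
      constructor
      · intro h6; exact ⟨τ e, h6, h2 e⟩
      · rintro ⟨x, hx, rfl⟩
        rw [h1]; exact hx
    simp only [h5, h2]
  rw [h4] at h3
  exact h3

/-- There are no proper separators. -/
theorem sep (h : Ctx a X) (L : Finset a.E) (hL : Sepr a L) : L = ∅ ∨ L = univ := by
  by_contra hcon
  push Not at hcon
  obtain ⟨hL1, hL2⟩ := hcon
  -- a minimal separator
  have hex : ∃ n : ℕ, ∃ M : Finset a.E, (Sepr a M ∧ M.Nonempty) ∧ M.card = n :=
    ⟨_, L, ⟨hL, hL1⟩, rfl⟩
  classical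
  obtain ⟨M, ⟨hM1, hM2⟩, hMn⟩ := Nat.find_spec hex
  have hmin : ∀ N : Finset a.E, Sepr a N → N.Nonempty → M.card ≤ N.card := by
    intro N h1 h2
    rw [hMn]
    exact Nat.find_min' hex ⟨N, ⟨h1, h2⟩, rfl⟩
  have hMne : ∃ e2, e2 ∉ M := by
    by_contra hno
    push Not at hno
    have h1 : M = univ := eq_univ_of_forall hno
    have h2 := hmin L hL (hL1)
    rw [h1] at h2
    exact hL2 (eq_univ_of_card L (le_antisymm (card_le_univ L) h2))
  -- invariance
  have hinv : ∀ σ : a.E → a.E, CC a a σ → ∀ e, σ e ∈ M ↔ e ∈ M := by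
    intro σ hσ
    have hinj := h.cc_inj hσ
    have himg := h.sepr_image hM1 hσ
    have hcard : (M.image σ).card = M.card := card_image_of_injective M hinj
    by_cases hne : (M ∩ M.image σ).Nonempty
    · have h1 := hmin _ (hM1.inter himg) hne
      have h2 : M ∩ M.image σ = M := eq_of_subset_of_card_le inter_subset_left h1
      have h3 : M ⊆ M.image σ := inter_eq_left.mp h2
      have h4 : M = M.image σ := eq_of_subset_of_card_le h3 (le_of_eq hcard)
      intro e
      constructor
      · intro h5
        rw [h4, mem_image] at h5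
        obtain ⟨x, hx, hxe⟩ := h5
        rw [← hinj hxe]; exact hx
      · intro h5
        rw [h4]; exact mem_image_of_mem σ h5
    · exfalso
      rw [not_nonempty_iff_eq_empty] at hne
      have hdisj : ∀ e ∈ M, σ e ∉ M := by
        intro e he he'
        have : σ e ∈ M ∩ M.image σ := mem_inter.mpr ⟨he', mem_image_of_mem σ he⟩
        rw [hne] at this
        exact absurd this (notMem_empty _)
      have hcc : CC a a (fun e => if e ∈ M then σ e else e) := by
        intro φ hφ
        have h1 := isFlow_add (hM1 _ (hσ φ hφ)) (hM1.compl hφ)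
        have h2 : (fun e => (if e ∈ M then φ (σ e) else 0) + (if e ∈ M then 0 else φ e)) =
            fun e => φ (if e ∈ M then σ e else e) := by
          funext e
          by_cases he : e ∈ M <;> simp [he]
        rw [h2] at h1
        exact h1
      obtain ⟨e, he⟩ := hM2
      have h3 := (h.core _ hcc).1 (a₁ := e) (a₂ := σ e) (by simp [he, hdisj e he])
      exact hdisj e he (h3 ▸ he)
  -- the two dipoles
  have hdip : ∀ e1 : a.E, ∃ p r : a.E, ((p ∈ M ↔ e1 ∈ M) ∧ (r ∈ M ↔ e1 ∈ M)) ∧
      ev a p + ev a r = X := by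
    intro e1
    obtain ⟨ψ, hψ, hψ1⟩ := h.exists_flow e1
    have hfil : (star a (a.fst e1)).filter (· ∈ ({e1} : Finset a.E)) = {e1} := by
      ext x
      simp only [mem_filter, mem_singleton]
      constructor
      · exact fun hx => hx.2
      · rintro rfl; exact ⟨fst_mem_star x, rfl⟩
    obtain ⟨σ, τ, hσ, hτ, _, h2, _⟩ := h.dipole (a.fst e1) ∅ {e1} (disjoint_empty_left _) ψ hψ
      (by simp) (by rw [hfil, sum_singleton, hψ1])
    rw [hfil, sum_singleton] at h2
    exact ⟨σ e1, τ e1, ⟨hinv σ hσ e1, hinv τ hτ e1⟩, h2⟩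
  obtain ⟨e1, he1⟩ := hM2
  obtain ⟨e2, he2⟩ := hMne
  obtain ⟨p, r, ⟨hp, hr⟩, hpr⟩ := hdip e1
  obtain ⟨p', r', ⟨hp', hr'⟩, hpr'⟩ := hdip e2
  rw [iff_true_intro he1, iff_true] at hp hr
  rw [iff_false_intro he2, iff_false] at hp' hr'
  apply h.ne
  apply LinearMap.ext
  intro φ
  have h1 : φ = ⟨_, hM1 φ.1 φ.2⟩ + ⟨_, hM1.compl φ.2⟩ := by
    apply Subtype.ext
    funext e
    change φ.1 e = (if e ∈ M then φ.1 e else 0) + (if e ∈ M then 0 else φ.1 e)
    by_cases he : e ∈ M <;> simp [he]
  have h2 : X ⟨_, hM1 φ.1 φ.2⟩ = 0 := by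
    rw [← hpr', LinearMap.add_apply, ev_apply, ev_apply]
    simp [hp', hr']
  have h3 : X ⟨_, hM1.compl φ.2⟩ = 0 := by
    rw [← hpr, LinearMap.add_apply, ev_apply, ev_apply]
    simp [hp, hr]
  rw [h1, map_add, h2, h3]
  simp

/-- A cut contained in the star of a vertex is empty or the whole star. -/
theorem star_min (h : Ctx a X) (w : a.V) (x : a.E → ZMod 2) (hx : ∀ e, e ∉ star a w → x e = 0)
    (hsum : ∀ φ, IsFlow a φ → ∑ e, x e * φ e = 0) :
    (∀ e ∈ star a w, x e = 0) ∨ (∀ e ∈ star a w, x e = 1) := by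
  obtain ⟨z, hz⟩ := exists_potential a x hsum
  set z' : a.V → ZMod 2 := fun v => z v + z w with hz'
  have hz'w : z' w = 0 := z2_self _
  have hxz : ∀ e, x e = z' (a.fst e) + z' (a.snd e) := by
    intro e
    rw [hz e]
    simp only [hz']
    have : z w + z w = 0 := z2_self _
    calc z (a.fst e) + z (a.snd e) = z (a.fst e) + z (a.snd e) + (z w + z w) := by
          rw [this, add_zero]
      _ = _ := by ring
  set L : Finset a.E := univ.filter (fun e => z' (a.fst e) = 1 ∨ z' (a.snd e) = 1) with hL
  have hmemL : ∀ e, e ∈ L ↔ (z' (a.fst e) = 1 ∨ z' (a.snd e) = 1) := by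
    intro e; simp [hL]
  have hsep : Sepr a L := by
    intro φ hφ
    apply isFlow_of_off w
    intro v hv
    rw [bd_eq_star h.loopless]
    rcases zmod2_cases (z' v) with h1 | h1
    · apply sum_eq_zero
      intro e he
      rw [if_neg]
      rw [hmemL]
      intro h2
      -- `e` joins `v` and a vertex with `z' = 1`
      have hes : e ∉ star a w := by
        intro hew
        rw [mem_star] at he hew
        rcases he with he | he
        · rcases hew with hew | hew
          · exact hv (he.symm.trans hew)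
          · rw [he, hew, h1, hz'w] at h2
            revert h2; decide
        · rcases hew with hew | hew
          · rw [he, hew, h1, hz'w] at h2
            revert h2; decide
          · exact hv (he.symm.trans hew)
      have h3 := hx e hes
      rw [hxz] at h3
      rw [mem_star] at he
      rcases he with he | he
      · rw [he, h1] at h3 h2
        rw [zero_add] at h3
        rw [h3] at h2
        revert h2; decide
      · rw [he, h1] at h3 h2
        rw [add_zero] at h3
        rw [h3] at h2
        revert h2; decide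
    · have : ∀ e ∈ star a v, (if e ∈ L then φ e else 0) = φ e := by
        intro e he
        rw [if_pos]
        rw [hmemL]
        rw [mem_star] at he
        rcases he with he | he
        · left; rw [he]; exact h1
        · right; rw [he]; exact h1
      rw [sum_congr rfl this]
      exact h.flow_star hφ v
  rcases h.sep L hsep with h1 | h1
  · left
    intro e _
    have h2 : e ∉ L := by rw [h1]; exact notMem_empty e
    rw [hmemL] at h2
    push Not at h2
    rw [hxz]
    rcases zmod2_cases (z' (a.fst e)) with h3 | h3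
    · rcases zmod2_cases (z' (a.snd e)) with h4 | h4
      · rw [h3, h4, add_zero]
      · exact absurd h4 h2.2
    · exact absurd h3 h2.1
  · right
    intro e he
    have h2 : e ∈ L := by rw [h1]; exact mem_univ e
    rw [hmemL] at h2
    rw [hxz]
    rw [mem_star] at he
    rcases he with he | he
    · rw [he, hz'w] at h2 ⊢
      rcases h2 with h2 | h2
      · exact absurd h2 (by decide)
      · rw [h2, zero_add]
    · rw [he, hz'w] at h2 ⊢
      rcases h2 with h2 | h2
      · rw [h2, add_zero]
      · exact absurd h2 (by decide)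

/-- There is a flow through two given edges at `w` avoiding the other edges at `w`. -/
theorem exists_pass (h : Ctx a X) (w : a.V) (c c' : a.E) (hc : c ∈ star a w)
    (hc' : c' ∈ star a w) (hcc : c ≠ c') :
    ∃ ψ, IsFlow a ψ ∧ ψ c = 1 ∧ ψ c' = 1 ∧ ∀ x ∈ star a w, x ≠ c → x ≠ c' → ψ x = 0 := by
  classical
  set T : Finset a.E := (star a w).filter (fun x => x ≠ c ∧ x ≠ c') with hT
  have hcT : c ∉ T := by simp [hT]
  have hcT' : c' ∉ T := by simp [hT]
  rcases flow_or_potential a T c hcT with ⟨φ, hφ, h0, h1⟩ | ⟨z, hz⟩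
  · have hx : ∀ x ∈ star a w, x ≠ c → x ≠ c' → φ x = 0 := by
      intro x hx h2 h3
      exact h0 x (by simp [hT, hx, h2, h3])
    refine ⟨φ, hφ, h1, ?_, hx⟩
    have h2 := h.flow_star hφ w
    rw [← sum_erase_add _ _ hc, ← sum_erase_add _ _ (mem_erase.mpr ⟨hcc.symm, hc'⟩),
      sum_eq_zero, zero_add, h1] at h2
    · exact z2_eq h2
    · intro x hx'
      simp only [mem_erase] at hx'
      exact hx x hx'.2.2 hx'.2.1 hx'.1
  · exfalso
    have hsum : ∀ φ, IsFlow a φ → ∑ e, (z (a.fst e) + z (a.snd e)) * φ e = 0 := by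
      intro φ hφ
      have h1 := bd_pair a φ z
      simp only [smul_eq_mul] at h1
      rw [← h1]
      apply sum_eq_zero
      intro v _
      rw [hφ v, mul_zero]
    rcases h.star_min w (fun e => z (a.fst e) + z (a.snd e)) (by
      intro e he
      rw [hz e (fun h1 => he (mem_filter.mp h1).1), if_neg]
      rintro rfl
      exact he hc) hsum with h1 | h1
    · have h2 := h1 c hc
      rw [hz c hcT, if_pos rfl] at h2
      exact absurd h2 (by decide)
    · have h2 := h1 c' hc'
      rw [hz c' hcT', if_neg hcc.symm] at h2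
      exact absurd h2 (by decide)

theorem conn_copy' (h : Ctx a X) (w : a.V) {I J : Type} [Fintype I] [DecidableEq I] [Nonempty I]
    [Fintype J] [DecidableEq J] (j : I → a.E → J) (i : I) (c c' : a.E) (hc : c ∈ star a w)
    (hc' : c' ∈ star a w) (hcc : c ≠ c') :
    Conn (explode a w I J j) (Sum.inr (j i c)) (Sum.inr (j i c')) := by
  obtain ⟨ψ, h1, h2, h3, h4⟩ := h.exists_pass w c c' hc hc' hcc
  exact conn_copy a w I J j h.loopless i c c' hc hc' hcc ψ h1 h2 h3 h4

end Ctx

end Pool.Agent.CCO
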