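import Pool.Agent.CCO.Lam2

set_option autoImplicit false

namespace Pool.Agent.CCO

open Finset

variable {a : FinGraph} {X : D a}

/-- The end of the edge `e` other than `v`. -/
theorem exists_other (e : a.E) (v : a.V) (hl : a.fst e ≠ a.snd e) (he : e ∈ star a v) :
    ∃ u, u ≠ v ∧ e ∈ star a u ∧ (∀ x, e ∈ star a x → x = v ∨ x = u) ∧
      ∀ z : a.V → ZMod 2, z (a.fst e) + z (a.snd e) = z v + z u := by
  rw [mem_star] at he
  rcases he with he | he
  · refine ⟨a.snd e, ?_, snd_mem_star e, ?_, ?_⟩
    · rw [← he]; exact hl.symm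
    · intro x hx
      rw [mem_star] at hx
      rcases hx with hx | hx
      · left; rw [← hx, he]
      · right; exact hx.symm
    · intro z; rw [he]
  · refine ⟨a.fst e, ?_, fst_mem_star e, ?_, ?_⟩
    · rw [← he]; exact hl
    · intro x hx
      rw [mem_star] at hx
      rcases hx with hx | hx
      · right; exact hx.symm
      · left; rw [← hx, he]
    · intro z; rw [he, add_comm]

namespace Ctx

theorem other (h : Ctx a X) {e : a.E} {v : a.V} (he : e ∈ star a v) :
    ∃ u, u ≠ v ∧ e ∈ star a u ∧ (∀ x, e ∈ star a x → x = v ∨ x = u) ∧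
      ∀ z : a.V → ZMod 2, z (a.fst e) + z (a.snd e) = z v + z u :=
  exists_other e v (h.loopless e) he

theorem two_le_star (h : Ctx a X) (v : a.V) : 2 ≤ (star a v).card := by
  obtain ⟨e, he⟩ := h.noniso v
  have he' : e ∈ star a v := mem_star.mpr he
  by_contra hlt
  have h1 : (star a v).card = 1 := by
    have := card_pos.mpr ⟨e, he'⟩
    omega
  obtain ⟨c, hc⟩ := card_eq_one.mp h1
  have h2 := h.star_sum v
  rw [hc, sum_singleton] at h2
  exact h.ev_ne c h2

/-- If the cut of `K` is contained in two stars then `lam` of the set of edges meeting `K` is at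
most one. The set `K` is given by its characteristic function `y`. -/
theorem lam_le_one (h : Ctx a X) (w t : a.V) (hwt : w ≠ t) (y : a.V → ZMod 2) (hyw : y w = 0)
    (hyt : y t = 0)
    (hy : ∀ x, x ∉ star a w → x ∉ star a t → y (a.fst x) + y (a.snd x) = 0)
    (L : Finset a.E) (hL : ∀ e, e ∈ L ↔ (y (a.fst e) = 1 ∨ y (a.snd e) = 1)) :
    lam a L ≤ 1 := by
  have hin : ∀ v, y v = 1 → ∀ e ∈ star a v, e ∈ L := by
    intro v hv e he
    rw [hL]
    rw [mem_star] at he
    rcases he with he | he
    · left; rw [he]; exact hv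
    · right; rw [he]; exact hv
  have hout : ∀ v, v ≠ w → v ≠ t → y v = 0 → ∀ e ∈ star a v, e ∉ L := by
    intro v hvw hvt hv e he heL
    obtain ⟨u, huv, hue, hends, hz⟩ := h.other he
    rw [hL] at heL
    have hyu : y u = 1 := by
      rcases heL with h1 | h1
      · rcases hends _ (fst_mem_star e) with h2 | h2
        · rw [h2, hv] at h1; exact absurd h1 (by decide)
        · rw [← h2]; exact h1
      · rcases hends _ (snd_mem_star e) with h2 | h2
        · rw [h2, hv] at h1; exact absurd h1 (by decide)
        · rw [← h2]; exact h1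
    have hew : e ∉ star a w := by
      intro h1
      rcases hends w h1 with h2 | h2
      · exact hvw h2.symm
      · rw [← h2, hyw] at hyu; exact absurd hyu (by decide)
    have het : e ∉ star a t := by
      intro h1
      rcases hends t h1 with h2 | h2
      · exact hvt h2.symm
      · rw [← h2, hyt] at hyu; exact absurd hyu (by decide)
    have h3 := hy e hew het
    rw [hz y, hv, hyu] at h3
    exact absurd h3 (by decide)
  set ξ : a.E → D a := fun e => if e ∈ L then ev a e else 0 with hξ
  have hb0 : ∀ v, v ≠ w → v ≠ t → bd a ξ v = 0 := by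
    intro v hvw hvt
    rw [bd_eq_star h.loopless]
    rcases zmod2_cases (y v) with h1 | h1
    · apply sum_eq_zero
      intro e he
      simp only [hξ]
      rw [if_neg (hout v hvw hvt h1 e he)]
    · have : ∀ e ∈ star a v, ξ e = ev a e := by
        intro e he
        simp only [hξ]
        rw [if_pos (hin v h1 e he)]
      rw [sum_congr rfl this]
      exact h.star_sum v
  have hsplit : ∀ g : a.V → D a, (∀ v, v ≠ w → v ≠ t → g v = 0) →
      ∑ v, g v = g w + g t := by
    intro g hg
    rw [← sum_erase_add _ _ (mem_univ w), ← sum_erase_add _ _ (mem_erase.mpr ⟨hwt.symm,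
      mem_univ t⟩), sum_eq_zero, zero_add, add_comm]
    intro v hv
    simp only [mem_erase, mem_univ, and_true] at hv
    exact hg v hv.2 hv.1
  have hbt : bd a ξ t = bd a ξ w := by
    have h1 := sum_bd a ξ
    rw [hsplit _ hb0] at h1
    exact (z2_eq h1).symm
  unfold lam
  have hY : ∀ Y ∈ Sp a L ⊓ Sp a Lᶜ, ∃ k : ZMod 2, Y = k • bd a ξ w := by
    rintro Y ⟨h1, h2⟩
    change Y ∈ Submodule.span (ZMod 2) (ev a '' (L : Set a.E)) at h1
    change Y ∈ Submodule.span (ZMod 2) (ev a '' ((Lᶜ : Finset a.E) : Set a.E)) at h2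
    rw [Submodule.mem_span_image_finset_iff_exists_fun'] at h1 h2
    obtain ⟨c, hc⟩ := h1
    obtain ⟨c', hc'⟩ := h2
    obtain ⟨u, hu⟩ := exists_potential a (fun e => if e ∈ L then c e else c' e) (by
      intro φ hφ
      have h3 : (Y + Y) ⟨φ, hφ⟩ = 0 := by rw [z2_self]; rfl
      rw [LinearMap.add_apply] at h3
      have h4 : Y ⟨φ, hφ⟩ = ∑ i ∈ L, c i * φ i := by
        rw [← hc, LinearMap.sum_apply]; rfl
      have h5 : Y ⟨φ, hφ⟩ = ∑ i ∈ Lᶜ, c' i * φ i := by
        rw [← hc', LinearMap.sum_apply]; rfl
      rw [← sum_filter_add_sum_filter_not univ (· ∈ L)]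
      have h6 : ∑ e ∈ univ.filter (· ∈ L), (if e ∈ L then c e else c' e) * φ e =
          ∑ i ∈ L, c i * φ i := by
        rw [filter_mem_eq_inter, univ_inter]
        apply sum_congr rfl
        intro e he
        rw [if_pos he]
      have h7 : ∑ e ∈ univ.filter (· ∉ L), (if e ∈ L then c e else c' e) * φ e =
          ∑ i ∈ Lᶜ, c' i * φ i := by
        have : univ.filter (· ∉ L) = Lᶜ := by ext x; simp
        rw [this]
        apply sum_congr rfl
        intro e he
        rw [if_neg (mem_compl.mp he)]
      rw [h6, h7, ← h4, ← h5]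
      exact h3)
    have hYsum : Y = ∑ e, (u (a.fst e) + u (a.snd e)) • ξ e := by
      rw [← hc]
      have : ∀ e, (u (a.fst e) + u (a.snd e)) • ξ e = if e ∈ L then c e • ev a e else 0 := by
        intro e
        rw [← hu e]
        simp only [hξ]
        by_cases he : e ∈ L <;> simp [he]
      rw [sum_congr rfl (fun e _ => this e), sum_ite_mem, univ_inter]
    have hYsum' : Y = ∑ v, u v • bd a ξ v := by
      rw [hYsum]; exact (bd_pair a ξ u).symm
    rw [hsplit _ (fun v h3 h4 => by rw [hb0 v h3 h4, smul_zero]), hbt,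
      ← add_smul] at hYsum'
    exact ⟨_, hYsum'⟩
  by_cases hbw : bd a ξ w ∈ Sp a L ⊓ Sp a Lᶜ
  · apply finrank_le_one (⟨bd a ξ w, hbw⟩ : (Sp a L ⊓ Sp a Lᶜ : Submodule (ZMod 2) (D a)))
    rintro ⟨Y, hYm⟩
    obtain ⟨k, hk⟩ := hY Y hYm
    exact ⟨k, Subtype.ext hk.symm⟩
  · apply finrank_le_one (0 : (Sp a L ⊓ Sp a Lᶜ : Submodule (ZMod 2) (D a)))
    rintro ⟨Y, hYm⟩
    refine ⟨0, Subtype.ext ?_⟩
    obtain ⟨k, hk⟩ := hY Y hYm
    rcases zmod2_cases k with h1 | h1
    · rw [h1, zero_smul] at hk
      simp [hk]
    · rw [h1, one_smul] at hk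
      rw [← hk] at hbw
      exact absurd hYm hbw

/-- The graph `a - w` is 2-connected (in matroid terms). -/
theorem decomp (h : Ctx a X) (hs : ∀ e e', Par a e e' → e = e') (w : a.V) (E1 : Finset a.E)
    (hE1 : ∀ e ∈ E1, e ∉ star a w)
    (hdec : ∀ φ, IsFlow a φ → (∀ c ∈ star a w, φ c = 0) →
      IsFlow a (fun e => if e ∈ E1 then φ e else 0)) :
    E1 = ∅ ∨ ∀ e, e ∉ star a w → e ∈ E1 := by
  by_contra hcon
  push Not at hcon
  obtain ⟨⟨e1, he1⟩, e2, he2w, he2⟩ := hcon
  classical
  -- a mixed vertex
  have hmix : ∃ t, t ≠ w ∧ ∃ e1 ∈ star a t, e1 ∈ E1 ∧ ∃ e2 ∈ star a t, e2 ∉ star a w ∧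
      e2 ∉ E1 := by
    by_contra hno
    push Not at hno
    set K : a.V → Prop := fun v => v ≠ w ∧ ∃ e ∈ star a v, e ∈ E1 with hK
    set L : Finset a.E := univ.filter (fun e => K (a.fst e) ∨ K (a.snd e)) with hL
    have hmemL : ∀ e, e ∈ L ↔ (K (a.fst e) ∨ K (a.snd e)) := by intro e; simp [hL]
    have hsep : Sepr a L := by
      intro φ hφ
      apply isFlow_of_off w
      intro v hv
      rw [bd_eq_star h.loopless]
      by_cases hKv : K v
      · have : ∀ e ∈ star a v, (if e ∈ L then φ e else 0) = φ e := by
          intro e he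
          rw [if_pos]
          rw [hmemL]
          rw [mem_star] at he
          rcases he with he | he
          · left; rw [he]; exact hKv
          · right; rw [he]; exact hKv
        rw [sum_congr rfl this]
        exact h.flow_star hφ v
      · apply sum_eq_zero
        intro e he
        rw [if_neg]
        intro heL
        rw [hmemL] at heL
        obtain ⟨u, huv, hue, hends, _⟩ := h.other he
        have hKu : K u := by
          rcases heL with h1 | h1
          · rcases hends _ (fst_mem_star e) with h2 | h2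
            · rw [h2] at h1; exact absurd h1 hKv
            · rw [← h2]; exact h1
          · rcases hends _ (snd_mem_star e) with h2 | h2
            · rw [h2] at h1; exact absurd h1 hKv
            · rw [← h2]; exact h1
        obtain ⟨huw, e', he'u, he'⟩ := hKu
        have hew : e ∉ star a w := by
          intro h1
          rcases hends w h1 with h2 | h2
          · exact hv h2.symm
          · exact huw h2.symm
        exact hKv ⟨hv, e, he, hno u huw e' he'u he' e hue hew⟩
    have hfstw : ∀ e, e ∉ star a w → a.fst e ≠ w := by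
      intro e he h1
      apply he
      rw [mem_star]; left; exact h1
    have hsndw : ∀ e, e ∉ star a w → a.snd e ≠ w := by
      intro e he h1
      apply he
      rw [mem_star]; right; exact h1
    rcases h.sep L hsep with h1 | h1
    · have : e1 ∈ L := by
        rw [hmemL]
        left
        exact ⟨hfstw e1 (hE1 e1 he1), e1, fst_mem_star e1, he1⟩
      rw [h1] at this
      exact notMem_empty _ this
    · have : e2 ∈ L := by rw [h1]; exact mem_univ _
      rw [hmemL] at this
      rcases this with ⟨h2, e', h3, h4⟩ | ⟨h2, e', h3, h4⟩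
      · exact he2 (hno _ h2 e' h3 h4 e2 (fst_mem_star e2) he2w)
      · exact he2 (hno _ h2 e' h3 h4 e2 (snd_mem_star e2) he2w)
  clear he1 he2 he2w e1 e2
  obtain ⟨t, htw, e1, he1t, he1, e2, he2t, he2w, he2⟩ := hmix
  have he12 : e1 ≠ e2 := by rintro rfl; exact he2 he1
  have he1w := hE1 e1 he1
  set T : Finset a.E := univ.filter (fun x => (x ∈ star a w ∨ x ∈ star a t) ∧ x ≠ e1 ∧ x ≠ e2)
    with hT
  have hmemT : ∀ x, x ∈ T ↔ ((x ∈ star a w ∨ x ∈ star a t) ∧ x ≠ e1 ∧ x ≠ e2) := by
    intro x; simp [hT]
  rcases flow_or_potential a T e1 (by rw [hmemT]; simp) with ⟨φ, hφ, h0, h1⟩ | ⟨z, hz⟩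
  · have hvan : ∀ c ∈ star a w, φ c = 0 := by
      intro c hc
      apply h0
      rw [hmemT]
      refine ⟨Or.inl hc, ?_, ?_⟩
      · rintro rfl; exact he1w hc
      · rintro rfl; exact he2w hc
    have h2 := h.flow_star (hdec φ hφ hvan) t
    rw [sum_eq_single e1] at h2
    · rw [if_pos he1, h1] at h2
      exact absurd h2 (by decide)
    · intro x hx hxe
      by_cases hx2 : x = e2
      · rw [hx2, if_neg he2]
      · rw [h0 x (by rw [hmemT]; exact ⟨Or.inr hx, hxe, hx2⟩), ite_self]
    · intro hno; exact absurd he1t hno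
  · set y : a.V → ZMod 2 := fun v => if v = w then 0 else z v + z t with hy
    have hyw : y w = 0 := by simp [hy]
    have hyt : y t = 0 := by
      simp only [hy, if_neg htw]
      exact z2_self _
    have hyoff : ∀ x, x ∉ star a w → y (a.fst x) + y (a.snd x) =
        z (a.fst x) + z (a.snd x) := by
      intro x hx
      rw [mem_star] at hx
      push Not at hx
      simp only [hy, if_neg hx.1, if_neg hx.2]
      have : z t + z t = 0 := z2_self _
      calc _ = z (a.fst x) + z (a.snd x) + (z t + z t) := by ring
        _ = _ := by rw [this, add_zero]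
    have hy1 : y (a.fst e1) + y (a.snd e1) = 1 := by
      rw [hyoff e1 he1w, hz e1 (by rw [hmemT]; simp), if_pos rfl]
    have hy2 : y (a.fst e2) + y (a.snd e2) = 0 := by
      rw [hyoff e2 he2w, hz e2 (by rw [hmemT]; simp), if_neg he12.symm]
    have hyx : ∀ x, x ∉ star a w → x ∉ star a t → y (a.fst x) + y (a.snd x) = 0 := by
      intro x hxw hxt
      rw [hyoff x hxw, hz x (by
        rw [hmemT]
        rintro ⟨h1 | h1, _⟩
        · exact hxw h1
        · exact hxt h1), if_neg]
      rintro rfl
      exact hxt he1t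
    set L : Finset a.E := univ.filter (fun e => y (a.fst e) = 1 ∨ y (a.snd e) = 1) with hL
    have hmemL : ∀ e, e ∈ L ↔ (y (a.fst e) = 1 ∨ y (a.snd e) = 1) := by intro e; simp [hL]
    have hlam := h.lam_le_one w t htw.symm y hyw hyt hyx L hmemL
    apply h.no_twoSep hs L
    refine ⟨hlam, ?_, ?_⟩
    · obtain ⟨x1, hx1t, hx1, _, hz1⟩ := h.other he1t
      have hyx1 : y x1 = 1 := by
        rw [hz1 y, hyt, zero_add] at hy1
        exact hy1
      refine _root_.le_trans (h.two_le_star x1) (card_le_card ?_)
      intro e he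
      rw [hmemL]
      rw [mem_star] at he
      rcases he with he | he
      · left; rw [he]; exact hyx1
      · right; rw [he]; exact hyx1
    · obtain ⟨x2, hx2t, hx2, hends2, hz2⟩ := h.other he2t
      have hyx2 : y x2 = 0 := by
        rw [hz2 y, hyt, zero_add] at hy2
        exact hy2
      have hx2w : x2 ≠ w := by
        rintro rfl
        exact he2w hx2
      refine _root_.le_trans (h.two_le_star x2) (card_le_card ?_)
      intro e he
      rw [mem_compl, hmemL]
      intro heL
      obtain ⟨u, hu, hue, hends, hzu⟩ := h.other he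
      have hyu : y u = 1 := by
        rcases heL with h1 | h1
        · rcases hends _ (fst_mem_star e) with h2 | h2
          · rw [h2, hyx2] at h1; exact absurd h1 (by decide)
          · rw [← h2]; exact h1
        · rcases hends _ (snd_mem_star e) with h2 | h2
          · rw [h2, hyx2] at h1; exact absurd h1 (by decide)
          · rw [← h2]; exact h1
      have hew : e ∉ star a w := by
        intro h1
        rcases hends w h1 with h2 | h2
        · exact hx2w h2.symm
        · rw [← h2, hyw] at hyu; exact absurd hyu (by decide)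
      have het : e ∉ star a t := by
        intro h1
        rcases hends t h1 with h2 | h2
        · exact hx2t h2.symm
        · rw [← h2, hyt] at hyu; exact absurd hyu (by decide)
      have h3 := hyx e hew het
      rw [hzu y, hyx2, hyu] at h3
      exact absurd h3 (by decide)

/-- A nonempty cut contained in the image of the star of `w` is the whole image. -/
theorem star_eq_of_subset (h : Ctx a X) {σ : a.E → a.E} (hσ : CC a a σ) (w v : a.V)
    (hsub : star a v ⊆ (star a w).image σ) : star a v = (star a w).image σ := by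
  classical
  obtain ⟨τ, hτ, h1, h2⟩ := h.exists_inv hσ
  have hinj := h.cc_inj hσ
  have hτinj := h.cc_inj hτ
  rcases h.star_min w (fun e => if σ e ∈ star a v then 1 else 0) (by
    intro e he
    rw [if_neg]
    intro h3
    have h4 := hsub h3
    rw [mem_image] at h4
    obtain ⟨x, hx, hxe⟩ := h4
    rw [hinj hxe] at hx
    exact he hx) (by
    intro φ hφ
    have h3 := h.flow_star (hτ φ hφ) v
    have h4 : ∑ e, (if σ e ∈ star a v then (1 : ZMod 2) else 0) * φ e =
        ∑ x ∈ star a v, φ (τ x) := by
      rw [← sum_filter_add_sum_filter_not univ (fun e => σ e ∈ star a v)]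
      rw [sum_eq_zero (s := univ.filter (fun e => ¬ σ e ∈ star a v)), add_zero]
      · apply sum_bij (fun e _ => σ e)
        · intro e he; simpa using he
        · intro e _ e' _ hee; exact hinj hee
        · intro x hx
          exact ⟨τ x, by simpa [h2] using hx, h2 x⟩
        · intro e he
          rw [if_pos (by simpa using he), one_mul, h1]
      · intro e he
        rw [if_neg (by simpa using he), zero_mul]
    rw [h4]; exact h3) with h3 | h3
  · exfalso
    obtain ⟨e, he⟩ := h.noniso v
    have he' : e ∈ star a v := mem_star.mpr he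
    have h4 := hsub he'
    rw [mem_image] at h4
    obtain ⟨x, hx, rfl⟩ := h4
    have h5 := h3 x hx
    rw [if_pos he'] at h5
    exact absurd h5 (by decide)
  · apply Subset.antisymm hsub
    intro e he
    rw [mem_image] at he
    obtain ⟨x, hx, rfl⟩ := he
    by_contra h4
    have h5 := h3 x hx
    rw [if_neg h4] at h5
    exact absurd h5 (by decide)

/-- Whitney: a cc automorphism maps the star of a vertex to the star of a vertex. -/
theorem exists_star (h : Ctx a X) (hs : ∀ e e', Par a e e' → e = e') {σ : a.E → a.E}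
    (hσ : CC a a σ) (w : a.V) : ∃ v, star a v = (star a w).image σ := by
  classical
  obtain ⟨τ, hτ, h1, h2⟩ := h.exists_inv hσ
  have hinj := h.cc_inj hσ
  set C : Finset a.E := (star a w).image σ with hC
  have hmemC : ∀ e, σ e ∈ C ↔ e ∈ star a w := by
    intro e
    rw [hC, mem_image]
    constructor
    · rintro ⟨x, hx, hxe⟩; rw [← hinj hxe]; exact hx
    · intro he; exact ⟨e, he, rfl⟩
  obtain ⟨z, hz⟩ := exists_potential a (fun e => if e ∈ C then 1 else 0) (by
    intro φ hφ
    simp only [ite_mul, one_mul, zero_mul]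
    rw [sum_ite_mem, univ_inter, hC, sum_image (fun x _ y _ hxy => hinj hxy)]
    exact h.flow_star (hσ φ hφ) w)
  set E1 : Finset a.E := univ.filter (fun e => z (a.fst (σ e)) = 1 ∧ z (a.snd (σ e)) = 1)
    with hE1
  have hmem1 : ∀ e, e ∈ E1 ↔ (z (a.fst (σ e)) = 1 ∧ z (a.snd (σ e)) = 1) := by
    intro e; simp [hE1]
  have hdecomp := h.decomp hs w E1 (by
    intro e he hew
    rw [hmem1] at he
    have h3 := hz (σ e)
    rw [if_pos ((hmemC e).mpr hew), he.1, he.2] at h3
    exact absurd h3 (by decide)) (by
    intro φ hφ hvan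
    have hφ' := hτ φ hφ
    have hvan' : ∀ c ∈ C, φ (τ c) = 0 := by
      intro c hc
      rw [hC, mem_image] at hc
      obtain ⟨x, hx, rfl⟩ := hc
      rw [h1]; exact hvan x hx
    have hχ : IsFlow a (fun e => if z (a.fst e) = 1 ∧ z (a.snd e) = 1 then φ (τ e) else 0) := by
      apply h.isFlow_of_star
      intro v
      rcases zmod2_cases (z v) with h3 | h3
      · apply sum_eq_zero
        intro e he
        rw [if_neg]
        rintro ⟨h4, h5⟩
        rw [mem_star] at he
        rcases he with he | he
        · rw [he, h3] at h4; exact absurd h4 (by decide)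
        · rw [he, h3] at h5; exact absurd h5 (by decide)
      · have h4 : ∀ e ∈ star a v, (if z (a.fst e) = 1 ∧ z (a.snd e) = 1 then φ (τ e) else 0) =
            φ (τ e) := by
          intro e he
          by_cases hec : e ∈ C
          · rw [hvan' e hec, ite_self]
          · rw [if_pos]
            have h5 := hz e
            rw [if_neg hec] at h5
            have h6 : z (a.fst e) = z (a.snd e) := (z2_eq h5.symm)
            rw [mem_star] at he
            rcases he with he | he
            · rw [← h6, he, h3]; exact ⟨rfl, rfl⟩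
            · rw [h6, he, h3]; exact ⟨rfl, rfl⟩
        rw [sum_congr rfl h4]
        exact h.flow_star hφ' v
    have h3 := hσ _ hχ
    have h4 : (fun e => if z (a.fst (σ e)) = 1 ∧ z (a.snd (σ e)) = 1 then φ (τ (σ e)) else 0) =
        fun e => if e ∈ E1 then φ e else 0 := by
      funext e
      simp only [hmem1, h1]
    rw [h4] at h3
    exact h3)
  -- an edge of `C`
  obtain ⟨c, hc⟩ := h.noniso w
  have hc' : c ∈ star a w := mem_star.mpr hc
  have hcC : σ c ∈ C := (hmemC c).mpr hc'
  have hzc := hz (σ c)
  rw [if_pos hcC] at hzc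
  rcases hdecomp with h3 | h3
  · -- no edge with both ends in `z = 1`
    have hno : ∀ x, ¬ (z (a.fst x) = 1 ∧ z (a.snd x) = 1) := by
      intro x hx
      have : τ x ∈ E1 := by rw [hmem1, h2]; exact hx
      rw [h3] at this
      exact notMem_empty _ this
    have hv : ∃ v, z v = 1 := by
      rcases zmod2_cases (z (a.fst (σ c))) with h4 | h4
      · rcases zmod2_cases (z (a.snd (σ c))) with h5 | h5
        · rw [h4, h5] at hzc; exact absurd hzc (by decide)
        · exact ⟨_, h5⟩
      · exact ⟨_, h4⟩
    obtain ⟨v, hv⟩ := hv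
    refine ⟨v, h.star_eq_of_subset hσ w v ?_⟩
    intro x hx
    by_contra hxC
    have h4 := hz x
    rw [if_neg hxC] at h4
    have h5 := z2_eq h4.symm
    apply hno x
    rw [mem_star] at hx
    rcases hx with hx | hx
    · rw [← h5, hx, hv]; exact ⟨rfl, rfl⟩
    · rw [h5, hx, hv]; exact ⟨rfl, rfl⟩
  · -- every edge not in `C` has both ends in `z = 1`
    have hno : ∀ x, x ∉ C → (z (a.fst x) = 1 ∧ z (a.snd x) = 1) := by
      intro x hx
      have h4 : τ x ∉ star a w := by
        intro h5
        apply hx
        rw [← h2 x]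
        exact (hmemC _).mpr h5
      have h5 := h3 _ h4
      rw [hmem1, h2] at h5
      exact h5
    have hv : ∃ v, z v = 0 := by
      rcases zmod2_cases (z (a.fst (σ c))) with h4 | h4
      · exact ⟨_, h4⟩
      · rcases zmod2_cases (z (a.snd (σ c))) with h5 | h5
        · exact ⟨_, h5⟩
        · rw [h4, h5] at hzc; exact absurd hzc (by decide)
    obtain ⟨v, hv⟩ := hv
    refine ⟨v, h.star_eq_of_subset hσ w v ?_⟩
    intro x hx
    by_contra hxC
    obtain ⟨h4, h5⟩ := hno x hxC
    rw [mem_star] at hx
    rcases hx with hx | hx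
    · rw [hx, hv] at h4; exact absurd h4 (by decide)
    · rw [hx, hv] at h5; exact absurd h5 (by decide)

/-- Two distinct vertices have at most one common edge. -/
theorem common_edge (_h : Ctx a X) (hs : ∀ e e', Par a e e' → e = e') {u v : a.V} (huv : u ≠ v)
    {e e' : a.E} (h1 : e ∈ star a u) (h2 : e ∈ star a v) (h3 : e' ∈ star a u)
    (h4 : e' ∈ star a v) : e = e' :=
  hs _ _ (par_of_ends huv h1 h2 h3 h4)

/-- A cc automorphism is induced by a graph automorphism. -/
theorem star_map (h : Ctx a X) (hs : ∀ e e', Par a e e' → e = e') {σ : a.E → a.E}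
    (hσ : CC a a σ) : ∃ g : a.V → a.V, Function.Bijective g ∧
      ∀ v e, σ e ∈ star a (g v) ↔ e ∈ star a v := by
  choose g hg using fun w => h.exists_star hs hσ w
  refine ⟨g, ?_, ?_⟩
  · apply Finite.injective_iff_bijective.mp
    intro u v huv
    have h1 : (star a u).image σ = (star a v).image σ := by rw [← hg, ← hg, huv]
    have h2 : star a u = star a v := image_injective (h.cc_inj hσ) h1
    by_contra hne
    obtain ⟨e, he, e', he', hee⟩ := one_lt_card.mp (h.two_le_star u)
    exact hee (h.common_edge hs hne he (h2 ▸ he) he' (h2 ▸ he'))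
  · intro v e
    rw [hg, mem_image]
    constructor
    · rintro ⟨x, hx, hxe⟩
      rw [← h.cc_inj hσ hxe]; exact hx
    · intro he; exact ⟨e, he, rfl⟩

end Ctx

end Pool.Agent.CCO
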