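import Pool.Agent.CCO.Common

set_option autoImplicit false

namespace Pool.Agent.CCO

open Finset

/-- If the evaluation at an edge is a common leak then every bridgeless graph maps to `a`. -/
theorem univ_of_edge (a : FinGraph) (e0 : a.E) (hcom : Common a (ev a e0)) :
    ∀ G : FinGraph, Bridgeless G → Le G a := by
  have main : ∀ n : ℕ, ∀ G : FinGraph, Fintype.card G.E = n → Bridgeless G → Le G a := by
    intro n
    induction n using Nat.strong_induction_on with
    | _ n ih =>
    intro G hn hbr
    rw [bridgeless_iff] at hbr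
    obtain ⟨ε⟩ := G.nonempty
    by_cases hne : Nonempty {e : G.E // e ≠ ε}
    swap
    · -- a single edge, which is a loop
      have hall : ∀ e : G.E, e = ε := by
        intro e
        by_contra h
        exact hne ⟨⟨e, h⟩⟩
      obtain ⟨φ, hφ, hφe⟩ := hbr ε
      have h1 : φ = fun e => if e = ε then 1 else 0 := by
        funext e
        rw [if_pos (hall e), hall e, hφe]
      rw [h1] at hφ
      have hl := bd_single_loop G ε hφ
      refine ⟨fun _ => e0, fun φ _ v => ?_⟩
      unfold bd
      apply sum_eq_zero
      intro e _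
      rw [hall e, hl]
      exact z2_self _
    -- the deletion of `ε`
    have hcard : Fintype.card {e : G.E // e ≠ ε} < n := by
      rw [← hn]
      exact Fintype.card_subtype_lt (x := ε) (by simp)
    set R : FinGraph := restrict G (fun e => e ≠ ε) hne with hR
    have hRflow : ∀ φ : G.E → ZMod 2, IsFlow G φ → φ ε = 0 →
        IsFlow R (fun e => φ e.1) := by
      intro φ hφ h0 v
      rw [bd_restrict G _ hne _ φ (fun e he => rfl) (fun e he => by
        rw [not_not] at he
        rw [he, h0])]
      exact hφ v
    have hflowR : ∀ φ : R.E → ZMod 2, IsFlow R φ →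
        IsFlow G (fun e => if h : e ≠ ε then φ ⟨e, h⟩ else 0) := by
      intro φ hφ v
      rw [← bd_restrict G (fun e => e ≠ ε) hne φ _ (fun e he => by rw [dif_pos he])
        (fun e he => by rw [dif_neg he])]
      exact hφ v
    by_cases hloop : G.fst ε = G.snd ε
    · -- a loop
      have hRbr : Bridgeless R := by
        rw [bridgeless_iff]
        rintro ⟨e, he⟩
        obtain ⟨φ, hφ, hφe⟩ := hbr e
        have hφ' : IsFlow G (fun x => φ x + (if x = ε then φ ε else 0)) := by
          apply isFlow_add hφ
          intro v
          rw [bd_ite, hloop]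
          exact z2_self _
        refine ⟨fun x => φ x.1 + (if x.1 = ε then φ ε else 0), hRflow _ hφ' ?_, ?_⟩
        · simp only [if_true]
          exact z2_self _
        · simp only
          rw [if_neg he, add_zero, hφe]
      obtain ⟨f, hf⟩ := ih _ hcard R rfl hRbr
      rw [cc_iff] at hf
      refine ⟨fun e => if h : e ≠ ε then f ⟨e, h⟩ else e0, cc_iff.mpr (fun v => ?_)⟩
      have h1 := hf v
      rw [bd_restrict G (fun e => e ≠ ε) hne _
        (fun e => if h : e ≠ ε then ev a (f ⟨e, h⟩) else 0)
        (fun e he => by rw [dif_pos he]) (fun e he => by rw [dif_neg he])] at h1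
      have h2 : (fun e => ev a (if h : e ≠ ε then f ⟨e, h⟩ else e0)) =
          fun e => (if h : e ≠ ε then ev a (f ⟨e, h⟩) else 0) +
            (if e = ε then ev a e0 else 0) := by
        funext e
        by_cases he : e = ε
        · rw [dif_neg (not_not.mpr he), dif_neg (not_not.mpr he), if_pos he, zero_add]
        · rw [dif_pos he, dif_pos he, if_neg he, add_zero]
      rw [h2, bd_add, h1, bd_ite, hloop, zero_add]
      exact z2_self _
    by_cases hRbr : Bridgeless R
    · -- the deletion is bridgeless
      have hst : G.fst ε ≠ G.snd ε := hloop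
      have hconn : Conn R (G.fst ε) (G.snd ε) := by
        obtain ⟨φ, hφ, hφe⟩ := hbr ε
        refine ⟨fun e => φ e.1, fun v => ?_⟩
        rw [bd_restrict G _ hne _ (fun x => φ x + (if x = ε then φ ε else 0))
          (fun e he => by rw [if_neg he, add_zero]) (fun e he => by
            rw [not_not] at he
            rw [he, if_pos rfl]
            exact z2_self _)]
        rw [bd_add, hφ v, zero_add, bd_ite, hφe]
        simp only [eq_comm]
      obtain ⟨f, hf⟩ := hcom R (G.fst ε) (G.snd ε) (ih _ hcard R rfl hRbr) hst hconn
      refine ⟨fun e => if h : e ≠ ε then f ⟨e, h⟩ else e0, cc_iff.mpr (fun v => ?_)⟩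
      have h1 := hf v
      rw [bd_restrict G (fun e => e ≠ ε) hne _
        (fun e => if h : e ≠ ε then ev a (f ⟨e, h⟩) else 0)
        (fun e he => by rw [dif_pos he]) (fun e he => by rw [dif_neg he])] at h1
      have h2 : (fun e => ev a (if h : e ≠ ε then f ⟨e, h⟩ else e0)) =
          fun e => (if h : e ≠ ε then ev a (f ⟨e, h⟩) else 0) +
            (if e = ε then ev a e0 else 0) := by
        funext e
        by_cases he : e = ε
        · rw [dif_neg (not_not.mpr he), dif_neg (not_not.mpr he), if_pos he, zero_add]
        · rw [dif_pos he, dif_pos he, if_neg he, add_zero]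
      rw [h2, bd_add, h1, bd_ite]
      simp only [eq_comm (a := v)]
      exact z2_self _
    · -- a cut of size two
      rw [bridgeless_iff] at hRbr
      push Not at hRbr
      obtain ⟨⟨ε', hε'⟩, hno⟩ := hRbr
      have hno' : ∀ φ : G.E → ZMod 2, IsFlow G φ → φ ε = 0 → φ ε' = 0 := by
        intro φ hφ h0
        rcases zmod2_cases (φ ε') with h1 | h1
        · exact h1
        · exact absurd h1 (hno _ (hRflow φ hφ h0))
      have heq : ∀ φ : G.E → ZMod 2, IsFlow G φ → φ ε' = φ ε := by
        intro φ hφ
        obtain ⟨ψ, hψ, hψe⟩ := hbr ε'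
        have hψε : ψ ε = 1 := by
          rcases zmod2_cases (ψ ε) with h1 | h1
          · have := hno' ψ hψ h1
            rw [hψe] at this
            exact absurd this (by decide)
          · exact h1
        rcases zmod2_cases (φ ε) with h1 | h1
        · rw [h1]; exact hno' φ hφ h1
        · have h2 := hno' _ (isFlow_add hφ hψ) (by rw [h1, hψε]; decide)
          rw [hψe] at h2
          rw [h1]
          exact z2_eq h2
      have hcbr : Bridgeless (contract G ε hne) := by
        rw [bridgeless_iff]
        rintro ⟨e, he⟩
        obtain ⟨φ, hφ, hφe⟩ := hbr e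
        exact ⟨fun x => φ x.1, cc_contract G ε hne φ hφ, hφe⟩
      obtain ⟨g, hg⟩ := ih _ hcard (contract G ε hne) rfl hcbr
      refine ⟨fun e => if h : e ≠ ε then g ⟨e, h⟩ else g ⟨ε', hε'⟩, fun φ hφ => ?_⟩
      obtain ⟨ψ, hψ1, hψ2⟩ := extend_contract G ε hne _ (hg φ hφ)
      have h2 : (fun e => φ (if h : e ≠ ε then g ⟨e, h⟩ else g ⟨ε', hε'⟩)) = ψ := by
        funext e
        by_cases he : e = ε
        · rw [dif_neg (not_not.mpr he), he, ← heq ψ hψ1, hψ2 ε' hε']
        · rw [dif_pos he, hψ2 e he]
      rw [h2]
      exact hψ1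
  intro G hG
  exact main _ G rfl hG

end Pool.Agent.CCO
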